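import Pool.Agent.Run7.h74.DW.Iface

/-!
# Project DW (helper74), piece H1 (helper304): the harmonics of positive order, and the plain mean
-/

set_option autoImplicit false

namespace Pool.Agent.Run7.h74.DW.H1

open Filter Topology MeasureTheory Complex
open Pool.Agent.Q97.UM
open Pool.Agent.Run7.h74.DW
open Pool.Agent.Run7.h74.SC (ph ph_norm ph_cont)

/-- the coefficients on the critical line -/
noncomputable def A (c : ℕ → ℂ) (h : ℕ) : ℂ := c h * (((h : ℝ) ^ (-(1 / 2) : ℝ) : ℝ) : ℂ)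

theorem cpow_eq (h : ℕ) (hh : 1 ≤ h) (t : ℝ) :
    (h : ℂ) ^ (-(1 / 2 + t * I)) = (((h : ℝ) ^ (-(1 / 2) : ℝ) : ℝ) : ℂ) * cexp (-(I * (t * Real.log h : ℝ))) := by
  have h0 : (0 : ℝ) < h := by exact_mod_cast hh
  have h1 : (h : ℂ) ≠ 0 := by exact_mod_cast h0.ne'
  rw [Complex.cpow_def_of_ne_zero h1, Real.rpow_def_of_pos h0, Complex.ofReal_exp, ← Complex.exp_add,
    ← Complex.ofReal_natCast, ← Complex.ofReal_log h0.le]
  congr 1
  push_cast
  ring

theorem dp_eq (M : ℕ) (c : ℕ → ℂ) (t : ℝ) :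
    dp M c t = ∑ h ∈ Finset.Icc 1 M, A c h * cexp (-(I * (t * Real.log h : ℝ))) := by
  unfold dp A
  refine Finset.sum_congr rfl fun h hh => ?_
  rw [cpow_eq h (Finset.mem_Icc.1 hh).1 t]
  ring

theorem A_sq (c : ℕ → ℂ) (h : ℕ) (hh : 1 ≤ h) : ‖A c h‖ ^ 2 = ‖c h‖ ^ 2 / h := by
  have h0 : (0 : ℝ) < h := by exact_mod_cast hh
  unfold A
  rw [norm_mul, Complex.norm_real, Real.norm_of_nonneg (Real.rpow_nonneg h0.le _), mul_pow, ← Real.rpow_natCast
    ((h : ℝ) ^ (-(1 / 2) : ℝ)), ← Real.rpow_mul h0.le]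
  norm_num
  rw [Real.rpow_neg_one, div_eq_mul_inv]

theorem N2_eq (M : ℕ) (c : ℕ → ℂ) : N2 M c = ∑ h ∈ Finset.Icc 1 M, ‖A c h‖ ^ 2 := by
  unfold N2
  exact Finset.sum_congr rfl fun h hh => (A_sq c h (Finset.mem_Icc.1 hh).1).symm

theorem N2_nonneg (M : ℕ) (c : ℕ → ℂ) : 0 ≤ N2 M c := by
  rw [N2_eq]
  exact Finset.sum_nonneg fun h _ => sq_nonneg _

theorem cs (M : ℕ) (c : ℕ → ℂ) : (∑ h ∈ Finset.Icc 1 M, ‖A c h‖) ^ 2 ≤ M * N2 M c := by
  rw [N2_eq]
  have h1 := sq_sum_le_card_mul_sum_sq (s := Finset.Icc 1 M) (f := fun h => ‖A c h‖)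
  rwa [Nat.card_Icc, Nat.add_sub_cancel] at h1

theorem sq_eq (M : ℕ) (c : ℕ → ℂ) (t : ℝ) : ((‖dp M c t‖ ^ 2 : ℝ) : ℂ) =
    ∑ h ∈ Finset.Icc 1 M, ∑ l ∈ Finset.Icc 1 M, A c h * (starRingEnd ℂ) (A c l) *
      cexp (I * (t * (Real.log l - Real.log h) : ℝ)) := by
  rw [Complex.ofReal_pow, ← Complex.mul_conj', dp_eq, map_sum, Finset.sum_mul_sum]
  refine Finset.sum_congr rfl fun h _ => Finset.sum_congr rfl fun l _ => ?_
  rw [map_mul, ← Complex.exp_conj]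
  have e1 : (starRingEnd ℂ) (-(I * ((t * Real.log l : ℝ) : ℂ))) = I * ((t * Real.log l : ℝ) : ℂ) := by
    rw [map_neg, map_mul, Complex.conj_I, Complex.conj_ofReal]
    ring
  rw [e1]
  have e2 : cexp (I * ((t * (Real.log l - Real.log h) : ℝ) : ℂ)) =
      cexp (-(I * ((t * Real.log h : ℝ) : ℂ))) * cexp (I * ((t * Real.log l : ℝ) : ℂ)) := by
    rw [← Complex.exp_add]
    congr 1
    push_cast
    ring
  rw [e2]
  ring

theorem expand (f : ℝ → ℂ) (hf : Continuous f) (M : ℕ) (c : ℕ → ℂ) (a b : ℝ) :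
    ∫ t in a..b, f t * ((‖dp M c t‖ ^ 2 : ℝ) : ℂ) =
      ∑ h ∈ Finset.Icc 1 M, ∑ l ∈ Finset.Icc 1 M, A c h * (starRingEnd ℂ) (A c l) *
        ∫ t in a..b, f t * cexp (I * (t * (Real.log l - Real.log h) : ℝ)) := by
  have hc : ∀ x : ℝ, Continuous fun t : ℝ => f t * cexp (I * (t * x : ℝ)) := fun x =>
    hf.mul (by fun_prop)
  have h1 : ∀ t : ℝ, f t * ((‖dp M c t‖ ^ 2 : ℝ) : ℂ) =
      ∑ h ∈ Finset.Icc 1 M, ∑ l ∈ Finset.Icc 1 M, A c h * (starRingEnd ℂ) (A c l) *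
        (f t * cexp (I * (t * (Real.log l - Real.log h) : ℝ))) := by
    intro t
    rw [sq_eq, Finset.mul_sum]
    refine Finset.sum_congr rfl fun h _ => ?_
    rw [Finset.mul_sum]
    refine Finset.sum_congr rfl fun l _ => ?_
    ring
  simp_rw [h1]
  rw [intervalIntegral.integral_finsetSum fun h _ => ?_]
  · refine Finset.sum_congr rfl fun h _ => ?_
    rw [intervalIntegral.integral_finsetSum fun l _ => ((hc _).const_mul _).intervalIntegrable _ _]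
    refine Finset.sum_congr rfl fun l _ => ?_
    rw [intervalIntegral.integral_const_mul]
  · refine Continuous.intervalIntegrable ?_ _ _
    exact continuous_finsetSum _ fun l _ => (hc _).const_mul _

theorem dsum (M : ℕ) (c : ℕ → ℂ) (J : ℕ → ℕ → ℂ) (B : ℝ) (hB0 : 0 ≤ B)
    (hB : ∀ h ∈ Finset.Icc 1 M, ∀ l ∈ Finset.Icc 1 M, ‖J h l‖ ≤ B) :
    ‖∑ h ∈ Finset.Icc 1 M, ∑ l ∈ Finset.Icc 1 M, A c h * (starRingEnd ℂ) (A c l) * J h l‖ ≤ B * (M * N2 M c) := by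
  calc ‖∑ h ∈ Finset.Icc 1 M, ∑ l ∈ Finset.Icc 1 M, A c h * (starRingEnd ℂ) (A c l) * J h l‖
      ≤ ∑ h ∈ Finset.Icc 1 M, ∑ l ∈ Finset.Icc 1 M, ‖A c h‖ * ‖A c l‖ * B := by
        refine (norm_sum_le _ _).trans (Finset.sum_le_sum fun h hh => ?_)
        refine (norm_sum_le _ _).trans (Finset.sum_le_sum fun l hl => ?_)
        rw [norm_mul, norm_mul, RCLike.norm_conj]
        exact mul_le_mul_of_nonneg_left (hB h hh l hl) (by positivity)
    _ = B * (∑ h ∈ Finset.Icc 1 M, ‖A c h‖) ^ 2 := by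
        rw [sq, Finset.sum_mul_sum, Finset.mul_sum]
        refine Finset.sum_congr rfl fun h _ => ?_
        rw [Finset.mul_sum]
        refine Finset.sum_congr rfl fun l _ => ?_
        ring
    _ ≤ B * (M * N2 M c) := mul_le_mul_of_nonneg_left (cs M c) hB0

theorem wt_cont (a b : ℝ) : Continuous (wt a b) := by
  unfold wt
  fun_prop

theorem wt_le {a b t : ℝ} (h : a < b) (h1 : a ≤ t) (h2 : t ≤ b) : |wt a b t| ≤ 1 := by
  have hd : 0 < b - a := by linarith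
  have h3 : 0 ≤ (t - a) * (b - t) := mul_nonneg (by linarith) (by linarith)
  have h4 : 0 ≤ wt a b t := by
    unfold wt
    rw [mul_assoc]
    positivity
  rw [abs_of_nonneg h4]
  unfold wt
  rw [div_le_one (by positivity)]
  nlinarith [sq_nonneg ((t - a) - (b - t))]

theorem zt_cont : Continuous zt := by
  have h : ∀ t : ℝ, (1 / 2 + t * I : ℂ) ≠ 1 := by
    intro t h0
    have := congrArg Complex.re h0
    simp at this
  unfold zt
  rw [continuous_iff_continuousAt]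
  intro t
  have h1 : ContinuousAt riemannZeta (1 / 2 + t * I : ℂ) := (differentiableAt_riemannZeta (h t)).continuousAt
  have h2 : ContinuousAt (fun t : ℝ => (1 / 2 + t * I : ℂ)) t := by fun_prop
  exact ContinuousAt.comp (f := fun t : ℝ => (1 / 2 + t * I : ℂ)) (g := riemannZeta) h1 h2

theorem sum_sq (n : ℕ) : ∑ k ∈ Finset.Icc 1 (n + 1), 1 / (k : ℝ) ^ 2 ≤ 2 - 1 / ((n : ℝ) + 1) := by
  induction n with
  | zero => norm_num
  | succ n ih =>
    rw [Finset.sum_Icc_succ_top (by omega)]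
    have h1 : 1 / (((n + 1 + 1 : ℕ) : ℝ)) ^ 2 ≤ 1 / ((n : ℝ) + 1) - 1 / ((n : ℝ) + 2) := by
      have e : 1 / ((n : ℝ) + 1) - 1 / ((n : ℝ) + 2) = 1 / (((n : ℝ) + 1) * ((n : ℝ) + 2)) := by
        field_simp
        ring
      rw [e]
      apply one_div_le_one_div_of_le (by positivity)
      push_cast
      nlinarith
    have e2 : (((n + 1 : ℕ) : ℝ)) + 1 = (n : ℝ) + 2 := by push_cast; ring
    rw [e2]
    linarith

theorem sum_sq' (n : ℕ) : ∑ k ∈ Finset.Icc 1 n, 1 / (k : ℝ) ^ 2 ≤ 2 := by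
  rcases n with _ | n
  · simp
  · have h1 := sum_sq n
    have h2 : 0 ≤ 1 / ((n : ℝ) + 1) := by positivity
    linarith

theorem sum_sqrt (n : ℕ) : ∑ k ∈ Finset.Icc 1 n, (k : ℝ) ^ (-(1 / 2) : ℝ) ≤ 2 * Real.sqrt n := by
  induction n with
  | zero => simp
  | succ n ih =>
    rw [Finset.sum_Icc_succ_top (by omega)]
    have h0 : (0 : ℝ) < ((n + 1 : ℕ) : ℝ) := by positivity
    have e1 : (((n + 1 : ℕ) : ℝ)) ^ (-(1 / 2) : ℝ) = 1 / Real.sqrt ((n + 1 : ℕ) : ℝ) := by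
      rw [Real.rpow_neg h0.le, ← Real.sqrt_eq_rpow, one_div]
    rw [e1]
    have h1 : 0 < Real.sqrt ((n + 1 : ℕ) : ℝ) := Real.sqrt_pos.2 h0
    have h2 : Real.sqrt n ≤ Real.sqrt ((n + 1 : ℕ) : ℝ) := Real.sqrt_le_sqrt (by push_cast; linarith)
    have h3 : Real.sqrt ((n + 1 : ℕ) : ℝ) ^ 2 = n + 1 := by
      rw [Real.sq_sqrt h0.le]; push_cast; rfl
    have h4 : Real.sqrt (n : ℝ) ^ 2 = n := Real.sq_sqrt (Nat.cast_nonneg n)
    have h5 : 1 / Real.sqrt ((n + 1 : ℕ) : ℝ) ≤ 2 * (Real.sqrt ((n + 1 : ℕ) : ℝ) - Real.sqrt n) := by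
      rw [div_le_iff₀ h1]
      nlinarith [Real.sqrt_nonneg (n : ℝ), sq_nonneg (Real.sqrt ((n + 1 : ℕ) : ℝ) - Real.sqrt n)]
    linarith

/-- the harmonics against zeta -/
theorem zeta_bd (hH0 : S_H0) (hBLZ : S_BLZ) (j : ℕ) (hj : 1 ≤ j) : ∃ C : ℝ, 0 ≤ C ∧ ∀ᶠ T : ℝ in atTop,
    ∀ a b : ℝ, Adm T a b → ∀ x : ℝ, 0 < x →
      ‖∫ t in a..b, ((wt a b t : ℂ) * (zt t * ph t ^ j)) * cexp (I * (t * Real.log x : ℝ))‖ ≤
        C * (x ^ (5 / 2 : ℝ) + 1) := by
  obtain ⟨C, hC, hH⟩ := hH0 j hj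
  obtain ⟨ψ, C', -, -, -, hψ, hC', hev⟩ := hBLZ
  refine ⟨2 * C + C', by positivity, ?_⟩
  filter_upwards [hev, eventually_ge_atTop 10] with T hT hT10 a b hA x hx
  have hT0 : 0 < T := by linarith
  obtain ⟨hA1, hA2, hA3⟩ := hA
  have hab : a < b := by linarith
  set K : ℕ := ⌊T ^ (2 : ℝ)⌋₊ with hK
  set c : ℕ → ℂ := fun k => ((ψ (Real.log k / Real.log T) : ℝ) : ℂ) with hc
  have hcn : ∀ k, ‖c k‖ ≤ 1 := by
    intro k
    rw [hc]
    show ‖((ψ (Real.log k / Real.log T) : ℝ) : ℂ)‖ ≤ 1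
    rw [Complex.norm_real, Real.norm_of_nonneg (hψ _).1]
    exact (hψ _).2
  have hphc : Continuous fun t => ph t ^ j := ph_cont.pow j
  have hwc : Continuous fun t => (wt a b t : ℂ) := Complex.continuous_ofReal.comp (wt_cont a b)
  have hec : ∀ y : ℝ, Continuous fun t : ℝ => cexp (I * (t * y : ℝ)) := fun y => by fun_prop
  have hdc : Continuous fun t => dp K c t := by
    have : (fun t => dp K c t) = fun t : ℝ => ∑ h ∈ Finset.Icc 1 K, A c h * cexp (-(I * (t * Real.log h : ℝ))) :=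
      funext fun t => dp_eq K c t
    rw [this]
    fun_prop
  -- the error
  have herr : ∀ t ∈ Set.uIoc a b, ‖((wt a b t : ℂ) * ((zt t - dp K c t) * ph t ^ j)) * cexp (I * (t * Real.log x : ℝ))‖ ≤
      C' / T ^ 3 := by
    intro t ht
    rw [Set.uIoc_of_le hab.le] at ht
    have h1 := hT (1 / 2 + t * I) (by simp) (by simp; linarith [ht.1]) (by simp; linarith [ht.2])
    have h2 : zt t - dp K c t = riemannZeta (1 / 2 + t * I) - ∑ k ∈ Finset.Icc 1 ⌊T ^ (2 : ℝ)⌋₊,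
        ((ψ (Real.log k / Real.log T) : ℝ) : ℂ) * (k : ℂ) ^ (-(1 / 2 + t * I)) := rfl
    rw [norm_mul, norm_mul, norm_mul, norm_pow, ph_norm, one_pow, mul_one, h2]
    have h3 : ‖cexp (I * (t * Real.log x : ℝ))‖ = 1 := by
      rw [mul_comm, norm_exp_ofReal_mul_I]
    rw [h3, mul_one, Complex.norm_real, Real.norm_eq_abs]
    calc |wt a b t| * _ ≤ 1 * (C' / T ^ 3) := mul_le_mul (wt_le hab ht.1.le ht.2) h1 (norm_nonneg _) zero_le_one
      _ = C' / T ^ 3 := one_mul _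
  have h1 : ‖∫ t in a..b, ((wt a b t : ℂ) * ((zt t - dp K c t) * ph t ^ j)) * cexp (I * (t * Real.log x : ℝ))‖ ≤ C' := by
    refine (intervalIntegral.norm_integral_le_of_norm_le_const herr).trans ?_
    rw [abs_of_pos (by linarith)]
    have h2 : b - a ≤ 3 * T := by linarith
    have h3 : 1 ≤ T ^ 2 := one_le_pow₀ (by linarith)
    have h4 : (3 : ℝ) ≤ T ^ 2 := by nlinarith
    calc C' / T ^ 3 * (b - a) ≤ C' / T ^ 3 * (3 * T) := by gcongr
      _ = C' * (3 / T ^ 2) := by field_simp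
      _ ≤ C' * 1 := by
          refine mul_le_mul_of_nonneg_left ?_ hC'
          rw [div_le_one (by positivity)]
          exact h4
      _ = C' := mul_one _
  -- the main part
  have h2 : ‖∫ t in a..b, ((wt a b t : ℂ) * (dp K c t * ph t ^ j)) * cexp (I * (t * Real.log x : ℝ))‖ ≤
      2 * C * (x ^ (5 / 2 : ℝ) + 1) := by
    have e1 : ∀ t : ℝ, ((wt a b t : ℂ) * (dp K c t * ph t ^ j)) * cexp (I * (t * Real.log x : ℝ)) =
        ∑ k ∈ Finset.Icc 1 K, A c k * ((wt a b t : ℂ) * (ph t ^ j * cexp (I * (t * Real.log (x / k) : ℝ)))) := by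
      intro t
      rw [dp_eq, Finset.sum_mul, Finset.mul_sum, Finset.sum_mul]
      refine Finset.sum_congr rfl fun k hk => ?_
      have hk0 : (0 : ℝ) < k := by exact_mod_cast (Finset.mem_Icc.1 hk).1
      rw [Real.log_div hx.ne' hk0.ne']
      have e2 : cexp (I * ((t * (Real.log x - Real.log k) : ℝ) : ℂ)) =
          cexp (-(I * ((t * Real.log k : ℝ) : ℂ))) * cexp (I * ((t * Real.log x : ℝ) : ℂ)) := by
        rw [← Complex.exp_add]
        congr 1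
        push_cast
        ring
      rw [e2]
      ring
    simp_rw [e1]
    have hI : ∀ k ∈ Finset.Icc 1 K, IntervalIntegrable (fun t : ℝ => A c k * ((wt a b t : ℂ) *
        (ph t ^ j * cexp (I * (t * Real.log (x / k) : ℝ))))) MeasureTheory.volume a b := fun k _ =>
      (continuous_const.mul (hwc.mul (hphc.mul (hec _)))).intervalIntegrable _ _
    rw [intervalIntegral.integral_finsetSum hI]
    calc ‖∑ k ∈ Finset.Icc 1 K, ∫ t in a..b, A c k * ((wt a b t : ℂ) * (ph t ^ j * cexp (I * (t * Real.log (x / k) : ℝ))))‖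
        ≤ ∑ k ∈ Finset.Icc 1 K, (k : ℝ) ^ (-(1 / 2) : ℝ) * (C * ((x / k) ^ (5 / 2 : ℝ) + 1 / T)) := by
          refine (norm_sum_le _ _).trans (Finset.sum_le_sum fun k hk => ?_)
          have hk0 : (0 : ℝ) < k := by exact_mod_cast (Finset.mem_Icc.1 hk).1
          rw [intervalIntegral.integral_const_mul, norm_mul]
          have h3 : ‖A c k‖ ≤ (k : ℝ) ^ (-(1 / 2) : ℝ) := by
            unfold A
            rw [norm_mul]
            have h9 : ‖(((k : ℝ) ^ (-(1 / 2) : ℝ) : ℝ) : ℂ)‖ = (k : ℝ) ^ (-(1 / 2) : ℝ) := by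
              rw [Complex.norm_real, Real.norm_of_nonneg (Real.rpow_nonneg hk0.le _)]
            rw [h9]
            exact mul_le_of_le_one_left (Real.rpow_nonneg hk0.le _) (hcn k)
          exact mul_le_mul h3 (hH T a b (x / k) hT10 ⟨hA1, hA2, hA3⟩ (by positivity)) (norm_nonneg _)
            (Real.rpow_nonneg hk0.le _)
      _ ≤ ∑ k ∈ Finset.Icc 1 K, (C * x ^ (5 / 2 : ℝ) * (1 / (k : ℝ) ^ 2) + C / T * (k : ℝ) ^ (-(1 / 2) : ℝ)) := by
          refine Finset.sum_le_sum fun k hk => ?_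
          have hk1 : (1 : ℝ) ≤ k := by exact_mod_cast (Finset.mem_Icc.1 hk).1
          have hk0 : (0 : ℝ) < k := by linarith
          have h3 : (k : ℝ) ^ (-(1 / 2) : ℝ) * (x / k) ^ (5 / 2 : ℝ) ≤ x ^ (5 / 2 : ℝ) * (1 / (k : ℝ) ^ 2) := by
            rw [Real.div_rpow hx.le hk0.le, mul_div_assoc', mul_comm ((k : ℝ) ^ (-(1 / 2) : ℝ)), mul_div_assoc]
            refine mul_le_mul_of_nonneg_left ?_ (Real.rpow_nonneg hx.le _)
            have e9 : 1 / (k : ℝ) ^ 2 = (k : ℝ) ^ (-2 : ℝ) := by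
              rw [Real.rpow_neg hk0.le, Real.rpow_two, one_div]
            rw [← Real.rpow_sub hk0, e9]
            refine Real.rpow_le_rpow_of_exponent_le hk1 ?_
            norm_num
          have e3 : (k : ℝ) ^ (-(1 / 2) : ℝ) * (C * ((x / k) ^ (5 / 2 : ℝ) + 1 / T)) =
              C * ((k : ℝ) ^ (-(1 / 2) : ℝ) * (x / k) ^ (5 / 2 : ℝ)) + C / T * (k : ℝ) ^ (-(1 / 2) : ℝ) := by
            field_simp
          rw [e3]
          have h4 := mul_le_mul_of_nonneg_left h3 hC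
          linarith
      _ = C * x ^ (5 / 2 : ℝ) * ∑ k ∈ Finset.Icc 1 K, (1 / (k : ℝ) ^ 2) +
            C / T * ∑ k ∈ Finset.Icc 1 K, (k : ℝ) ^ (-(1 / 2) : ℝ) := by
          rw [Finset.sum_add_distrib, Finset.mul_sum, Finset.mul_sum]
      _ ≤ C * x ^ (5 / 2 : ℝ) * 2 + C / T * (2 * T) := by
          have h3 := sum_sq' K
          have h4 : ∑ k ∈ Finset.Icc 1 K, (k : ℝ) ^ (-(1 / 2) : ℝ) ≤ 2 * T := by
            refine (sum_sqrt K).trans ?_
            have h5 : (K : ℝ) ≤ T ^ 2 := by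
              have := Nat.floor_le (a := T ^ (2 : ℝ)) (by positivity)
              rw [← hK] at this
              rwa [Real.rpow_two] at this
            have h6 : Real.sqrt K ≤ T := Real.sqrt_le_iff.2 ⟨hT0.le, h5⟩
            linarith
          have h5 : 0 ≤ C * x ^ (5 / 2 : ℝ) := by positivity
          have h6 : 0 ≤ C / T := by positivity
          gcongr
      _ = 2 * C * (x ^ (5 / 2 : ℝ) + 1) := by field_simp
  have e : ∀ t : ℝ, ((wt a b t : ℂ) * (zt t * ph t ^ j)) * cexp (I * (t * Real.log x : ℝ)) =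
      ((wt a b t : ℂ) * (dp K c t * ph t ^ j)) * cexp (I * (t * Real.log x : ℝ)) +
      ((wt a b t : ℂ) * ((zt t - dp K c t) * ph t ^ j)) * cexp (I * (t * Real.log x : ℝ)) := fun t => by ring
  simp_rw [e]
  rw [intervalIntegral.integral_add]
  · refine (norm_add_le _ _).trans ((add_le_add h2 h1).trans ?_)
    have h3 : 0 ≤ C' * x ^ (5 / 2 : ℝ) := by positivity
    linarith
  · exact ((hwc.mul (hdc.mul hphc)).mul (hec _)).intervalIntegrable _ _
  · exact ((hwc.mul ((zt_cont.sub hdc).mul hphc)).mul (hec _)).intervalIntegrable _ _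

theorem log_ge {M h l : ℕ} (hh : 1 ≤ h) (hl : 1 ≤ l) (hhM : h ≤ M) (hlM : l ≤ M) (hne : h ≠ l) :
    1 / (M : ℝ) ≤ |Real.log l - Real.log h| := by
  have key : ∀ u v : ℕ, 1 ≤ u → v ≤ M → u < v → 1 / (M : ℝ) ≤ Real.log v - Real.log u := by
    intro u v hu hv huv
    have hu0 : (0 : ℝ) < u := by exact_mod_cast hu
    have hv0 : (0 : ℝ) < v := by exact_mod_cast (by omega : 0 < v)
    have h1 := Real.one_sub_inv_le_log_of_pos (show (0 : ℝ) < v / u by positivity)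
    rw [Real.log_div hv0.ne' hu0.ne', inv_div] at h1
    refine le_trans ?_ h1
    have h2 : (u : ℝ) + 1 ≤ v := by exact_mod_cast huv
    have h3 : (v : ℝ) ≤ M := by exact_mod_cast hv
    have h4 : 1 / (v : ℝ) ≤ 1 - u / v := by
      rw [le_sub_iff_add_le, ← add_div, div_le_one hv0]
      linarith
    exact (one_div_le_one_div_of_le hv0 h3).trans h4
  rcases lt_or_gt_of_ne hne with h1 | h1
  · exact (key h l hh hlM h1).trans (le_abs_self _)
  · rw [abs_sub_comm]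
    exact (key l h hl hhM h1).trans (le_abs_self _)

/-- the plain mean -/
theorem plain (hWE : S_WE) {T a b : ℝ} (hT : 10 ≤ T) (hA : Adm T a b) (M : ℕ) (c : ℕ → ℂ) :
    |(∫ t in a..b, wt a b t * ‖dp M c t‖ ^ 2) - 2 / 3 * (b - a) * N2 M c| ≤ 100 * M ^ 2 / T * (M * N2 M c) := by
  have hT0 : 0 < T := by linarith
  have hwc : Continuous fun t => (wt a b t : ℂ) := Complex.continuous_ofReal.comp (wt_cont a b)
  set J : ℕ → ℕ → ℂ := fun h l => (∫ t in a..b, (wt a b t : ℂ) * cexp (I * (t * (Real.log l - Real.log h) : ℝ))) -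
    (if h = l then ((2 / 3 * (b - a) : ℝ) : ℂ) else 0) with hJ
  have hJb : ∀ h ∈ Finset.Icc 1 M, ∀ l ∈ Finset.Icc 1 M, ‖J h l‖ ≤ 100 * M ^ 2 / T := by
    intro h hh l hl
    have hh' := Finset.mem_Icc.1 hh
    have hl' := Finset.mem_Icc.1 hl
    have hM0 : (0 : ℝ) < M := by exact_mod_cast (by omega : 0 < M)
    rw [hJ]
    show ‖_ - (if h = l then ((2 / 3 * (b - a) : ℝ) : ℂ) else 0)‖ ≤ _
    split_ifs with hhl
    · subst hhl
      have e1 : ∀ t : ℝ, (wt a b t : ℂ) * cexp (I * (t * (Real.log h - Real.log h) : ℝ)) = ((wt a b t : ℝ) : ℂ) := by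
        intro t
        rw [sub_self, mul_zero, Complex.ofReal_zero, mul_zero, Complex.exp_zero, mul_one]
      simp_rw [e1]
      rw [intervalIntegral.integral_ofReal, hWE.2 T a b hT hA, sub_self, norm_zero]
      positivity
    · rw [sub_zero]
      have h1 := log_ge hh'.1 hl'.1 hh'.2 hl'.2 hhl
      have h2 : Real.log l - Real.log h ≠ 0 := by
        intro h0
        rw [h0, abs_zero] at h1
        have : 0 < 1 / (M : ℝ) := by positivity
        linarith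
      refine (hWE.1 T a b (Real.log l - Real.log h) hT hA h2).trans ?_
      have h3 : (1 / (M : ℝ)) ^ 2 ≤ (Real.log l - Real.log h) ^ 2 := by
        rw [← sq_abs (Real.log l - Real.log h)]
        exact pow_le_pow_left₀ (by positivity) h1 2
      calc 100 / (T * (Real.log l - Real.log h) ^ 2) ≤ 100 / (T * (1 / (M : ℝ)) ^ 2) := by gcongr
        _ = 100 * M ^ 2 / T := by field_simp
  have h1 := dsum M c J (100 * M ^ 2 / T) (by positivity) hJb
  have e1 : ∑ h ∈ Finset.Icc 1 M, ∑ l ∈ Finset.Icc 1 M, A c h * (starRingEnd ℂ) (A c l) * J h l =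
      (((∫ t in a..b, wt a b t * ‖dp M c t‖ ^ 2) - 2 / 3 * (b - a) * N2 M c : ℝ) : ℂ) := by
    rw [Complex.ofReal_sub, ← intervalIntegral.integral_ofReal]
    have e2 : ∀ t : ℝ, ((wt a b t * ‖dp M c t‖ ^ 2 : ℝ) : ℂ) = (wt a b t : ℂ) * ((‖dp M c t‖ ^ 2 : ℝ) : ℂ) :=
      fun t => by push_cast; ring
    simp_rw [e2]
    rw [expand (fun t => (wt a b t : ℂ)) hwc M c a b, N2_eq]
    have e3 : ((2 / 3 * (b - a) * ∑ h ∈ Finset.Icc 1 M, ‖A c h‖ ^ 2 : ℝ) : ℂ) =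
        ∑ h ∈ Finset.Icc 1 M, ∑ l ∈ Finset.Icc 1 M, A c h * (starRingEnd ℂ) (A c l) *
          (if h = l then ((2 / 3 * (b - a) : ℝ) : ℂ) else 0) := by
      have e4 : ∀ h ∈ Finset.Icc 1 M, ∑ l ∈ Finset.Icc 1 M, A c h * (starRingEnd ℂ) (A c l) *
          (if h = l then ((2 / 3 * (b - a) : ℝ) : ℂ) else 0) = ((2 / 3 * (b - a) : ℝ) : ℂ) * (‖A c h‖ : ℂ) ^ 2 := by
        intro h hh
        rw [Finset.sum_eq_single h]
        · rw [if_pos rfl, Complex.mul_conj']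
          ring
        · intro l _ hne
          rw [if_neg hne.symm, mul_zero]
        · intro h0
          exact absurd hh h0
      rw [Finset.sum_congr rfl e4, ← Finset.mul_sum]
      push_cast
      rfl
    rw [e3, ← Finset.sum_sub_distrib]
    refine Finset.sum_congr rfl fun h _ => ?_
    rw [← Finset.sum_sub_distrib]
    refine Finset.sum_congr rfl fun l _ => ?_
    rw [hJ]
    ring
  rw [e1, Complex.norm_real, Real.norm_eq_abs] at h1
  exact h1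

/-- H1 -/
theorem t_H1 : J_H1 := by
  intro hH0 hWE hBLZ j hj
  obtain ⟨C, hC, hH⟩ := hH0 j hj
  obtain ⟨C₂, hC₂, hZ⟩ := zeta_bd hH0 hBLZ j hj
  have hlim : Tendsto (fun T : ℝ => T ^ (21 / 100 : ℝ)) atTop atTop := tendsto_rpow_atTop (by norm_num)
  filter_upwards [hZ, eventually_ge_atTop 10, hlim.eventually_ge_atTop (2 * C + 2 * C₂ + 100)] with
    T hZT hT10 hTl a b hA M hM c
  have hT0 : 0 < T := by linarith
  have hN := N2_nonneg M c
  have hA' := hA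
  obtain ⟨hA1, hA2, hA3⟩ := hA'
  rcases Nat.eq_zero_or_pos M with h0 | hM1
  · subst h0
    have e1 : ∀ t, dp 0 c t = 0 := fun t => by unfold dp; simp
    have e2 : N2 0 c = 0 := by unfold N2; simp
    simp [e1, e2]
  have hMr : (1 : ℝ) ≤ M := by exact_mod_cast hM1
  have hM0 : (0 : ℝ) < M := by linarith
  -- the power of `T`
  have hM4 : (M : ℝ) ^ 4 ≤ T ^ (1 / 25 : ℝ) := by
    calc (M : ℝ) ^ 4 ≤ (T ^ (1 / 100 : ℝ)) ^ 4 := pow_le_pow_left₀ hM0.le hM 4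
      _ = T ^ (1 / 25 : ℝ) := by
          rw [← Real.rpow_natCast, ← Real.rpow_mul hT0.le]
          norm_num
  have hfin : ∀ B : ℝ, 0 ≤ B → B ≤ 2 * C + 2 * C₂ + 100 → B * (M : ℝ) ^ 4 * N2 M c ≤ T ^ (1 / 4 : ℝ) * N2 M c := by
    intro B hB0 hB
    refine mul_le_mul_of_nonneg_right ?_ hN
    calc B * (M : ℝ) ^ 4 ≤ T ^ (21 / 100 : ℝ) * T ^ (1 / 25 : ℝ) :=
          mul_le_mul (hB.trans hTl) hM4 (by positivity) (by positivity)
      _ = T ^ (1 / 4 : ℝ) := by rw [← Real.rpow_add hT0]; norm_num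
  have hx : ∀ h ∈ Finset.Icc 1 M, ∀ l ∈ Finset.Icc 1 M, (0 : ℝ) < (l : ℝ) / h ∧
      ((l : ℝ) / h) ^ (5 / 2 : ℝ) ≤ (M : ℝ) ^ 3 ∧ Real.log l - Real.log h = Real.log ((l : ℝ) / h) := by
    intro h hh l hl
    have hh' := Finset.mem_Icc.1 hh
    have hl' := Finset.mem_Icc.1 hl
    have hh1 : (1 : ℝ) ≤ h := by exact_mod_cast hh'.1
    have hl1 : (1 : ℝ) ≤ l := by exact_mod_cast hl'.1
    have hlM : (l : ℝ) ≤ M := by exact_mod_cast hl'.2
    have h1 : (l : ℝ) / h ≤ M := (div_le_self (by linarith) hh1).trans hlM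
    refine ⟨by positivity, ?_, (Real.log_div (by linarith) (by linarith)).symm⟩
    calc ((l : ℝ) / h) ^ (5 / 2 : ℝ) ≤ (M : ℝ) ^ (5 / 2 : ℝ) := Real.rpow_le_rpow (by positivity) h1 (by norm_num)
      _ ≤ (M : ℝ) ^ (3 : ℝ) := Real.rpow_le_rpow_of_exponent_le hMr (by norm_num)
      _ = (M : ℝ) ^ 3 := by rw [← Real.rpow_natCast]; norm_num
  have hM3 : (1 : ℝ) ≤ (M : ℝ) ^ 3 := one_le_pow₀ hMr
  have hphc : Continuous fun t => ph t ^ j := ph_cont.pow j
  have hwc : Continuous fun t => (wt a b t : ℂ) := Complex.continuous_ofReal.comp (wt_cont a b)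
  refine ⟨?_, ?_, ?_⟩
  · have e1 : ∀ t : ℝ, (wt a b t : ℂ) * (ph t ^ j * ((‖dp M c t‖ ^ 2 : ℝ) : ℂ)) =
        ((wt a b t : ℂ) * ph t ^ j) * ((‖dp M c t‖ ^ 2 : ℝ) : ℂ) := fun t => by ring
    simp_rw [e1]
    rw [expand (fun t => (wt a b t : ℂ) * ph t ^ j) (hwc.mul hphc) M c a b]
    refine (dsum M c _ (2 * C * (M : ℝ) ^ 3) (by positivity) fun h hh l hl => ?_).trans ?_
    · obtain ⟨h1, h2, h3⟩ := hx h hh l hl
      have h4 := hH T a b ((l : ℝ) / h) hT10 hA h1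
      have e2 : ∀ t : ℝ, ((wt a b t : ℂ) * ph t ^ j) * cexp (I * (t * (Real.log l - Real.log h) : ℝ)) =
          (wt a b t : ℂ) * (ph t ^ j * cexp (I * (t * Real.log ((l : ℝ) / h) : ℝ))) := fun t => by
        rw [h3]; ring
      simp_rw [e2]
      refine h4.trans ?_
      have h5 : 1 / T ≤ 1 := by rw [div_le_one hT0]; linarith
      have h6 : ((l : ℝ) / h) ^ (5 / 2 : ℝ) + 1 / T ≤ 2 * (M : ℝ) ^ 3 := by linarith
      calc C * (((l : ℝ) / h) ^ (5 / 2 : ℝ) + 1 / T) ≤ C * (2 * (M : ℝ) ^ 3) := mul_le_mul_of_nonneg_left h6 hC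
        _ = 2 * C * (M : ℝ) ^ 3 := by ring
    · have h5 := hfin (2 * C) (by positivity) (by linarith)
      calc 2 * C * (M : ℝ) ^ 3 * (M * N2 M c) = 2 * C * (M : ℝ) ^ 4 * N2 M c := by ring
        _ ≤ _ := h5
  · have e1 : ∀ t : ℝ, (wt a b t : ℂ) * (zt t * ph t ^ j * ((‖dp M c t‖ ^ 2 : ℝ) : ℂ)) =
        ((wt a b t : ℂ) * (zt t * ph t ^ j)) * ((‖dp M c t‖ ^ 2 : ℝ) : ℂ) := fun t => by ring
    simp_rw [e1]
    rw [expand (fun t => (wt a b t : ℂ) * (zt t * ph t ^ j)) (hwc.mul (zt_cont.mul hphc)) M c a b]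
    refine (dsum M c _ (2 * C₂ * (M : ℝ) ^ 3) (by positivity) fun h hh l hl => ?_).trans ?_
    · obtain ⟨h1, h2, h3⟩ := hx h hh l hl
      have h4 := hZT a b hA ((l : ℝ) / h) h1
      rw [← h3] at h4
      refine h4.trans ?_
      have h6 : ((l : ℝ) / h) ^ (5 / 2 : ℝ) + 1 ≤ 2 * (M : ℝ) ^ 3 := by linarith
      calc C₂ * (((l : ℝ) / h) ^ (5 / 2 : ℝ) + 1) ≤ C₂ * (2 * (M : ℝ) ^ 3) := mul_le_mul_of_nonneg_left h6 hC₂
        _ = 2 * C₂ * (M : ℝ) ^ 3 := by ring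
    · have h5 := hfin (2 * C₂) (by positivity) (by linarith)
      calc 2 * C₂ * (M : ℝ) ^ 3 * (M * N2 M c) = 2 * C₂ * (M : ℝ) ^ 4 * N2 M c := by ring
        _ ≤ _ := h5
  · refine (plain hWE hT10 hA M c).trans ?_
    have h5 := hfin 100 (by norm_num) (by linarith)
    refine le_trans ?_ h5
    have h6 : (M : ℝ) ^ 3 / T ≤ (M : ℝ) ^ 4 := by
      calc (M : ℝ) ^ 3 / T ≤ (M : ℝ) ^ 3 := div_le_self (by positivity) (by linarith)
        _ ≤ (M : ℝ) ^ 4 := pow_le_pow_right₀ hMr (by norm_num)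
    calc 100 * (M : ℝ) ^ 2 / T * (M * N2 M c) = 100 * ((M : ℝ) ^ 3 / T) * N2 M c := by ring
      _ ≤ 100 * (M : ℝ) ^ 4 * N2 M c := by gcongr

end Pool.Agent.Run7.h74.DW.H1
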