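import Pool.Agent.Run7.h74.DW.Iface
import Pool.Agent.Q176.UM.TOR
import Pool.Agent.Q195.UM.PT1
import Pool.Agent.Q14.UM.EK

set_option autoImplicit false

/-!
Project DW (helper74), piece M1 (by helper600): the mean value.
-/

namespace Pool.Agent.Run7.h74.DW.M1

open Filter Topology MeasureTheory Complex
open Pool.Agent.Q97.UM
open Pool.Agent.Q176.UM

noncomputable section

/-! ### the blocks -/

theorem zf_sum (D : ℝ) (hD : 0 ≤ D) (a a2 : ℕ → ℂ) (l : ℕ) (t : ℝ) : zf D a a2 l t =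
    ∑ p ∈ PB D l, (a p * (p : ℂ) ^ (-(1 / 2 + t * I)) + a2 p / 2 * (p : ℂ) ^ (-(1 + 2 * t * I))) :=
  Pool.Agent.Q14.UM.dp_qb D a a2 hD l t

theorem zf_shift (D : ℝ) (hD : 0 ≤ D) (α : ℝ) (l : ℕ) (t : ℝ) (c : ℂ) :
    zf D (fun _ => c) (fun _ => c) l (t + α) = c * zf D (ua α) (ua (2 * α)) l t := by
  rw [zf_sum D hD, zf_sum D hD, Finset.mul_sum]
  refine Finset.sum_congr rfl fun p hp => ?_
  have hp0 : (p : ℂ) ≠ 0 := by exact_mod_cast (Pool.Agent.Q14.UM.mem_PB hp).1.ne_zero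
  have e1 : (p : ℂ) ^ (-(1 / 2 + ((t + α : ℝ) : ℂ) * I)) =
      ua α p * (p : ℂ) ^ (-(1 / 2 + (t : ℂ) * I)) := by
    unfold ua
    rw [← Complex.cpow_add _ _ hp0]
    congr 1
    push_cast
    ring
  have e2 : (p : ℂ) ^ (-(1 + 2 * ((t + α : ℝ) : ℂ) * I)) =
      ua (2 * α) p * (p : ℂ) ^ (-(1 + 2 * (t : ℂ) * I)) := by
    unfold ua
    rw [← Complex.cpow_add _ _ hp0]
    congr 1
    push_cast
    ring
  rw [e1, e2]
  ring

theorem ua_le (α : ℝ) (n : ℕ) : ‖ua α n‖ ≤ 1 := by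
  unfold ua
  rcases Nat.eq_zero_or_pos n with rfl | hn
  · rcases eq_or_ne (-((α : ℂ) * I)) 0 with h | h
    · rw [h]
      simp
    · rw [Nat.cast_zero, Complex.zero_cpow h]
      simp
  · rw [Complex.norm_natCast_cpow_of_pos hn]
    simp

theorem Yf_eq (D κ : ℝ) (hD : 0 ≤ D) (α t : ℝ) : Yf D κ (t + α) =
    ∏ l ∈ Finset.Ico 4 (JB D), TEx (R9 κ l) (-1 / 2 * zf D (ua α) (ua (2 * α)) l t) := by
  unfold Yf Ef
  refine Finset.prod_congr rfl fun l _ => ?_
  rw [zf_shift D hD]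

/-! ### the function `V` -/

theorem Vf_eq (D s : ℝ) (hD : 0 ≤ D) :
    Vf D s = 1 + ∑ p ∈ PT D, (-1 / 2 : ℂ) * (p : ℂ) ^ (-(1 / 2 + (s : ℂ) * I)) := by
  classical
  unfold Vf dp
  have h1 : ∀ n ∈ Finset.Icc 1 ⌊Real.exp D⌋₊, vP (PT D) n * (n : ℂ) ^ (-(1 / 2 + (s : ℂ) * I)) =
      (if n = 1 then (1 : ℂ) else 0) +
        (if n ∈ PT D then (-1 / 2 : ℂ) * (n : ℂ) ^ (-(1 / 2 + (s : ℂ) * I)) else 0) := by
    intro n _
    unfold vP
    by_cases h : n = 1
    · subst h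
      have h2 : (1 : ℕ) ∉ PT D := by
        unfold PT
        simp [Nat.not_prime_one]
      simp [h2]
    · by_cases h' : n ∈ PT D <;> simp [h, h']
  rw [Finset.sum_congr rfl h1, Finset.sum_add_distrib]
  congr 1
  · rw [Finset.sum_ite_eq' (Finset.Icc 1 ⌊Real.exp D⌋₊) 1 (fun _ => (1 : ℂ)), if_pos]
    rw [Finset.mem_Icc]
    refine ⟨le_rfl, ?_⟩
    rw [Nat.le_floor_iff (Real.exp_pos _).le]
    simpa using Real.one_le_exp hD
  · rw [← Finset.sum_filter]
    refine Finset.sum_congr ?_ fun _ _ => rfl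
    ext p
    rw [Finset.mem_filter]
    constructor
    · exact fun h => h.2
    · intro h
      refine ⟨?_, h⟩
      unfold PT at h
      exact (Finset.mem_filter.1 h).1

theorem XB_zero (D : ℝ) : XB D 0 = Real.exp D := by
  unfold XB
  simp

theorem PT_sum (D : ℝ) (hD : 0 ≤ D) (f : ℕ → ℂ) :
    ∑ p ∈ PT D, f p = ∑ l ∈ Finset.range 4, ∑ p ∈ PB D l, f p := by
  classical
  have hfl : ∀ (l p : ℕ), (p : ℝ) ≤ XB D l → p ≤ ⌊XB D l⌋₊ := fun l p h =>
    (Nat.le_floor_iff (Pool.Agent.Q14.UM.XB_pos D l).le).2 h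
  have h : PT D = (Finset.range 4).biUnion (fun l => PB D l) := by
    ext p
    rw [Finset.mem_biUnion]
    constructor
    · intro hp
      unfold PT at hp
      rw [Finset.mem_filter, Finset.mem_Icc] at hp
      obtain ⟨⟨hp1, hpD⟩, hpp, hp4⟩ := hp
      have hpD' : (p : ℝ) ≤ XB D 0 := by
        rw [XB_zero]
        exact (Nat.le_floor_iff (Real.exp_pos _).le).1 hpD
      have key : ∀ l, (p : ℝ) ≤ XB D l → XB D (l + 1) < p → p ∈ PB D l := by
        intro l h1 h2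
        unfold PB
        rw [Finset.mem_filter, Finset.mem_Icc]
        exact ⟨⟨hp1, hfl l p h1⟩, hpp, h2⟩
      by_cases h1 : XB D 1 < p
      · exact ⟨0, by simp, key 0 hpD' h1⟩
      · by_cases h2 : XB D 2 < p
        · exact ⟨1, by simp, key 1 (not_lt.1 h1) h2⟩
        · by_cases h3 : XB D 3 < p
          · exact ⟨2, by simp, key 2 (not_lt.1 h2) h3⟩
          · exact ⟨3, by simp, key 3 (not_lt.1 h3) hp4⟩
    · rintro ⟨l, hl, hp⟩
      rw [Finset.mem_range] at hl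
      have h1 := Pool.Agent.Q14.UM.mem_PB hp
      have h2 : XB D l ≤ XB D 0 := Pool.Agent.Q14.UM.XB_anti D hD (Nat.zero_le l)
      have h3 : XB D 4 ≤ XB D (l + 1) := Pool.Agent.Q14.UM.XB_anti D hD (by omega)
      unfold PT
      rw [Finset.mem_filter, Finset.mem_Icc]
      refine ⟨⟨h1.1.one_le, ?_⟩, h1.1, h3.trans_lt h1.2.1⟩
      rw [Nat.le_floor_iff (Real.exp_pos _).le, ← XB_zero]
      exact h1.2.2.trans h2
  rw [h, Finset.sum_biUnion]
  intro i _ j _ hij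
  rw [Function.onFun, Finset.disjoint_left]
  intro p hp hp'
  exact hij (Pool.Agent.Q14.UM.PB_disj D hD hp hp')

theorem blk_norm {CB D : ℝ} (hD : 0 ≤ D) (l : ℕ) (hB : ∑ p ∈ PB D l, (1 : ℝ) / p ≤ CB) (α t : ℝ) :
    ‖∑ p ∈ PB D l, (p : ℂ) ^ (-(1 / 2 + ((t + α : ℝ) : ℂ) * I))‖ ≤
      ‖zf D (ua α) (ua (2 * α)) l t‖ + CB / 2 := by
  have h1 := zf_shift D hD α l t 1
  rw [one_mul, zf_sum D hD, Finset.sum_add_distrib] at h1
  simp only [one_mul] at h1
  have h2 : ∑ p ∈ PB D l, (p : ℂ) ^ (-(1 / 2 + ((t + α : ℝ) : ℂ) * I)) =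
      zf D (ua α) (ua (2 * α)) l t -
        ∑ p ∈ PB D l, (1 : ℂ) / 2 * (p : ℂ) ^ (-(1 + 2 * ((t + α : ℝ) : ℂ) * I)) := by
    rw [← h1]
    ring
  rw [h2]
  refine (norm_sub_le _ _).trans ?_
  have h3 : ‖∑ p ∈ PB D l, (1 : ℂ) / 2 * (p : ℂ) ^ (-(1 + 2 * ((t + α : ℝ) : ℂ) * I))‖ ≤ CB / 2 := by
    refine (norm_sum_le _ _).trans ?_
    have h4 : ∀ p ∈ PB D l, ‖(1 : ℂ) / 2 * (p : ℂ) ^ (-(1 + 2 * ((t + α : ℝ) : ℂ) * I))‖ =
        (1 : ℝ) / p / 2 := by
      intro p hp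
      have hp0 := (Pool.Agent.Q14.UM.mem_PB hp).1.pos
      rw [norm_mul, Complex.norm_natCast_cpow_of_pos hp0]
      have e : (-(1 + 2 * ((t + α : ℝ) : ℂ) * I)).re = -1 := by
        simp
      rw [e, Real.rpow_neg_one]
      norm_num
      ring
    rw [Finset.sum_congr rfl h4, ← Finset.sum_div]
    linarith
  linarith

theorem Vf_le {CB D : ℝ} (hCB : 1 ≤ CB) (hD : 0 ≤ D) (hB : ∀ l, ∑ p ∈ PB D l, (1 : ℝ) / p ≤ CB)
    (α t : ℝ) : 1 + ‖Vf D (t + α)‖ ^ 4 ≤ (1 + (1 + CB) ^ 4) *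
      Real.exp (2 * ∑ l ∈ Finset.range 4, ‖zf D (ua α) (ua (2 * α)) l t‖) := by
  obtain ⟨S, hS⟩ : ∃ S : ℝ, S = ∑ l ∈ Finset.range 4, ‖zf D (ua α) (ua (2 * α)) l t‖ := ⟨_, rfl⟩
  have hS0 : 0 ≤ S := by
    rw [hS]
    positivity
  have h1 : ‖Vf D (t + α)‖ ≤ 1 + CB + S / 2 := by
    rw [Vf_eq D (t + α) hD, ← Finset.mul_sum, PT_sum D hD]
    refine (norm_add_le _ _).trans ?_
    rw [norm_one, norm_mul]
    have h2 : ‖∑ l ∈ Finset.range 4, ∑ p ∈ PB D l, (p : ℂ) ^ (-(1 / 2 + ((t + α : ℝ) : ℂ) * I))‖ ≤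
        S + 2 * CB := by
      refine (norm_sum_le _ _).trans ?_
      refine (Finset.sum_le_sum fun l _ => blk_norm hD l (hB l) α t).trans ?_
      rw [Finset.sum_add_distrib, ← hS]
      simp only [Finset.sum_const, Finset.card_range, nsmul_eq_mul]
      push_cast
      linarith
    have h3 : ‖(-1 / 2 : ℂ)‖ = 1 / 2 := by norm_num
    rw [h3]
    linarith
  rw [← hS]
  have h4 : 1 + CB + S / 2 ≤ (1 + CB) * Real.exp (S / 2) := by
    have h5 := Real.add_one_le_exp (S / 2)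
    nlinarith
  have h5 : ‖Vf D (t + α)‖ ^ 4 ≤ (1 + CB) ^ 4 * Real.exp (2 * S) := by
    have h6 := pow_le_pow_left₀ (norm_nonneg _) (h1.trans h4) 4
    rw [mul_pow, ← Real.exp_nat_mul] at h6
    have e : ((4 : ℕ) : ℝ) * (S / 2) = 2 * S := by
      push_cast
      ring
    rwa [e] at h6
  have h6 : 1 ≤ Real.exp (2 * S) := Real.one_le_exp (by linarith)
  linarith

/-! ### the pointwise inequality -/

theorem R9_one {κ : ℝ} (hκ : 4 ≤ κ) (l : ℕ) : 1 ≤ R9 κ l := by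
  have h1 := R9_ge κ l
  have h2 : 0 < κ * Real.exp (9 / 10 * (l : ℝ)) := by positivity
  have h3 : (0 : ℝ) < R9 κ l := h2.trans_le h1
  exact_mod_cast h3

theorem blk_any (hT : S_TEX) {κ : ℝ} (hκ : 4 ≤ κ) (l : ℕ) (z : ℂ) :
    ‖TEx (R9 κ l) (-1 / 2 * z)‖ ^ 2 ≤ Real.exp ‖z‖ := by
  have h1 := (hT (R9 κ l) (-1 / 2 * z) (R9_one hκ l)).1
  have h2 : ‖(-1 / 2 : ℂ) * z‖ = ‖z‖ / 2 := by
    rw [norm_mul]
    norm_num
    ring
  rw [h2] at h1
  have h3 := pow_le_pow_left₀ (norm_nonneg _) h1 2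
  rw [← Real.exp_nat_mul] at h3
  refine h3.trans (Real.exp_le_exp.2 ?_)
  push_cast
  linarith

theorem blk_good (hT : S_TEX) {κ : ℝ} (hκ : 4 ≤ κ) (l : ℕ) (z : ℂ) (hz : ‖z‖ ≤ (R9 κ l : ℝ) / 20) :
    ‖cexp z‖ * ‖TEx (R9 κ l) (-1 / 2 * z)‖ ^ 2 ≤ Real.exp (3 * (1 / 4 * (1 / 2) ^ l)) * 1 := by
  have hn : ‖(-1 / 2 : ℂ) * z‖ = ‖z‖ / 2 := by
    rw [norm_mul]
    norm_num
    ring
  have h2 := (hT (R9 κ l) (-1 / 2 * z) (R9_one hκ l)).2 (by
    rw [hn]
    have := norm_nonneg z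
    linarith)
  obtain ⟨x, hx⟩ : ∃ x : ℝ, x = Real.exp (-(R9 κ l : ℝ) / 2) := ⟨_, rfl⟩
  rw [← hx] at h2
  have hx0 : 0 < x := by
    rw [hx]
    exact Real.exp_pos _
  have hx1 : x ≤ 1 / 4 * (1 / 2) ^ l := by
    rw [hx]
    exact Pool.Agent.Q195.UM.x_le hκ l
  have e1 : ‖TEx (R9 κ l) (-1 / 2 * z)‖ ≤ (1 + x) * ‖cexp (-1 / 2 * z)‖ := by
    have h4 := norm_sub_norm_le (TEx (R9 κ l) (-1 / 2 * z)) (cexp (-1 / 2 * z))
    linarith
  have e3 : ‖cexp z‖ * ‖cexp (-1 / 2 * z)‖ ^ 2 = 1 := by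
    rw [← norm_pow, ← norm_mul, ← Complex.exp_nat_mul, ← Complex.exp_add]
    have h5 : z + ((2 : ℕ) : ℂ) * (-1 / 2 * z) = 0 := by
      push_cast
      ring
    rw [h5]
    simp
  have e4 : ‖cexp z‖ * ‖TEx (R9 κ l) (-1 / 2 * z)‖ ^ 2 ≤ (1 + x) ^ 2 := by
    calc ‖cexp z‖ * ‖TEx (R9 κ l) (-1 / 2 * z)‖ ^ 2 ≤
          ‖cexp z‖ * ((1 + x) * ‖cexp (-1 / 2 * z)‖) ^ 2 :=
          mul_le_mul_of_nonneg_left (pow_le_pow_left₀ (norm_nonneg _) e1 2) (norm_nonneg _)
      _ = (1 + x) ^ 2 * (‖cexp z‖ * ‖cexp (-1 / 2 * z)‖ ^ 2) := by ring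
      _ = _ := by rw [e3, mul_one]
  have e5 : (1 + x) ^ 2 ≤ Real.exp (2 * x) := by
    have h5 := Real.add_one_le_exp x
    have h6 := pow_le_pow_left₀ (by linarith : (0 : ℝ) ≤ 1 + x)
      (show 1 + x ≤ Real.exp x by linarith) 2
    rw [← Real.exp_nat_mul] at h6
    push_cast at h6
    exact h6
  rw [mul_one]
  refine e4.trans (e5.trans (Real.exp_le_exp.2 ?_))
  have h7 : (0 : ℝ) ≤ 1 / 4 * (1 / 2) ^ l := by positivity
  linarith

theorem pointwise (hT : S_TEX) {κ : ℝ} (hκ : 4 ≤ κ) (J : ℕ) (z : ℕ → ℂ) :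
    ‖cexp (∑ l ∈ Finset.range J, z l)‖ ^ 2 *
        ‖∏ l ∈ Finset.Ico 4 J, TEx (R9 κ l) (-1 / 2 * z l)‖ ^ 4 ≤
      Real.exp 3 * (Real.exp (4 * ∑ l ∈ Finset.range 4, ‖z l‖) +
        ∑ j ∈ Finset.Ico 4 J, Real.exp (4 * ∑ l ∈ Finset.range (j + 1), ‖z l‖) *
          (20 * ‖z j‖ / R9 κ j) ^ (2 * s7 j)) := by
  classical
  have hR : ∀ l, (0 : ℝ) < R9 κ l := fun l => by
    have := R9_one hκ l
    exact_mod_cast this
  obtain ⟨a, ha⟩ : ∃ a : ℕ → ℝ, a = fun l => ‖cexp (z l)‖ * ‖TEx (R9 κ l) (-1 / 2 * z l)‖ ^ 2 :=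
    ⟨_, rfl⟩
  have ha0 : ∀ l, 0 ≤ a l := fun l => by
    rw [ha]
    positivity
  have ha1 : ∀ l, a l ≤ Real.exp (2 * ‖z l‖) := fun l => by
    rw [ha]
    calc ‖cexp (z l)‖ * ‖TEx (R9 κ l) (-1 / 2 * z l)‖ ^ 2 ≤ Real.exp ‖z l‖ * Real.exp ‖z l‖ :=
          mul_le_mul (Complex.norm_exp_le_exp_norm _) (blk_any hT hκ l (z l)) (by positivity)
            (Real.exp_pos _).le
      _ = _ := by
          rw [← Real.exp_add]
          congr 1
          ring
  have hgood : ∀ l, ‖z l‖ ≤ (R9 κ l : ℝ) / 20 → a l ≤ Real.exp (3 * (1 / 4 * (1 / 2) ^ l)) * 1 :=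
    fun l hl => by
      rw [ha]
      exact blk_good hT hκ l (z l) hl
  have hE : ∀ n, ∏ l ∈ Finset.range n, ‖cexp (z l)‖ ≤ Real.exp (∑ l ∈ Finset.range n, ‖z l‖) := by
    intro n
    rw [Real.exp_sum]
    exact Finset.prod_le_prod (fun l _ => norm_nonneg _)
      fun l _ => Complex.norm_exp_le_exp_norm _
  have hE0 : ∀ n, 0 ≤ ∏ l ∈ Finset.range n, ‖cexp (z l)‖ :=
    fun n => Finset.prod_nonneg fun l _ => norm_nonneg _
  have hS0 : ∀ n, 0 ≤ ∑ l ∈ Finset.range n, ‖z l‖ :=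
    fun n => Finset.sum_nonneg fun l _ => norm_nonneg _
  have hterm : ∀ j, 0 ≤ Real.exp (4 * ∑ l ∈ Finset.range (j + 1), ‖z l‖) *
      (20 * ‖z j‖ / R9 κ j) ^ (2 * s7 j) := fun j => by positivity
  rcases lt_or_ge J 4 with hJ | hJ
  · have e1 : Finset.Ico 4 J = ∅ := Finset.Ico_eq_empty (by omega)
    rw [e1]
    simp only [Finset.prod_empty, norm_one, one_pow, mul_one, Finset.sum_empty, add_zero]
    rw [Complex.exp_sum, norm_prod]
    have h2 := pow_le_pow_left₀ (hE0 J) (hE J) 2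
    rw [← Real.exp_nat_mul] at h2
    refine h2.trans ?_
    have h3 : ∑ l ∈ Finset.range J, ‖z l‖ ≤ ∑ l ∈ Finset.range 4, ‖z l‖ :=
      Finset.sum_le_sum_of_subset_of_nonneg (Finset.range_subset_range.2 hJ.le)
        fun l _ _ => norm_nonneg _
    have h4 := hS0 J
    refine le_trans (Real.exp_le_exp.2 ?_)
      (le_mul_of_one_le_left (Real.exp_pos _).le (Real.one_le_exp (by norm_num)))
    push_cast
    linarith
  · have hL : ‖cexp (∑ l ∈ Finset.range J, z l)‖ ^ 2 *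
        ‖∏ l ∈ Finset.Ico 4 J, TEx (R9 κ l) (-1 / 2 * z l)‖ ^ 4 =
        ((∏ l ∈ Finset.range 4, ‖cexp (z l)‖) * ∏ l ∈ Finset.Ico 4 J, a l) ^ 2 := by
      rw [Complex.exp_sum, norm_prod, norm_prod, ← Finset.prod_range_mul_prod_Ico _ hJ, ha,
        Finset.prod_mul_distrib, Finset.prod_pow]
      ring
    rw [hL]
    have hsum0 : 0 ≤ ∑ j ∈ Finset.Ico 4 J, Real.exp (4 * ∑ l ∈ Finset.range (j + 1), ‖z l‖) *
        (20 * ‖z j‖ / R9 κ j) ^ (2 * s7 j) := Finset.sum_nonneg fun j _ => hterm j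
    by_cases hall : ∀ l ∈ Finset.Ico 4 J, ‖z l‖ ≤ (R9 κ l : ℝ) / 20
    · have h1 := Pool.Agent.Q195.UM.prod_good a (fun _ => 1) ha0 (fun _ => zero_le_one)
        (Finset.Ico 4 J) J (by
          intro l hl
          rw [Finset.mem_Ico] at hl
          exact Finset.mem_range.2 hl.2) (fun l hl => hgood l (hall l hl))
      simp only [Finset.prod_const_one, one_pow, mul_one] at h1
      have h2 : (∏ l ∈ Finset.range 4, ‖cexp (z l)‖) ^ 2 ≤
          Real.exp (4 * ∑ l ∈ Finset.range 4, ‖z l‖) := by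
        have h3 := pow_le_pow_left₀ (hE0 4) (hE 4) 2
        rw [← Real.exp_nat_mul] at h3
        refine h3.trans (Real.exp_le_exp.2 ?_)
        have := hS0 4
        push_cast
        linarith
      rw [mul_pow]
      have h3 : (∏ l ∈ Finset.range 4, ‖cexp (z l)‖) ^ 2 * (∏ l ∈ Finset.Ico 4 J, a l) ^ 2 ≤
          Real.exp (4 * ∑ l ∈ Finset.range 4, ‖z l‖) * Real.exp 3 :=
        mul_le_mul h2 h1 (by positivity) (Real.exp_pos _).le
      refine h3.trans ?_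
      have h5 := mul_nonneg (Real.exp_pos 3).le hsum0
      rw [mul_add]
      linarith
    · push Not at hall
      obtain ⟨l₀, hl₀, hi₁⟩ := hall
      have hne : ((Finset.Ico 4 J).filter fun l => (R9 κ l : ℝ) / 20 < ‖z l‖).Nonempty :=
        ⟨l₀, by rw [Finset.mem_filter]; exact ⟨hl₀, hi₁⟩⟩
      obtain ⟨j, hj, hmax⟩ := Finset.exists_max_image _ id hne
      rw [Finset.mem_filter] at hj
      obtain ⟨hjm, hi⟩ := hj
      have hjm' := hjm
      rw [Finset.mem_Ico] at hjm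
      have hg : ∀ l ∈ Finset.Ico (j + 1) J, ‖z l‖ ≤ (R9 κ l : ℝ) / 20 := by
        intro l hl
        rw [Finset.mem_Ico] at hl
        by_contra hcon
        push Not at hcon
        have := hmax l (by
          rw [Finset.mem_filter, Finset.mem_Ico]
          exact ⟨⟨by omega, hl.2⟩, hcon⟩)
        simp only [id] at this
        omega
      have h1 := Pool.Agent.Q195.UM.prod_good a (fun _ => 1) ha0 (fun _ => zero_le_one)
        (Finset.Ico (j + 1) J) J (by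
          intro l hl
          rw [Finset.mem_Ico] at hl
          exact Finset.mem_range.2 hl.2) (fun l hl => hgood l (hg l hl))
      simp only [Finset.prod_const_one, one_pow, mul_one] at h1
      have hI : ∏ l ∈ Finset.Ico 4 J, a l =
          (∏ l ∈ Finset.Ico 4 (j + 1), a l) * ∏ l ∈ Finset.Ico (j + 1) J, a l :=
        (Finset.prod_Ico_consecutive a (by omega) (by omega)).symm
      have h2 : (∏ l ∈ Finset.range 4, ‖cexp (z l)‖) * ∏ l ∈ Finset.Ico 4 (j + 1), a l ≤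
          Real.exp (2 * ∑ l ∈ Finset.range (j + 1), ‖z l‖) := by
        have e1 : ∏ l ∈ Finset.Ico 4 (j + 1), a l ≤
            Real.exp (2 * ∑ l ∈ Finset.Ico 4 (j + 1), ‖z l‖) := by
          rw [Finset.mul_sum, Real.exp_sum]
          exact Finset.prod_le_prod (fun l _ => ha0 l) fun l _ => ha1 l
        have e2 : ∏ l ∈ Finset.range 4, ‖cexp (z l)‖ ≤
            Real.exp (2 * ∑ l ∈ Finset.range 4, ‖z l‖) := by
          refine (hE 4).trans (Real.exp_le_exp.2 ?_)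
          have := hS0 4
          linarith
        refine (mul_le_mul e2 e1 (Finset.prod_nonneg fun l _ => ha0 l) (Real.exp_pos _).le).trans ?_
        rw [← Real.exp_add, ← mul_add, Finset.sum_range_add_sum_Ico _ (by omega)]
      have h3 : ((∏ l ∈ Finset.range 4, ‖cexp (z l)‖) * ∏ l ∈ Finset.Ico 4 J, a l) ^ 2 ≤
          Real.exp 3 * Real.exp (4 * ∑ l ∈ Finset.range (j + 1), ‖z l‖) := by
        rw [hI, ← mul_assoc, mul_pow]
        have e1 := pow_le_pow_left₀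
          (mul_nonneg (hE0 4) (Finset.prod_nonneg fun l _ => ha0 l)) h2 2
        rw [← Real.exp_nat_mul] at e1
        refine (mul_le_mul e1 h1 (by positivity) (Real.exp_pos _).le).trans (le_of_eq ?_)
        have e2 : ((2 : ℕ) : ℝ) * (2 * ∑ l ∈ Finset.range (j + 1), ‖z l‖) =
            4 * ∑ l ∈ Finset.range (j + 1), ‖z l‖ := by
          push_cast
          ring
        rw [e2]
        ring
      have h4 : (1 : ℝ) ≤ (20 * ‖z j‖ / R9 κ j) ^ (2 * s7 j) := by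
        apply one_le_pow₀
        rw [le_div_iff₀ (hR j)]
        linarith
      have h5 : Real.exp (4 * ∑ l ∈ Finset.range (j + 1), ‖z l‖) *
          (20 * ‖z j‖ / R9 κ j) ^ (2 * s7 j) ≤
          ∑ j ∈ Finset.Ico 4 J, Real.exp (4 * ∑ l ∈ Finset.range (j + 1), ‖z l‖) *
            (20 * ‖z j‖ / R9 κ j) ^ (2 * s7 j) :=
        Finset.single_le_sum (f := fun j => Real.exp (4 * ∑ l ∈ Finset.range (j + 1), ‖z l‖) *
          (20 * ‖z j‖ / R9 κ j) ^ (2 * s7 j)) (fun j _ => hterm j) hjm'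
      refine h3.trans (mul_le_mul_of_nonneg_left ?_ (Real.exp_pos _).le)
      have h6 := (Real.exp_pos (4 * ∑ l ∈ Finset.range 4, ‖z l‖)).le
      have h7 : Real.exp (4 * ∑ l ∈ Finset.range (j + 1), ‖z l‖) ≤
          Real.exp (4 * ∑ l ∈ Finset.range (j + 1), ‖z l‖) *
            (20 * ‖z j‖ / R9 κ j) ^ (2 * s7 j) :=
        le_mul_of_one_le_right (Real.exp_pos _).le h4
      linarith

/-- the crude bound -/
theorem crude (hT : S_TEX) {κ : ℝ} (hκ : 4 ≤ κ) (J : ℕ) (z : ℕ → ℂ) :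
    ‖∏ l ∈ Finset.Ico 4 J, TEx (R9 κ l) (-1 / 2 * z l)‖ ^ 4 ≤
      Real.exp (2 * ∑ l ∈ Finset.range (J + 4), ‖z l‖) := by
  have h1 : ‖∏ l ∈ Finset.Ico 4 J, TEx (R9 κ l) (-1 / 2 * z l)‖ ^ 2 ≤
      Real.exp (∑ l ∈ Finset.range (J + 4), ‖z l‖) := by
    rw [norm_prod, ← Finset.prod_pow]
    calc ∏ l ∈ Finset.Ico 4 J, ‖TEx (R9 κ l) (-1 / 2 * z l)‖ ^ 2 ≤
        ∏ l ∈ Finset.Ico 4 J, Real.exp ‖z l‖ :=
          Finset.prod_le_prod (fun l _ => by positivity) fun l _ => blk_any hT hκ l (z l)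
      _ = Real.exp (∑ l ∈ Finset.Ico 4 J, ‖z l‖) := (Real.exp_sum _ _).symm
      _ ≤ _ := by
          rw [Real.exp_le_exp]
          refine Finset.sum_le_sum_of_subset_of_nonneg ?_ fun l _ _ => norm_nonneg _
          intro l hl
          rw [Finset.mem_Ico] at hl
          rw [Finset.mem_range]
          omega
  have h2 := pow_le_pow_left₀ (by positivity) h1 2
  rw [← pow_mul, ← Real.exp_nat_mul] at h2
  refine le_trans (le_of_eq ?_) (h2.trans (le_of_eq ?_))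
  · norm_num
  · congr 1

/-! ### the mean value -/

theorem TEx_zero (R : ℕ) : TEx R 0 = 1 := by
  unfold TEx
  rw [Finset.sum_range_succ']
  simp

theorem Ef_one (D κ : ℝ) (a a2 : Fin 1 → ℕ → ℂ) (q : ℕ) (t : ℝ) :
    Ef D κ (lc (fun _ => (0 : ℝ)) a) (lc (fun _ => (0 : ℝ)) a2) q t = 1 := by
  unfold Ef
  refine Finset.prod_eq_one fun l _ => ?_
  rw [zf_lc]
  simp [TEx_zero]

theorem t_M1 : J_M1 := by
  intro hTEX hXM hSTR hMVL hBM
  obtain ⟨κS, hκS4, hSTR⟩ := hSTR 1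
  refine ⟨κS, hκS4, fun κ hκ => ?_⟩
  have hκ4 : 4 ≤ κ := hκS4.trans hκ
  obtain ⟨CS, hCS, hSTR⟩ := hSTR κ hκ
  obtain ⟨C₁, hC₁, hXM⟩ := hXM 1 6 1 1 le_rfl (by norm_num) le_rfl
  obtain ⟨CB, hCB, hBM⟩ := hBM
  obtain ⟨CV, hCV⟩ : ∃ CV : ℝ, CV = 1 + (1 + CB) ^ 4 := ⟨_, rfl⟩
  have hCV1 : 1 ≤ CV := by
    rw [hCV]
    have : 0 ≤ (1 + CB) ^ 4 := by positivity
    linarith
  obtain ⟨CA, hCA⟩ : ∃ CA : ℝ, CA = CV * Real.exp 3 * (Real.exp (C₁ * Real.exp (3 / 2)) + 4 * CS) :=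
    ⟨_, rfl⟩
  have hCA0 : 0 ≤ CA := by
    rw [hCA]
    positivity
  obtain ⟨CC, hCC⟩ : ∃ CC : ℝ, CC = CV + 3 * C₁ * Real.exp (3 / 2) := ⟨_, rfl⟩
  have hCC1 : 1 ≤ CC := by
    rw [hCC]
    have : 0 ≤ 3 * C₁ * Real.exp (3 / 2) := by positivity
    linarith
  refine ⟨CA + CC, by linarith, ?_⟩
  intro D hD α N b hN1 hND hb
  have hD0 : 0 ≤ D := by linarith
  have hN0 := N2_nn N b
  obtain ⟨z, hz⟩ : ∃ z : ℕ → ℝ → ℂ, z = fun l t => zf D (ua α) (ua (2 * α)) l t := ⟨_, rfl⟩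
  have hze : ∀ l t, zf D (ua α) (ua (2 * α)) l t = z l t := fun l t => by rw [hz]
  have hzc : ∀ l, Continuous (z l) := fun l => by
    rw [hz]
    exact zf_cont _ _ _ _
  have hBc := dp_cont N b
  have hYc : Continuous fun t => Yf D κ (t + α) := by
    unfold Yf
    exact (Ef_cont _ _ _ _ _).comp (continuous_id.add continuous_const)
  have hVc : Continuous fun t => Vf D (t + α) := by
    unfold Vf
    exact (dp_cont _ _).comp (continuous_id.add continuous_const)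
  have hSc : ∀ n : ℕ, Continuous fun t => ∑ l ∈ Finset.range n, ‖z l t‖ :=
    fun n => continuous_finsetSum _ fun l _ => (hzc l).norm
  have hV : ∀ t, 1 + ‖Vf D (t + α)‖ ^ 4 ≤ CV * Real.exp (2 * ∑ l ∈ Finset.range 4, ‖z l t‖) := by
    intro t
    have h := Vf_le hCB hD0 (fun l => hBM D l hD) α t
    simp only [hze] at h
    rw [hCV]
    exact h
  -- exponential moments
  have hX : ∀ j : ℕ, MB (fun t => ‖dp N b t‖ ^ 2 *
      Real.exp (6 * ∑ l ∈ Finset.range (j + 1), ‖z l t‖))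
      (Real.exp (C₁ * Real.exp ((j : ℝ) / 2)) * N2 N b) := by
    intro j
    have h := hXM D hD (fun _ => ua α) (fun _ => ua (2 * α)) (fun _ n => ua_le _ n)
      (fun _ n => ua_le _ n) N b hN1 (by linarith) hb j
    simp only [Finset.univ_unique, Finset.sum_singleton, hze] at h
    exact h
  -- the penalties
  obtain ⟨G, hG⟩ : ∃ G : ℕ → ℝ → ℝ, G = fun j t =>
      ‖dp N b t‖ ^ 2 * Real.exp (6 * ∑ l ∈ Finset.range (j + 1), ‖z l t‖) *
        (1 + (20 * ‖z j t‖ / R9 κ j) ^ (2 * s7 j)) * (20 * ‖z j t‖ / R9 κ j) ^ (2 * s7 j) := ⟨_, rfl⟩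
  have hGc : ∀ j, Continuous (G j) := by
    intro j
    rw [hG]
    have h1 : Continuous fun t => (20 * ‖z j t‖ / (R9 κ j : ℝ)) ^ (2 * s7 j) :=
      ((continuous_const.mul (hzc j).norm).div_const _).pow _
    exact (((hBc.norm.pow 2).mul (Real.continuous_exp.comp (continuous_const.mul (hSc _)))).mul
      (continuous_const.add h1)).mul h1
  have hGM : ∀ j, MB (G j) (CS * Real.exp (-(2 * (j : ℝ))) * (2 * N2 N b)) := by
    intro j
    have hF : FamD (fun _ : Fin 1 => (0 : ℝ)) (fun _ => ua α) (fun _ => ua (2 * α)) :=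
      ⟨fun _ => le_rfl, by simp, fun _ n => ua_le _ n, fun _ n => ua_le _ n⟩
    have hW : MB (fun t => ‖Ef D κ (lc (fun _ : Fin 1 => (0 : ℝ)) (fun _ => ua α))
        (lc (fun _ : Fin 1 => (0 : ℝ)) (fun _ => ua (2 * α))) 0 t * dp N b t‖ ^ 2) (2 * N2 N b) :=
      MB.congr (fun t => by rw [Ef_one, one_mul]) (MB_dp hMVL N b)
    have h := hSTR D hD (fun _ => 0) (fun _ => ua α) (fun _ => ua (2 * α)) hF N b hN1 hND hb
      (2 * N2 N b) hW j j 0 le_rfl
    refine MB.congr (fun t => ?_) h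
    rw [Ef_one, one_mul, hG]
    simp only [Finset.univ_unique, Finset.sum_singleton, hze]
  have hG0 : ∀ j t, 0 ≤ G j t := by
    intro j t
    rw [hG]
    positivity
  refine ⟨?_, ?_⟩
  · -- first part
    have hR : MB (fun t => CV * Real.exp 3 * (‖dp N b t‖ ^ 2 *
        Real.exp (6 * ∑ l ∈ Finset.range (3 + 1), ‖z l t‖) + ∑ j ∈ Finset.Ico 4 (JB D), G j t))
        (CV * Real.exp 3 * (Real.exp (C₁ * Real.exp (((3 : ℕ) : ℝ) / 2)) * N2 N b +
          ∑ j ∈ Finset.Ico 4 (JB D), CS * Real.exp (-(2 * (j : ℝ))) * (2 * N2 N b))) := by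
      refine MB.cmul (by positivity) (MB.add ?_ ?_ (hX 3) ?_)
      · exact (hBc.norm.pow 2).mul (Real.continuous_exp.comp (continuous_const.mul (hSc _)))
      · exact continuous_finsetSum _ fun j _ => hGc j
      · exact MB.sum _ (fun j _ => hGc j) fun j _ => hGM j
    refine MB.le ?_ (MB.mono ?_ ?_ (fun t => ?_) hR)
    · rw [← Finset.sum_mul, ← Finset.mul_sum]
      have h3 : ∑ j ∈ Finset.Ico 4 (JB D), Real.exp (-(2 * (j : ℝ))) ≤ 2 := by
        rcases le_total 4 (JB D) with h | h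
        · have h1 := geo_sum 4 (JB D) h
          have h2 := Real.exp_pos (-(2 * (JB D : ℝ)))
          have h4 : Real.exp (-(2 * ((4 : ℕ) : ℝ))) ≤ 1 := by
            rw [Real.exp_le_one_iff]
            norm_num
          linarith
        · rw [Finset.Ico_eq_empty (by omega)]
          norm_num
      have e : (((3 : ℕ) : ℝ) / 2) = 3 / 2 := by norm_num
      rw [e]
      have h4 : CS * (∑ j ∈ Finset.Ico 4 (JB D), Real.exp (-(2 * (j : ℝ)))) * (2 * N2 N b) ≤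
          CS * 2 * (2 * N2 N b) := by gcongr
      calc CV * Real.exp 3 * (Real.exp (C₁ * Real.exp (3 / 2)) * N2 N b +
            CS * (∑ j ∈ Finset.Ico 4 (JB D), Real.exp (-(2 * (j : ℝ)))) * (2 * N2 N b)) ≤
          CV * Real.exp 3 * (Real.exp (C₁ * Real.exp (3 / 2)) * N2 N b + CS * 2 * (2 * N2 N b)) := by
            gcongr
        _ = CA * N2 N b := by
            rw [hCA]
            ring
        _ ≤ (CA + CC) * N2 N b := by
            refine mul_le_mul_of_nonneg_right ?_ hN0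
            linarith
    · refine Continuous.mul ?_ (((hYc.norm.pow 4).mul (continuous_const.add (hVc.norm.pow 4))).mul
        (hBc.norm.pow 2))
      exact ((Complex.continuous_exp.comp (continuous_finsetSum _ fun l _ =>
        zf_cont _ _ _ _)).norm).pow 2
    · exact continuous_const.mul (((hBc.norm.pow 2).mul
        (Real.continuous_exp.comp (continuous_const.mul (hSc _)))).add
          (continuous_finsetSum _ fun j _ => hGc j))
    · rw [Yf_eq D κ hD0]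
      simp only [hze]
      have hp := pointwise hTEX hκ4 (JB D) (fun l => z l t)
      have hv := hV t
      have hs4 : 0 ≤ ∑ l ∈ Finset.range 4, ‖z l t‖ := Finset.sum_nonneg fun l _ => norm_nonneg _
      have hmul := mul_le_mul hp hv (by positivity) (by positivity)
      have hB2 : 0 ≤ ‖dp N b t‖ ^ 2 := by positivity
      have hmul2 := mul_le_mul_of_nonneg_right hmul hB2
      refine le_trans (le_of_eq ?_) (hmul2.trans ?_)
      · ring
      · have h1 : Real.exp (4 * ∑ l ∈ Finset.range 4, ‖z l t‖) *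
            Real.exp (2 * ∑ l ∈ Finset.range 4, ‖z l t‖) =
            Real.exp (6 * ∑ l ∈ Finset.range (3 + 1), ‖z l t‖) := by
          rw [← Real.exp_add]
          congr 1
          norm_num
          ring
        have h2 : ∀ j ∈ Finset.Ico 4 (JB D), Real.exp (4 * ∑ l ∈ Finset.range (j + 1), ‖z l t‖) *
            (20 * ‖z j t‖ / R9 κ j) ^ (2 * s7 j) *
            Real.exp (2 * ∑ l ∈ Finset.range 4, ‖z l t‖) * ‖dp N b t‖ ^ 2 ≤ G j t := by
          intro j hj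
          rw [Finset.mem_Ico] at hj
          have h3 : ∑ l ∈ Finset.range 4, ‖z l t‖ ≤ ∑ l ∈ Finset.range (j + 1), ‖z l t‖ :=
            Finset.sum_le_sum_of_subset_of_nonneg (Finset.range_subset_range.2 (by omega))
              fun l _ _ => norm_nonneg _
          have h4 : Real.exp (4 * ∑ l ∈ Finset.range (j + 1), ‖z l t‖) *
              Real.exp (2 * ∑ l ∈ Finset.range 4, ‖z l t‖) ≤
              Real.exp (6 * ∑ l ∈ Finset.range (j + 1), ‖z l t‖) := by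
            rw [← Real.exp_add, Real.exp_le_exp]
            linarith
          obtain ⟨P, hP⟩ : ∃ P : ℝ, P = (20 * ‖z j t‖ / R9 κ j) ^ (2 * s7 j) := ⟨_, rfl⟩
          have hP0 : 0 ≤ P := by
            rw [hP]
            positivity
          rw [hG]
          simp only
          rw [← hP]
          calc Real.exp (4 * ∑ l ∈ Finset.range (j + 1), ‖z l t‖) * P *
                Real.exp (2 * ∑ l ∈ Finset.range 4, ‖z l t‖) * ‖dp N b t‖ ^ 2 =
              ‖dp N b t‖ ^ 2 * (Real.exp (4 * ∑ l ∈ Finset.range (j + 1), ‖z l t‖) *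
                Real.exp (2 * ∑ l ∈ Finset.range 4, ‖z l t‖)) * 1 * P := by ring
            _ ≤ ‖dp N b t‖ ^ 2 * Real.exp (6 * ∑ l ∈ Finset.range (j + 1), ‖z l t‖) *
                (1 + P) * P := by
                gcongr
                linarith
        have h5 := Finset.sum_le_sum h2
        rw [← Finset.sum_mul, ← Finset.sum_mul] at h5
        have hK : 0 ≤ CV * Real.exp 3 := by positivity
        calc Real.exp 3 * (Real.exp (4 * ∑ l ∈ Finset.range 4, ‖z l t‖) +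
              ∑ j ∈ Finset.Ico 4 (JB D), Real.exp (4 * ∑ l ∈ Finset.range (j + 1), ‖z l t‖) *
                (20 * ‖z j t‖ / R9 κ j) ^ (2 * s7 j)) *
              (CV * Real.exp (2 * ∑ l ∈ Finset.range 4, ‖z l t‖)) * ‖dp N b t‖ ^ 2 =
            CV * Real.exp 3 * (‖dp N b t‖ ^ 2 * (Real.exp (4 * ∑ l ∈ Finset.range 4, ‖z l t‖) *
              Real.exp (2 * ∑ l ∈ Finset.range 4, ‖z l t‖)) +
              (∑ j ∈ Finset.Ico 4 (JB D), Real.exp (4 * ∑ l ∈ Finset.range (j + 1), ‖z l t‖) *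
                (20 * ‖z j t‖ / R9 κ j) ^ (2 * s7 j)) *
                Real.exp (2 * ∑ l ∈ Finset.range 4, ‖z l t‖) * ‖dp N b t‖ ^ 2) := by ring
          _ ≤ _ := by
              rw [h1]
              exact mul_le_mul_of_nonneg_left (add_le_add le_rfl h5) hK
  · -- second part
    have h := MB.cmul (c := CV) (by linarith) (hX (JB D + 3))
    refine MB.le ?_ (MB.mono ?_ ?_ (fun t => ?_) h)
    · have e1 : Real.exp (((JB D + 3 : ℕ) : ℝ) / 2) =
          Real.exp ((JB D : ℝ) / 2) * Real.exp (3 / 2) := by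
        rw [← Real.exp_add]
        congr 1
        push_cast
        ring
      have h1 := JB_le hD
      have hsq : 1 ≤ Real.sqrt D := Real.one_le_sqrt.2 hD
      have h2 : Real.exp (C₁ * Real.exp (((JB D + 3 : ℕ) : ℝ) / 2)) ≤
          Real.exp (3 * C₁ * Real.exp (3 / 2) * Real.sqrt D) := by
        rw [Real.exp_le_exp, e1]
        calc C₁ * (Real.exp ((JB D : ℝ) / 2) * Real.exp (3 / 2)) ≤
            C₁ * (3 * Real.sqrt D * Real.exp (3 / 2)) := by gcongr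
          _ = _ := by ring
      have h3 : CV ≤ Real.exp (CV * Real.sqrt D) := by
        have h4 := Real.add_one_le_exp (CV * Real.sqrt D)
        nlinarith
      calc CV * (Real.exp (C₁ * Real.exp (((JB D + 3 : ℕ) : ℝ) / 2)) * N2 N b) ≤
          Real.exp (CV * Real.sqrt D) *
            (Real.exp (3 * C₁ * Real.exp (3 / 2) * Real.sqrt D) * N2 N b) := by gcongr
        _ = Real.exp (CC * Real.sqrt D) * N2 N b := by
            rw [← mul_assoc, ← Real.exp_add, hCC]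
            congr 2
            ring
        _ ≤ Real.exp ((CA + CC) * Real.sqrt D) * N2 N b := by
            gcongr
            linarith
    · exact ((hYc.norm.pow 4).mul (continuous_const.add (hVc.norm.pow 4))).mul (hBc.norm.pow 2)
    · exact continuous_const.mul ((hBc.norm.pow 2).mul
        (Real.continuous_exp.comp (continuous_const.mul (hSc _))))
    · rw [Yf_eq D κ hD0]
      simp only [hze]
      have hp := crude hTEX hκ4 (JB D) (fun l => z l t)
      have hv := hV t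
      have hB2 : 0 ≤ ‖dp N b t‖ ^ 2 := by positivity
      have h3 : ∑ l ∈ Finset.range 4, ‖z l t‖ ≤ ∑ l ∈ Finset.range (JB D + 3 + 1), ‖z l t‖ :=
        Finset.sum_le_sum_of_subset_of_nonneg (Finset.range_subset_range.2 (by omega))
          fun l _ _ => norm_nonneg _
      have h0 : 0 ≤ ∑ l ∈ Finset.range (JB D + 3 + 1), ‖z l t‖ :=
        Finset.sum_nonneg fun l _ => norm_nonneg _
      have h4 : Real.exp (2 * ∑ l ∈ Finset.range (JB D + 4), ‖z l t‖) *
          Real.exp (2 * ∑ l ∈ Finset.range 4, ‖z l t‖) ≤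
          Real.exp (6 * ∑ l ∈ Finset.range (JB D + 3 + 1), ‖z l t‖) := by
        rw [← Real.exp_add, Real.exp_le_exp]
        have e : JB D + 4 = JB D + 3 + 1 := by omega
        rw [e]
        linarith
      have hmul := mul_le_mul hp hv (by positivity) (Real.exp_pos _).le
      refine (mul_le_mul_of_nonneg_right hmul hB2).trans ?_
      calc Real.exp (2 * ∑ l ∈ Finset.range (JB D + 4), ‖z l t‖) *
            (CV * Real.exp (2 * ∑ l ∈ Finset.range 4, ‖z l t‖)) * ‖dp N b t‖ ^ 2 =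
          CV * (‖dp N b t‖ ^ 2 * (Real.exp (2 * ∑ l ∈ Finset.range (JB D + 4), ‖z l t‖) *
            Real.exp (2 * ∑ l ∈ Finset.range 4, ‖z l t‖))) := by ring
        _ ≤ _ := by gcongr

end

end Pool.Agent.Run7.h74.DW.M1
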