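import Pool.Agent.Run7.h74.DW.YB
import Pool.Agent.Q184.UM.UBM

set_option autoImplicit false

/-! Project DW (helper74), piece SEC: the mollified second moment relative to every Dirichlet polynomial. -/

namespace Pool.Agent.Run7.h74.DW.SEC

open Filter Topology MeasureTheory Complex
open Pool.Agent.Q97.UM
open Pool.Agent.Q184.UM (zt_cont dp_cont zf_cont Ef_cont ev_len N2_of_MB ev_grow)
open Pool.Agent.Run7.h74.DW

noncomputable section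

/-- Dirichlet polynomials of length `M` with coefficients supported on smooth numbers -/
def IsP (D : ℝ) (M : ℕ) (F : ℝ → ℂ) : Prop := ∃ c : ℕ → ℂ,
  (∀ n, c n ≠ 0 → 1 ≤ n ∧ n ≤ M ∧ n ∈ Nat.smoothNumbers (⌊Real.exp D⌋₊ + 1)) ∧ ∀ t, dp M c t = F t

theorem IsP_mul (hDPM : S_DPM) {D : ℝ} {M N : ℕ} {F G : ℝ → ℂ} (h1 : IsP D M F) (h2 : IsP D N G) :
    IsP D (M * N) (fun t => F t * G t) := by
  obtain ⟨a, ha, haF⟩ := h1
  obtain ⟨b, hb, hbG⟩ := h2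
  refine ⟨cv a b, ?_, ?_⟩
  · intro n hn
    obtain ⟨d, e, rfl, h3, h4⟩ := YB.cv_supp hn
    obtain ⟨h5, h6, h7⟩ := ha d h3
    obtain ⟨h8, h9, h10⟩ := hb e h4
    exact ⟨Nat.mul_pos h5 h8, Nat.mul_le_mul h6 h9, Nat.mul_mem_smoothNumbers h7 h10⟩
  · intro t
    rw [← hDPM.1 M N a b t, haF, hbG]
    · intro n hn
      by_contra h
      have := (ha n h).2.1
      omega
    · intro n hn
      by_contra h
      have := (hb n h).2.1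
      omega

theorem IsP_shift (hDPM : S_DPM) {D : ℝ} {M : ℕ} {F : ℝ → ℂ} (h : IsP D M F) (α : ℝ) :
    IsP D M (fun t => F (t + α)) := by
  obtain ⟨a, ha, haF⟩ := h
  refine ⟨fun n => a n * (n : ℂ) ^ (((-α : ℝ) : ℂ) * I), ?_, ?_⟩
  · intro n hn
    exact ha n (left_ne_zero_of_mul hn)
  · intro t
    have h1 := (hDPM.2.1 M a t (-α)).1
    rw [sub_neg_eq_add, haF] at h1
    exact h1.symm

theorem IsP_Y (hCOF : S_COF) {κ D : ℝ} (hκ : 1 ≤ κ) (hD : 1 ≤ D) : ∃ M : ℕ, 1 ≤ M ∧ Real.log M ≤ (26 * κ + 4) * D ∧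
    IsP D M (Yf D κ) := by
  obtain ⟨-, -, h⟩ := hCOF κ D hκ hD (fun _ => -1 / 2) (fun _ => -1 / 2) (fun _ => 0) (fun _ => 0) 4 0
  obtain ⟨M, c, hM, hl, hs, hc⟩ := h 1 (fun n => if n = 1 then 1 else 0) le_rfl (by simp; linarith) (by
    intro n hn
    by_cases h1 : n = 1
    · omega
    · simp [h1] at hn)
  refine ⟨M, hM, ?_, c, hs, ?_⟩
  · simpa using hl
  · intro t
    rw [hc t]
    have e1 : pw D κ (fun _ => 0) (fun _ => 0) 0 t = 1 := rfl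
    have e2 : dp 1 (fun n => if n = 1 then 1 else 0) t = 1 := by simp [dp]
    rw [e1, e2, mul_one, mul_one]
    rfl

theorem IsP_V {D : ℝ} (hD : 1 ≤ D) : IsP D ⌊Real.exp D⌋₊ (Vf D) := by
  have h3 : 1 ≤ ⌊Real.exp D⌋₊ := by
    rw [Nat.one_le_floor_iff]
    exact Real.one_le_exp (by linarith)
  refine ⟨vP (PT D), ?_, fun t => rfl⟩
  intro n hn
  have h4 : 1 ≤ n ∧ n ≤ ⌊Real.exp D⌋₊ := by
    unfold vP at hn
    by_cases h1 : n = 1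
    · omega
    · rw [if_neg h1] at hn
      by_cases h2 : n ∈ PT D
      · unfold PT at h2
        rw [Finset.mem_filter, Finset.mem_Icc] at h2
        exact h2.1
      · simp [h2] at hn
  exact ⟨h4.1, h4.2, Nat.mem_smoothNumbers_of_lt h4.1 (by omega)⟩

theorem IsP_B {D : ℝ} {N : ℕ} (hN : (N : ℝ) ≤ Real.exp D) {b : ℕ → ℂ} (hb : ∀ n, b n ≠ 0 → 1 ≤ n ∧ n ≤ N) :
    IsP D N (dp N b) := by
  have h1 : N ≤ ⌊Real.exp D⌋₊ := Nat.le_floor hN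
  refine ⟨b, fun n hn => ?_, fun t => rfl⟩
  obtain ⟨h2, h3⟩ := hb n hn
  exact ⟨h2, h3, Nat.mem_smoothNumbers_of_lt h2 (by omega)⟩

theorem MB_mono {F G : ℝ → ℝ} {C : ℝ} (hF : Continuous F) (hG : Continuous G) (h : ∀ t, F t ≤ G t) (hM : MB G C) :
    MB F C := by
  unfold MB at *
  filter_upwards [hM, eventually_ge_atTop (0 : ℝ)] with V hV hV0
  exact (intervalIntegral.integral_mono_on (by linarith) (hF.intervalIntegrable _ _) (hG.intervalIntegrable _ _)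
    fun t _ => h t).trans hV

theorem int_add {F G : ℝ → ℝ} {T x y : ℝ} (hF : Continuous F) (hG : Continuous G)
    (h1 : ∫ t in T..(2 * T), F t ≤ x) (h2 : ∫ t in T..(2 * T), G t ≤ y) :
    ∫ t in T..(2 * T), (F t + G t) ≤ x + y := by
  rw [intervalIntegral.integral_add (hF.intervalIntegrable _ _) (hG.intervalIntegrable _ _)]
  exact add_le_add h1 h2

theorem Yf_cont (D κ : ℝ) : Continuous (Yf D κ) := by
  unfold Yf
  exact Ef_cont D κ _ _ 4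

theorem Vf_cont (D : ℝ) : Continuous (Vf D) := by
  unfold Vf
  exact dp_cont _ _

/-- the bounds for one polynomial `P` -/
theorem sec_one (hMVL : S_MVL) {D κ δ T θ₀ C CS α w : ℝ} (hT16 : 16 ≤ T)
    (hθ8 : θ₀ ≤ 1 / 8) (hδ2 : 60 * κ * δ ≤ θ₀)
    (hDd : D = δ * Real.log T) (hCS : 0 ≤ CS) (hw : 0 ≤ w)
    (hTS : ∀ (M : ℕ) (c : ℕ → ℂ), (M : ℝ) ≤ T ^ θ₀ →
      (∀ n, c n ≠ 0 → 1 ≤ n ∧ n ≤ M ∧ n ∈ Nat.smoothNumbers (⌊T ^ δ⌋₊ + 1)) → ∀ S : ℝ,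
      MB (fun t => ‖cexp (∑ l ∈ Finset.range (JB D), zf D (ua α) (ua (2 * α)) l t)‖ ^ 2 * ‖dp M c t‖ ^ 2) S →
      ∫ t in T..(2 * T), ‖zt (t + α)‖ ^ 2 * ‖dp M c t‖ ^ 2 ≤ CS * T * (S + T ^ (-θ₀) * N2 M c))
    (hg : 2 * Real.exp (C * Real.sqrt D) ≤ T ^ θ₀)
    {M : ℕ} {P : ℝ → ℂ} (hM : 1 ≤ M) (hMl : Real.log M ≤ 60 * κ * D) (hP : IsP D M P)
    (h1 : MB (fun t => ‖cexp (∑ l ∈ Finset.range (JB D), zf D (ua α) (ua (2 * α)) l t)‖ ^ 2 * ‖P t‖ ^ 2) (C * w))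
    (h2 : MB (fun t => ‖P t‖ ^ 2) (Real.exp (C * Real.sqrt D) * w)) :
    ∫ t in T..(2 * T), ‖zt (t + α)‖ ^ 2 * ‖P t‖ ^ 2 ≤ CS * (C + 1) * (T * w) ∧
    ∫ t in T..(2 * T), ‖P t‖ ^ 2 ≤ 4 * Real.exp (C * Real.sqrt D) * (T * w) := by
  obtain ⟨c, hs, hc⟩ := hP
  have hT0 : 0 < T := by linarith
  have hT1 : 1 ≤ T := by linarith
  have hL0 : 0 < Real.log T := Real.log_pos (by linarith)
  have hDexp : Real.exp D = T ^ δ := by
    rw [hDd, Real.rpow_def_of_pos hT0, mul_comm]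
  simp only [← hc] at h1 h2 ⊢
  have hN2 := N2_of_MB hMVL h2
  have hMT : (M : ℝ) ≤ T ^ θ₀ := by
    have h3 : Real.log M ≤ Real.log T * θ₀ := by
      have h4 : 60 * κ * D ≤ θ₀ * Real.log T := by
        have h5 : 60 * κ * D = 60 * κ * δ * Real.log T := by rw [hDd]; ring
        rw [h5]
        exact mul_le_mul_of_nonneg_right hδ2 hL0.le
      linarith
    have hM1 : (0 : ℝ) < M := by exact_mod_cast hM
    rw [Real.rpow_def_of_pos hT0, ← Real.exp_log hM1]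
    exact Real.exp_le_exp.2 h3
  have hθ4 : T ^ θ₀ ≤ T ^ (1 / 4 : ℝ) := Real.rpow_le_rpow_of_exponent_le hT1 (by linarith)
  have hN0 : 0 ≤ N2 M c := YB.N2_nonneg M c
  constructor
  · have h3 := hTS M c hMT (fun n hn => by rw [← hDexp]; exact hs n hn) (C * w) h1
    refine h3.trans ?_
    have h4 : T ^ (-θ₀) * N2 M c ≤ w := by
      have h5 : T ^ (-θ₀) * T ^ θ₀ = 1 := by
        rw [← Real.rpow_add hT0, neg_add_cancel, Real.rpow_zero]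
      have h6 : 0 ≤ T ^ (-θ₀) := Real.rpow_nonneg hT0.le _
      calc T ^ (-θ₀) * N2 M c ≤ T ^ (-θ₀) * (2 * (Real.exp (C * Real.sqrt D) * w)) := by gcongr
        _ = T ^ (-θ₀) * (2 * Real.exp (C * Real.sqrt D)) * w := by ring
        _ ≤ T ^ (-θ₀) * T ^ θ₀ * w := by gcongr
        _ = w := by rw [h5, one_mul]
    calc CS * T * (C * w + T ^ (-θ₀) * N2 M c) ≤ CS * T * (C * w + w) := by gcongr
      _ = CS * (C + 1) * (T * w) := by ring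
  · have h3 := (hMVL T hT16 M (hMT.trans hθ4) c).2
    refine h3.trans ?_
    calc 2 * T * N2 M c ≤ 2 * T * (2 * (Real.exp (C * Real.sqrt D) * w)) := by gcongr
      _ = 4 * Real.exp (C * Real.sqrt D) * (T * w) := by ring

theorem t_SEC : J_SEC := by
  intro hM1 hTSB hDPM hMVL hCOF
  obtain ⟨κ₀, hκ₀, hM1⟩ := hM1
  obtain ⟨θ₀, hθ₀, hθ₀8, hTSB⟩ := hTSB
  refine ⟨κ₀, hκ₀, fun κ hκ => ?_⟩
  have hκ4 : 4 ≤ κ := hκ₀.trans hκ
  obtain ⟨C, hC, hM1⟩ := hM1 κ hκ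
  refine ⟨θ₀ / (60 * κ), by positivity, fun δ hδ0 hδ1 => ?_⟩
  have hδ2 : 60 * κ * δ ≤ θ₀ := by
    rw [le_div_iff₀ (by positivity)] at hδ1
    linarith
  have hδ3 : δ ≤ 1 := by nlinarith
  obtain ⟨CS, hCS, hTS⟩ := hTSB δ hδ0 hδ3
  refine ⟨2 * (CS * (C + 1)), by positivity, ?_⟩
  have hg1 := ev_grow (C := C) (δ := δ) (θ := θ₀) hδ0 hθ₀
  have hg2 := ev_grow (C := C) (δ := δ) (θ := 1 / 16) hδ0 (by norm_num)
  have hg3 : ∀ᶠ T : ℝ in atTop, (4 : ℝ) ≤ T ^ (1 / 16 : ℝ) :=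
    (tendsto_rpow_atTop (by norm_num : (0 : ℝ) < 1 / 16)).eventually_ge_atTop 4
  filter_upwards [hTS, hg1, hg2, hg3, eventually_ge_atTop (16 : ℝ), Real.tendsto_log_atTop.eventually_ge_atTop 1,
    Real.tendsto_log_atTop.eventually_ge_atTop (1 / δ)] with T hTS hg1 hg2 hg3 hT hL1 hLδ α hα N hN b hb
  have hT0 : 0 < T := by linarith
  have hT1 : 1 ≤ T := by linarith
  have hDexp : Real.exp (δ * Real.log T) = T ^ δ := by
    rw [Real.rpow_def_of_pos hT0, mul_comm]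
  obtain ⟨D, hDd⟩ : ∃ D : ℝ, D = δ * Real.log T := ⟨_, rfl⟩
  rw [← hDd] at hg1 hg2 hDexp hTS ⊢
  have hD1 : 1 ≤ D := by
    rw [hDd]
    rw [div_le_iff₀ hδ0] at hLδ
    linarith
  have hw0 : 0 ≤ N2 N b := YB.N2_nonneg N b
  have hE0 : 0 < Real.exp (C * Real.sqrt D) := Real.exp_pos _
  have hJ0 : (0 : ℝ) ≤ JB D := Nat.cast_nonneg _
  have hg1' : 2 * Real.exp (C * Real.sqrt D) ≤ T ^ θ₀ := by nlinarith
  have hg2' : 8 * Real.exp (C * Real.sqrt D) ≤ T ^ (1 / 8 : ℝ) := by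
    have h1 : 2 * Real.exp (C * Real.sqrt D) ≤ T ^ (1 / 16 : ℝ) := by nlinarith
    have h2 : T ^ (1 / 8 : ℝ) = T ^ (1 / 16 : ℝ) * T ^ (1 / 16 : ℝ) := by
      rw [← Real.rpow_add hT0]; norm_num
    rw [h2]
    nlinarith
  rcases Nat.eq_zero_or_pos N with hN0 | hN1
  · subst hN0
    have h1 : ∀ t, dp 0 b t = 0 := fun t => by simp [dp]
    have h2 : N2 0 b = 0 := by simp [N2]
    simp [h1, h2]
  have hNr : (1 : ℝ) ≤ N := by exact_mod_cast hN1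
  have hlogN : Real.log N ≤ D := by
    have h1 := Real.log_le_log (by linarith) hN
    rw [Real.log_rpow hT0] at h1
    rw [hDd]
    exact h1
  obtain ⟨hA1, hA2⟩ := hM1 D hD1 α N b hN1 hlogN hb
  -- the two polynomials
  obtain ⟨MY, hMY1, hMYl, hY⟩ := IsP_Y hCOF (show 1 ≤ κ by linarith) hD1
  have hV := IsP_V hD1
  have hB := IsP_B (D := D) (by rw [hDexp]; exact hN) hb
  have hYs := IsP_shift hDPM hY α
  have hVs := IsP_shift hDPM hV α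
  have hP0 := IsP_mul hDPM (IsP_mul hDPM hYs hYs) hB
  have hYV := IsP_mul hDPM hYs hVs
  have hP2 := IsP_mul hDPM (IsP_mul hDPM hYV hYV) hB
  have hF1 : 1 ≤ ⌊Real.exp D⌋₊ := by
    rw [Nat.one_le_floor_iff]
    exact Real.one_le_exp (by linarith)
  have hFl : Real.log (⌊Real.exp D⌋₊ : ℝ) ≤ D := by
    have h1 : ((⌊Real.exp D⌋₊ : ℕ) : ℝ) ≤ Real.exp D := Nat.floor_le (Real.exp_pos _).le
    have h2 : (0 : ℝ) < ((⌊Real.exp D⌋₊ : ℕ) : ℝ) := by exact_mod_cast hF1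
    have h3 := Real.log_le_log h2 h1
    rwa [Real.log_exp] at h3
  have hMY0 : (MY : ℝ) ≠ 0 := by
    have : (1 : ℝ) ≤ MY := by exact_mod_cast hMY1
    linarith
  have hF0 : ((⌊Real.exp D⌋₊ : ℕ) : ℝ) ≠ 0 := by
    have : (1 : ℝ) ≤ ((⌊Real.exp D⌋₊ : ℕ) : ℝ) := by exact_mod_cast hF1
    linarith
  have hN0 : (N : ℝ) ≠ 0 := by linarith
  have hl0 : Real.log ((MY * MY * N : ℕ) : ℝ) ≤ 60 * κ * D := by
    push_cast
    rw [Real.log_mul (mul_ne_zero hMY0 hMY0) hN0, Real.log_mul hMY0 hMY0]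
    nlinarith
  have hl2 : Real.log ((MY * ⌊Real.exp D⌋₊ * (MY * ⌊Real.exp D⌋₊) * N : ℕ) : ℝ) ≤ 60 * κ * D := by
    push_cast
    rw [Real.log_mul (mul_ne_zero (mul_ne_zero hMY0 hF0) (mul_ne_zero hMY0 hF0)) hN0,
      Real.log_mul (mul_ne_zero hMY0 hF0) (mul_ne_zero hMY0 hF0), Real.log_mul hMY0 hF0]
    nlinarith
  -- continuity
  have cY : Continuous fun t => Yf D κ (t + α) := (Yf_cont D κ).comp (by fun_prop)
  have cV : Continuous fun t => Vf D (t + α) := (Vf_cont D).comp (by fun_prop)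
  have cB : Continuous (dp N b) := dp_cont N b
  have cz : Continuous fun t : ℝ => zt (t + α) := zt_cont.comp (by fun_prop)
  have cE : Continuous fun t : ℝ => cexp (∑ l ∈ Finset.range (JB D), zf D (ua α) (ua (2 * α)) l t) :=
    Complex.continuous_exp.comp (continuous_finsetSum _ fun l _ => zf_cont D _ _ l)
  have cG : Continuous fun t => ‖Yf D κ (t + α)‖ ^ 4 * (1 + ‖Vf D (t + α)‖ ^ 4) * ‖dp N b t‖ ^ 2 :=
    ((cY.norm.pow 4).mul (continuous_const.add (cV.norm.pow 4))).mul (cB.norm.pow 2)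
  have cEG := (cE.norm.pow 2).mul cG
  have cP0 : Continuous fun t => Yf D κ (t + α) * Yf D κ (t + α) * dp N b t := (cY.mul cY).mul cB
  have cP2 : Continuous fun t => Yf D κ (t + α) * Vf D (t + α) * (Yf D κ (t + α) * Vf D (t + α)) * dp N b t :=
    ((cY.mul cV).mul (cY.mul cV)).mul cB
  have n0 : ∀ t, ‖Yf D κ (t + α) * Yf D κ (t + α) * dp N b t‖ ^ 2 = ‖Yf D κ (t + α)‖ ^ 4 * ‖dp N b t‖ ^ 2 := by
    intro t
    rw [norm_mul, norm_mul]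
    ring
  have n2 : ∀ t, ‖Yf D κ (t + α) * Vf D (t + α) * (Yf D κ (t + α) * Vf D (t + α)) * dp N b t‖ ^ 2 =
      ‖Yf D κ (t + α)‖ ^ 4 * ‖Vf D (t + α)‖ ^ 4 * ‖dp N b t‖ ^ 2 := by
    intro t
    rw [norm_mul, norm_mul, norm_mul]
    ring
  have le0 : ∀ t, ‖Yf D κ (t + α) * Yf D κ (t + α) * dp N b t‖ ^ 2 ≤
      ‖Yf D κ (t + α)‖ ^ 4 * (1 + ‖Vf D (t + α)‖ ^ 4) * ‖dp N b t‖ ^ 2 := by
    intro t
    rw [n0]
    have h1 : 0 ≤ ‖Yf D κ (t + α)‖ ^ 4 * ‖Vf D (t + α)‖ ^ 4 * ‖dp N b t‖ ^ 2 := by positivity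
    nlinarith
  have le2 : ∀ t, ‖Yf D κ (t + α) * Vf D (t + α) * (Yf D κ (t + α) * Vf D (t + α)) * dp N b t‖ ^ 2 ≤
      ‖Yf D κ (t + α)‖ ^ 4 * (1 + ‖Vf D (t + α)‖ ^ 4) * ‖dp N b t‖ ^ 2 := by
    intro t
    rw [n2]
    have h1 : 0 ≤ ‖Yf D κ (t + α)‖ ^ 4 * ‖dp N b t‖ ^ 2 := by positivity
    nlinarith
  have r0 := sec_one hMVL (κ := κ) (δ := δ) hT hθ₀8 hδ2 hDd hCS hw0 (hTS α hα) hg1'
    (Nat.mul_pos (Nat.mul_pos hMY1 hMY1) hN1) hl0 hP0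
    (MB_mono ((cE.norm.pow 2).mul (cP0.norm.pow 2)) cEG (fun t => mul_le_mul_of_nonneg_left (le0 t) (by positivity)) hA1)
    (MB_mono (cP0.norm.pow 2) cG le0 hA2)
  have r2 := sec_one hMVL (κ := κ) (δ := δ) hT hθ₀8 hδ2 hDd hCS hw0 (hTS α hα) hg1'
    (Nat.mul_pos (Nat.mul_pos (Nat.mul_pos hMY1 hF1) (Nat.mul_pos hMY1 hF1)) hN1) hl2 hP2
    (MB_mono ((cE.norm.pow 2).mul (cP2.norm.pow 2)) cEG (fun t => mul_le_mul_of_nonneg_left (le2 t) (by positivity)) hA1)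
    (MB_mono (cP2.norm.pow 2) cG le2 hA2)
  have esum : ∀ t, ‖Yf D κ (t + α)‖ ^ 4 * (1 + ‖Vf D (t + α)‖ ^ 4) * ‖dp N b t‖ ^ 2 =
      ‖Yf D κ (t + α) * Yf D κ (t + α) * dp N b t‖ ^ 2 +
      ‖Yf D κ (t + α) * Vf D (t + α) * (Yf D κ (t + α) * Vf D (t + α)) * dp N b t‖ ^ 2 := by
    intro t
    rw [n0, n2]
    ring
  have cz0 : Continuous fun t => ‖zt (t + α)‖ ^ 2 * ‖Yf D κ (t + α) * Yf D κ (t + α) * dp N b t‖ ^ 2 :=
    (cz.norm.pow 2).mul (cP0.norm.pow 2)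
  have cz2 : Continuous fun t => ‖zt (t + α)‖ ^ 2 *
      ‖Yf D κ (t + α) * Vf D (t + α) * (Yf D κ (t + α) * Vf D (t + α)) * dp N b t‖ ^ 2 :=
    (cz.norm.pow 2).mul (cP2.norm.pow 2)
  constructor
  · have h1 := int_add cz0 cz2 r0.1 r2.1
    have e1 : ∀ t, ‖zt (t + α)‖ ^ 2 * (‖Yf D κ (t + α)‖ ^ 4 * (1 + ‖Vf D (t + α)‖ ^ 4) * ‖dp N b t‖ ^ 2) =
        ‖zt (t + α)‖ ^ 2 * ‖Yf D κ (t + α) * Yf D κ (t + α) * dp N b t‖ ^ 2 + ‖zt (t + α)‖ ^ 2 *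
        ‖Yf D κ (t + α) * Vf D (t + α) * (Yf D κ (t + α) * Vf D (t + α)) * dp N b t‖ ^ 2 := by
      intro t
      rw [esum, mul_add]
    simp only [e1]
    refine h1.trans (le_of_eq ?_)
    ring
  · have h1 := int_add (cP0.norm.pow 2) (cP2.norm.pow 2) r0.2 r2.2
    simp only [esum]
    refine h1.trans ?_
    calc 4 * Real.exp (C * Real.sqrt D) * (T * N2 N b) + 4 * Real.exp (C * Real.sqrt D) * (T * N2 N b)
        = 8 * Real.exp (C * Real.sqrt D) * (T * N2 N b) := by ring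
      _ ≤ T ^ (1 / 8 : ℝ) * (T * N2 N b) := mul_le_mul_of_nonneg_right hg2' (by positivity)

end

end Pool.Agent.Run7.h74.DW.SEC
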