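import Pool.Agent.Run7.h74.DW.Iface

/-!
# Project DW (helper74), piece WE (helper304): the weight against an exponential
-/

set_option autoImplicit false

namespace Pool.Agent.Run7.h74.DW.WE

open MeasureTheory Complex
open Pool.Agent.Run7.h74.DW

/-- WE -/
theorem t_WE : S_WE := by
  constructor
  · intro T a b lam hT hA hlam
    obtain ⟨hA1, hA2, hA3⟩ := hA
    have hd : 0 < b - a := by linarith
    have hd2 : T / 2 ≤ b - a := by linarith
    have hT0 : 0 < T := by linarith
    have hl2 : 0 < lam ^ 2 := by positivity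
    obtain ⟨μ, hμ⟩ : ∃ μ : ℂ, μ = I * lam := ⟨_, rfl⟩
    have hμ0 : μ ≠ 0 := by
      rw [hμ]
      exact mul_ne_zero I_ne_zero (by exact_mod_cast hlam)
    have hdc : ((b : ℂ) - a) ≠ 0 := by
      have : ((b - a : ℝ) : ℂ) ≠ 0 := by exact_mod_cast hd.ne'
      simpa using this
    -- the antiderivative
    have hder : ∀ t : ℝ, HasDerivAt (fun t : ℝ => cexp (μ * t) * ((4 * ((t : ℂ) - a) * (b - t) / (b - a) ^ 2) / μ -
        (4 * ((a : ℂ) + b - 2 * t) / (b - a) ^ 2) / μ ^ 2 + (-8 / ((b : ℂ) - a) ^ 2) / μ ^ 3))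
        ((wt a b t : ℂ) * cexp (I * (t * lam : ℝ))) t := by
      intro t
      have h0 : HasDerivAt (fun t : ℝ => (t : ℂ)) 1 t := Complex.ofRealCLM.hasDerivAt
      have h1 : HasDerivAt (fun t : ℝ => cexp (μ * t)) (cexp (μ * t) * (μ * 1)) t := (h0.const_mul μ).cexp
      have h2 : HasDerivAt (fun t : ℝ => (4 * ((t : ℂ) - a) * (b - t) / (b - a) ^ 2) / μ)
          (((4 * 1) * ((b : ℂ) - t) + 4 * ((t : ℂ) - a) * (-1)) / (b - a) ^ 2 / μ) t := by
        have h3 := (((h0.sub_const (a : ℂ)).const_mul 4).mul (h0.const_sub (b : ℂ))).div_const (((b : ℂ) - a) ^ 2)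
        exact h3.div_const μ
      have h4 : HasDerivAt (fun t : ℝ => (4 * ((a : ℂ) + b - 2 * t) / (b - a) ^ 2) / μ ^ 2)
          ((4 * (-(2 * 1)) / (b - a) ^ 2) / μ ^ 2) t := by
        have h3 := (((h0.const_mul 2).const_sub ((a : ℂ) + b)).const_mul 4).div_const (((b : ℂ) - a) ^ 2)
        exact h3.div_const (μ ^ 2)
      have h5 := h1.mul ((h2.sub h4).add_const ((-8 / ((b : ℂ) - a) ^ 2) / μ ^ 3))
      refine h5.congr_deriv ?_
      have e1 : cexp (I * (t * lam : ℝ)) = cexp (μ * t) := by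
        rw [hμ]; congr 1; push_cast; ring
      rw [e1]
      unfold wt
      push_cast
      simp only [Pi.sub_apply]
      field_simp
      ring
    have hint : ∫ t in a..b, (wt a b t : ℂ) * cexp (I * (t * lam : ℝ)) =
        (4 / ((b : ℂ) - a)) / μ ^ 2 * (cexp (μ * b) + cexp (μ * a)) +
          (-8 / ((b : ℂ) - a) ^ 2) / μ ^ 3 * (cexp (μ * b) - cexp (μ * a)) := by
      rw [intervalIntegral.integral_eq_sub_of_hasDerivAt (fun t _ => hder t)]
      · field_simp
        ring
      · apply Continuous.intervalIntegrable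
        unfold wt
        fun_prop
    rw [hint]
    have hnμ : ‖μ‖ = |lam| := by
      rw [hμ, norm_mul, norm_I, one_mul, Complex.norm_real, Real.norm_eq_abs]
    have hμ2 : ‖μ ^ 2‖ = lam ^ 2 := by rw [norm_pow, hnμ, sq_abs]
    have hnd : ‖((b : ℂ) - a)‖ = b - a := by
      rw [← Complex.ofReal_sub, Complex.norm_real, Real.norm_of_nonneg hd.le]
    have hex : ∀ t : ℝ, ‖cexp (μ * t)‖ = 1 := by
      intro t
      rw [hμ, show I * (lam : ℂ) * t = ((lam * t : ℝ) : ℂ) * I by push_cast; ring, norm_exp_ofReal_mul_I]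
    have hdiff : ‖cexp (μ * b) - cexp (μ * a)‖ ≤ |lam| * (b - a) := by
      have e2 : cexp (μ * b) - cexp (μ * a) = cexp (μ * a) * (cexp (I * ((lam * (b - a) : ℝ) : ℂ)) - 1) := by
        rw [mul_sub, mul_one, ← Complex.exp_add, hμ]
        congr 2
        push_cast
        ring
      rw [e2, norm_mul, hex, one_mul]
      refine (Real.norm_exp_I_mul_ofReal_sub_one_le).trans ?_
      rw [Real.norm_eq_abs, abs_mul, abs_of_pos hd]
    have hla : 0 < |lam| := abs_pos.2 hlam
    have h1 : ‖(4 / ((b : ℂ) - a)) / μ ^ 2 * (cexp (μ * b) + cexp (μ * a))‖ ≤ 8 / ((b - a) * lam ^ 2) := by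
      rw [norm_mul, norm_div, norm_div, hμ2, hnd]
      have h2 : ‖cexp (μ * b) + cexp (μ * a)‖ ≤ 2 := by
        refine (norm_add_le _ _).trans ?_
        rw [hex, hex]; norm_num
      have h3 : ‖(4 : ℂ)‖ = 4 := by norm_num
      rw [h3]
      calc 4 / (b - a) / lam ^ 2 * ‖cexp (μ * b) + cexp (μ * a)‖ ≤ 4 / (b - a) / lam ^ 2 * 2 := by gcongr
        _ = 8 / ((b - a) * lam ^ 2) := by field_simp; norm_num
    have h2 : ‖(-8 / ((b : ℂ) - a) ^ 2) / μ ^ 3 * (cexp (μ * b) - cexp (μ * a))‖ ≤ 8 / ((b - a) * lam ^ 2) := by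
      rw [norm_mul, norm_div, norm_div, norm_pow, norm_pow, hnd, hnμ]
      have h3 : ‖(-8 : ℂ)‖ = 8 := by norm_num
      rw [h3]
      calc 8 / (b - a) ^ 2 / |lam| ^ 3 * ‖cexp (μ * b) - cexp (μ * a)‖ ≤
          8 / (b - a) ^ 2 / |lam| ^ 3 * (|lam| * (b - a)) := by gcongr
        _ = 8 / ((b - a) * |lam| ^ 2) := by field_simp
        _ = 8 / ((b - a) * lam ^ 2) := by rw [sq_abs]
    refine (norm_add_le _ _).trans ((add_le_add h1 h2).trans ?_)
    rw [← add_div, div_le_div_iff₀ (by positivity) (by positivity)]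
    nlinarith [mul_le_mul_of_nonneg_right hd2 hl2.le]
  · intro T a b hT hA
    obtain ⟨hA1, hA2, hA3⟩ := hA
    have hd : 0 < b - a := by linarith
    have hder : ∀ t : ℝ, HasDerivAt (fun t : ℝ => 4 / (b - a) ^ 2 * ((t - a) ^ 2 / 2 * (b - a) - (t - a) ^ 3 / 3))
        (wt a b t) t := by
      intro t
      have h0 : HasDerivAt (fun t : ℝ => t - a) 1 t := (hasDerivAt_id t).sub_const a
      have h1 := ((((h0.pow 2).div_const 2).mul_const (b - a)).sub ((h0.pow 3).div_const 3)).const_mul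
        (4 / (b - a) ^ 2)
      refine h1.congr_deriv ?_
      unfold wt
      field_simp
      push_cast
      ring
    rw [intervalIntegral.integral_eq_sub_of_hasDerivAt (fun t _ => hder t)]
    · have := hd.ne'
      field_simp
      ring
    · apply Continuous.intervalIntegrable
      unfold wt
      fun_prop

end Pool.Agent.Run7.h74.DW.WE
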