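import Pool.Agent.Run7.h74.DW.Iface

set_option autoImplicit false

/-! Project DW (helper74), piece YB: the product `Y B` is a Dirichlet polynomial coprime to the primes of `V`. -/

namespace Pool.Agent.Run7.h74.DW.YB

open Filter Topology MeasureTheory Complex
open Pool.Agent.Q97.UM
open Pool.Agent.Run7.h74.DW

noncomputable section

/-- all prime factors at most `X` -/
def Sm (X : ℝ) (n : ℕ) : Prop := ∀ p : ℕ, p.Prime → p ∣ n → (p : ℝ) ≤ X

/-- the support of `q` consists of numbers with the property `Sm X` -/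
def SF (X : ℝ) (q : ℕ → ℂ) : Prop := ∀ n, q n ≠ 0 → Sm X n

theorem Sm_one (X : ℝ) : Sm X 1 := by
  intro p hp h
  exact absurd (Nat.dvd_one.1 h) hp.one_lt.ne'

theorem Sm_mul {X : ℝ} {a b : ℕ} (ha : Sm X a) (hb : Sm X b) : Sm X (a * b) := by
  intro p hp h
  rcases (hp.dvd_mul).1 h with h | h
  · exact ha p hp h
  · exact hb p hp h

theorem cv_supp {a b : ℕ → ℂ} {n : ℕ} (h : cv a b n ≠ 0) : ∃ d e : ℕ, d * e = n ∧ a d ≠ 0 ∧ b e ≠ 0 := by
  unfold cv at h
  obtain ⟨p, hp, hne⟩ := Finset.exists_ne_zero_of_sum_ne_zero h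
  exact ⟨p.1, p.2, (Nat.mem_divisorsAntidiagonal.1 hp).1, left_ne_zero_of_mul hne, right_ne_zero_of_mul hne⟩

theorem SF_cv {X : ℝ} {a b : ℕ → ℂ} (ha : SF X a) (hb : SF X b) : SF X (cv a b) := by
  intro n hn
  obtain ⟨d, e, rfl, h1, h2⟩ := cv_supp hn
  exact Sm_mul (ha d h1) (hb e h2)

theorem SF_one (X : ℝ) : SF X (fun n => if n = 1 then 1 else 0) := by
  intro n hn
  by_cases h : n = 1
  · rw [h]; exact Sm_one X
  · simp [h] at hn

theorem SF_cvp {X : ℝ} {q : ℕ → ℂ} (hq : SF X q) (r : ℕ) : SF X (cvp q r) := by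
  induction r with
  | zero => exact SF_one X
  | succ r ih => exact SF_cv hq ih

theorem SF_te {X : ℝ} {q : ℕ → ℂ} (hq : SF X q) (R : ℕ) : SF X (te q R) := by
  intro n hn
  unfold te at hn
  obtain ⟨r, -, hr⟩ := Finset.exists_ne_zero_of_sum_ne_zero hn
  exact SF_cvp hq r n (fun h => hr (by rw [h, zero_div]))

theorem XB_anti {D : ℝ} (hD : 0 ≤ D) {i j : ℕ} (h : i ≤ j) : XB D j ≤ XB D i := by
  unfold XB
  apply Real.exp_le_exp.2
  apply mul_le_mul_of_nonneg_left _ hD
  apply Real.exp_le_exp.2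
  have : (i : ℝ) ≤ j := by exact_mod_cast h
  linarith

theorem SF_qb {D : ℝ} (a a2 : ℕ → ℂ) (j : ℕ) : SF (XB D j) (qb D a a2 j) := by
  intro n hn p hp hpn
  have hPB : ∀ m : ℕ, m ∈ PB D j → m.Prime ∧ (m : ℝ) ≤ XB D j := by
    intro m hm
    unfold PB at hm
    rw [Finset.mem_filter, Finset.mem_Icc] at hm
    exact ⟨hm.2.1, (Nat.le_floor_iff (Real.exp_pos _).le).1 hm.1.2⟩
  by_cases h1 : n ∈ PB D j
  · obtain ⟨h2, h3⟩ := hPB n h1
    rw [(Nat.prime_dvd_prime_iff_eq hp h2).1 hpn]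
    exact h3
  · by_cases h2 : Nat.sqrt n ∈ PB D j ∧ n = Nat.sqrt n ^ 2
    · obtain ⟨h3, h4⟩ := hPB _ h2.1
      have h5 : p ∣ Nat.sqrt n := by
        rw [h2.2] at hpn
        exact hp.dvd_of_dvd_pow hpn
      rw [(Nat.prime_dvd_prime_iff_eq hp h3).1 h5]
      exact h4
    · exfalso
      apply hn
      unfold qb
      rw [if_neg h1, if_neg h2, add_zero]

theorem SF_ebk {D : ℝ} (hD : 0 ≤ D) (κ : ℝ) (a a2 : ℕ → ℂ) (j₀ k : ℕ) : SF (XB D j₀) (ebk D κ a a2 j₀ k) := by
  induction k with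
  | zero => exact SF_one _
  | succ k ih =>
    refine SF_cv ?_ ih
    refine SF_te ?_ _
    intro n hn p hp hpn
    exact (SF_qb a a2 (j₀ + k) n hn p hp hpn).trans (XB_anti hD (by omega))

theorem N2_nonneg (M : ℕ) (c : ℕ → ℂ) : 0 ≤ N2 M c := by
  unfold N2
  exact Finset.sum_nonneg fun n _ => by positivity

theorem t_YB : J_YB := by
  intro hDPM hCOF κ D hκ hD N b hN1 hNX hb
  have hD0 : 0 ≤ D := by linarith
  constructor
  · obtain ⟨h1, h2, -⟩ := hCOF κ D hκ hD (fun _ => -1 / 2) (fun _ => -1 / 2) (fun _ => 0) (fun _ => 0) 4 0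
    refine ⟨M9 D κ * N, cv (ebk D κ (fun _ => -1 / 2) (fun _ => -1 / 2) 4 (JB D - 4)) b, ?_, ?_, ?_, ?_⟩
    · have h3 : 1 ≤ M9 D κ := by
        unfold M9
        rw [Nat.one_le_floor_iff]
        exact Real.one_le_exp (by positivity)
      exact Nat.mul_pos h3 hN1
    · push_cast
      have h3 : ((M9 D κ : ℕ) : ℝ) ≤ Real.exp (26 * κ * D) := Nat.floor_le (Real.exp_pos _).le
      have h4 : Real.exp (26 * κ * D) ≤ Real.exp (27 * κ * D) := by
        apply Real.exp_le_exp.2
        have : 0 ≤ κ * D := by positivity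
        linarith
      have h5 : (0 : ℝ) ≤ N := Nat.cast_nonneg N
      exact mul_le_mul_of_nonneg_right (h3.trans h4) h5
    · intro n hn
      obtain ⟨d, e, rfl, h3, h4⟩ := cv_supp hn
      obtain ⟨h5, h6⟩ := h1 d h3
      obtain ⟨h7, h8⟩ := hb e h4
      refine ⟨Nat.mul_pos h5 h7, Nat.mul_le_mul h6 h8, ?_⟩
      intro p hp hpn
      unfold PT at hp
      rw [Finset.mem_filter, Finset.mem_Icc] at hp
      obtain ⟨⟨hp1, hp2⟩, hp3, hp4⟩ := hp
      rcases (hp3.dvd_mul).1 hpn with h | h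
      · have := SF_ebk hD0 κ _ _ 4 _ d h3 p hp3 h
        linarith
      · have h9 : (p : ℝ) ≤ e := by exact_mod_cast Nat.le_of_dvd h7 h
        have h10 : (e : ℝ) ≤ N := by exact_mod_cast h8
        linarith
    · intro s
      unfold Yf
      rw [← h2 s]
      rw [hDPM.1]
      · intro n hn
        by_contra h
        have := (h1 n h).2
        omega
      · intro n hn
        by_contra h
        have := (hb n h).2
        omega
  · -- second part
    have hval : ∀ n ∈ Finset.Icc 1 N, cv (vP (PT D)) b n = b n := by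
      intro n hn
      obtain ⟨hn1, hnN⟩ := Finset.mem_Icc.1 hn
      unfold cv
      rw [Finset.sum_eq_single (1, n)]
      · simp [vP]
      · intro x hx hne
        obtain ⟨hx1, hx2⟩ := Nat.mem_divisorsAntidiagonal.1 hx
        have hx3 : x.1 ≠ 1 := by
          intro h
          apply hne
          rw [h, one_mul] at hx1
          exact Prod.ext h hx1
        have hx4 : x.1 ∉ PT D := by
          intro h
          unfold PT at h
          rw [Finset.mem_filter] at h
          have h5 : x.1 ≤ n := Nat.le_of_dvd hn1 ⟨x.2, hx1.symm⟩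
          have h6 : (x.1 : ℝ) ≤ N := by exact_mod_cast h5.trans hnN
          have h7 := h.2.2
          linarith
        unfold vP
        rw [if_neg hx3, if_neg hx4, zero_mul]
      · intro h
        exfalso
        apply h
        rw [Nat.mem_divisorsAntidiagonal]
        exact ⟨one_mul n, by omega⟩
    have hle : N ≤ ⌊Real.exp D⌋₊ * N := by
      have h3 : 1 ≤ ⌊Real.exp D⌋₊ := by
        rw [Nat.one_le_floor_iff]
        exact Real.one_le_exp hD0
      exact Nat.le_mul_of_pos_left N h3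
    unfold N2
    calc ∑ n ∈ Finset.Icc 1 N, ‖b n‖ ^ 2 / (n : ℝ) = ∑ n ∈ Finset.Icc 1 N, ‖cv (vP (PT D)) b n‖ ^ 2 / (n : ℝ) :=
          Finset.sum_congr rfl fun n hn => by rw [hval n hn]
      _ ≤ ∑ n ∈ Finset.Icc 1 (⌊Real.exp D⌋₊ * N), ‖cv (vP (PT D)) b n‖ ^ 2 / (n : ℝ) := by
          apply Finset.sum_le_sum_of_subset_of_nonneg (Finset.Icc_subset_Icc le_rfl hle)
          intro n _ _
          positivity

end

end Pool.Agent.Run7.h74.DW.YB
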