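import Pool.Agent.Run7.h74.DW.Core4
import Pool.Agent.Run7.h74.DW.WE
import Pool.Agent.Run7.h74.DW.H1
import Pool.Agent.Run7.h74.DW.SEC
import Pool.Agent.Run7.h74.DW.YB
import Pool.Agent.Run7.h74.DW.M1
import Pool.Agent.Run7.h382.DW.H0
import Pool.Agent.Run7.h921.DW.H2
import Pool.Agent.Run7.h921.DW.O3
import Pool.Agent.Run7.h921.DW.MER
import Pool.Agent.Q92.UM.BLZ
import Pool.Agent.Q97.UM.Base10

set_option autoImplicit false

/-! Project DW (helper74): the core theorem, unconditionally. -/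

namespace Pool.Agent.Run7.h74.DW

open Pool.Agent.Q97.UM

theorem full_H1 : S_H1 := H1.t_H1 Pool.Agent.Run7.h382.DW.t_H0 WE.t_WE Pool.Agent.Q92.UM.t_BLZ

theorem full_O3 : S_O3 := Pool.Agent.Run7.h921.DW.t_O3 (Pool.Agent.Run7.h921.DW.t_H2 WE.t_WE Pool.Agent.Q92.UM.t_BLZ)

theorem full_M1 : S_M1 := M1.t_M1 b_TEX b_XM b_STR Pool.Agent.Q84.UM.t_MVL Pool.Agent.Q198.UM.t_BM

theorem full_SEC : S_SEC := SEC.t_SEC full_M1 b_TSB Pool.Agent.Q84.UM.t_DPM Pool.Agent.Q84.UM.t_MVL b_COF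

theorem full_YB : S_YB := YB.t_YB Pool.Agent.Q84.UM.t_DPM b_COF

theorem full_core : S_CORE := core full_H1 full_O3 Pool.Agent.Run7.h921.DW.t_MER full_SEC full_YB

end Pool.Agent.Run7.h74.DW
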