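import Pool.Agent.Run7.h74.DW.Odd

set_option autoImplicit false

/-!
Project DW (helper74): the core theorem: every arc of directions carries a positive share of every Dirichlet polynomial.
-/

namespace Pool.Agent.Run7.h74.DW

open Finset Filter Topology MeasureTheory Complex
open Pool.Agent.Q97.UM
open Pool.Agent.Run7.h74.SC (ch ph Ys Ye Yo Qo ge go mc)

noncomputable section

/-- the sector of directions -/
def Sec (ρ : ℝ) (ω : ℂ) : Set ℝ := {s | ‖zt s - ω * (‖zt s‖ : ℂ)‖ < ρ * ‖zt s‖}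

lemma Sec_meas (ρ : ℝ) (ω : ℂ) : MeasurableSet (Sec ρ ω) := by
  have h := zt_cont
  refine measurableSet_lt ?_ ?_
  · exact (Continuous.norm (by fun_prop)).measurable
  · exact (continuous_const.mul h.norm).measurable

lemma zt_ph (s : ℝ) : zt s = ph s * starRingEnd ℂ (zt s) := Pool.Agent.Run7.h74.SC.zeta_ph s

lemma wt_nonneg {a b t : ℝ} (h1 : a ≤ t) (h2 : t ≤ b) : 0 ≤ wt a b t := by
  unfold wt
  have h3 : 0 ≤ t - a := by linarith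
  have h4 : 0 ≤ b - t := by linarith
  positivity

lemma wt_le {a b t : ℝ} (h : a < b) : wt a b t ≤ 1 := by
  unfold wt
  have h3 : 0 < (b - a) ^ 2 := by
    have : 0 < b - a := by linarith
    positivity
  rw [div_le_one h3]
  nlinarith [sq_nonneg (2 * t - a - b)]

/-- the even part at points where zeta does not vanish -/
lemma Ye_lower {c η : ℝ} {N : ℕ} {e : ℕ → ℝ}
    (h : ∀ x ∈ Set.Icc (-1 : ℝ) 1, |(∑ i ∈ range N, e i * x ^ (2 * i)) - ge c x| ≤ η) {s : ℝ} (hz : zt s ≠ 0)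
    {ω : ℂ} (hω : ‖ω‖ = 1) :
    ‖zt s‖ * max (Ee e N (starRingEnd ℂ ω ^ 2 * ph s) - η) 0 ≤ Ye c ω (zt s) := by
  set v := starRingEnd ℂ ω * zt s / (‖zt s‖ : ℂ) with hv
  have hv1 : ‖v‖ = 1 := Pool.Agent.Run7.h74.SC.v_norm hz hω
  have hv2 : v ^ 2 = starRingEnd ℂ ω ^ 2 * ph s := Pool.Agent.Run7.h74.SC.v_sq hz (zt_ph s)
  have hvr : v.re = (starRingEnd ℂ ω * zt s).re / ‖zt s‖ := Pool.Agent.Run7.h74.SC.v_re _ _
  have h1 := abs_le.1 (Ee_near h hv1)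
  rw [hv2] at h1
  have h2 : Ye c ω (zt s) = ‖zt s‖ * ge c v.re := by
    unfold Ye ge
    rw [Pool.Agent.Run7.h74.SC.Ys_eq hz, Pool.Agent.Run7.h74.SC.Ys_neg_eq hz, ← hvr]
    ring
  rw [h2]
  refine mul_le_mul_of_nonneg_left (max_le ?_ (ge_nonneg _ _)) (norm_nonneg _)
  linarith [h1.2]

lemma Ye_cont (c : ℝ) (ω : ℂ) : Continuous fun s => Ye c ω (zt s) := by
  have h := zt_cont
  unfold Ye Ys
  fun_prop

lemma Yo_cont (c : ℝ) (ω : ℂ) : Continuous fun s => Yo c ω (zt s) := by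
  have h := zt_cont
  unfold Yo Ys
  fun_prop

lemma Ys_cont (c : ℝ) (ω : ℂ) : Continuous fun s => Ys c ω (zt s) := by
  have h := zt_cont
  unfold Ys
  fun_prop

lemma Ef_cont (D κ : ℝ) (a a2 : ℕ → ℂ) (j : ℕ) : Continuous (Ef D κ a a2 j) := by
  unfold Ef TEx
  have h : ∀ l, Continuous (zf D a a2 l) := fun l => dp_cont _ _
  fun_prop

lemma Yf_cont (D κ : ℝ) : Continuous (Yf D κ) := Ef_cont _ _ _ _ _

lemma Vf_cont (D : ℝ) : Continuous (Vf D) := dp_cont _ _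

/-- the statement of the core theorem -/
def S_CORE : Prop := ∀ ρ : ℝ, 0 < ρ → ρ ≤ 1 → ∃ θ c : ℝ, 0 < θ ∧ θ ≤ 1 / 4 ∧ 0 < c ∧ ∀ᶠ T : ℝ in atTop, ∀ α : ℝ, |α| ≤ T / 2 →
  ∀ N : ℕ, (N : ℝ) ≤ T ^ θ → ∀ b : ℕ → ℂ, (∀ n, b n ≠ 0 → 1 ≤ n ∧ n ≤ N) → ∀ ω : ℂ, ‖ω‖ = 1 →
    c * (T * N2 N b) ≤ ∫ t in Set.Ioc T (2 * T) ∩ {t : ℝ | t + α ∈ Sec ρ ω}, ‖dp N b t‖ ^ 2

/-- twisting the coefficients -/
def tw (α : ℝ) (b : ℕ → ℂ) (n : ℕ) : ℂ := b n * (n : ℂ) ^ (α * I)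

lemma dp_tw (N : ℕ) (b : ℕ → ℂ) (α t : ℝ) : dp N (tw α b) (t + α) = dp N b t := by
  have h := (Pool.Agent.Q84.UM.t_DPM.2.1 N b (t + α) α).1
  rw [add_sub_cancel_right] at h
  exact h.symm

lemma N2_tw (N : ℕ) (b : ℕ → ℂ) (α : ℝ) : N2 N (tw α b) = N2 N b := (Pool.Agent.Q84.UM.t_DPM.2.1 N b 0 α).2

lemma tw_supp {N : ℕ} {b : ℕ → ℂ} (hb : ∀ n, b n ≠ 0 → 1 ≤ n ∧ n ≤ N) (α : ℝ) : ∀ n, tw α b n ≠ 0 → 1 ≤ n ∧ n ≤ N :=
  fun n hn => hb n fun h => hn (by unfold tw; rw [h, zero_mul])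

end

end Pool.Agent.Run7.h74.DW
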