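import Pool.Agent.Run7.h74.DW.LinM2
import Pool.Agent.Run7.h74.DW.Core

set_option autoImplicit false

/-!
Project DW (helper74): the final theorem, from the core theorem.
-/

open Filter Topology MeasureTheory Complex
open Pool.Agent.Q97.UM

namespace Pool.Agent.Run7.h74.DW

open Run7.h311.CM
open Pool.Agent.Q98.UM (cv_supp supp_zero)

lemma cover {T : ℝ} {n : ℕ} (α : Fin n → ℝ) {S G : Set ℝ} (hS : MeasurableSet S) (hG : MeasurableSet G) {F : ℝ → ℝ}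
    (hFI : IntegrableOn F (Set.Ioc T (2 * T))) (hF0 : ∀ t, 0 ≤ F t) :
    ∫ t in Set.Ioc T (2 * T) ∩ S, F t ≤ (∫ t in (Set.Ioc T (2 * T) ∩ {t : ℝ | ∀ j, t + α j ∈ G}) ∩ S, F t) +
      ∑ j, ∫ t in Set.Ioc T (2 * T) ∩ {t : ℝ | t + α j ∉ G}, F t := by
  set R : Set ℝ := Set.Ioc T (2 * T) ∩ {t : ℝ | ∀ j, t + α j ∈ G} with hR
  have hRm : MeasurableSet R := by
    refine measurableSet_Ioc.inter ?_
    have e : {t : ℝ | ∀ j, t + α j ∈ G} = ⋂ j, (fun t => t + α j) ⁻¹' G := by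
      ext t
      simp
    rw [e]
    exact MeasurableSet.iInter fun j => (measurable_add_const (α j)) hG
  set U : Fin n → Set ℝ := fun j => Set.Ioc T (2 * T) ∩ {t : ℝ | t + α j ∉ G} with hU
  have hUm : ∀ j, MeasurableSet (U j) := fun j =>
    measurableSet_Ioc.inter ((measurable_add_const (α j)) hG).compl
  have hcov : ∀ t ∈ Set.Ioc T (2 * T), S.indicator F t ≤ (R ∩ S).indicator F t + ∑ j, (U j).indicator F t := by
    intro t ht
    have hnn : ∀ j ∈ (Finset.univ : Finset (Fin n)), 0 ≤ (U j).indicator F t := fun j _ =>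
      Set.indicator_nonneg (fun t _ => hF0 t) t
    have h3 : 0 ≤ (R ∩ S).indicator F t := Set.indicator_nonneg (fun t _ => hF0 t) t
    have hsum := Finset.sum_nonneg hnn
    by_cases hs : t ∈ S
    · rw [Set.indicator_of_mem hs]
      by_cases h : ∀ j, t + α j ∈ G
      · have : t ∈ R ∩ S := ⟨⟨ht, h⟩, hs⟩
        rw [Set.indicator_of_mem this]
        linarith
      · push Not at h
        obtain ⟨j, hj⟩ := h
        have hj2 : t ∈ U j := ⟨ht, hj⟩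
        have h2 := Finset.single_le_sum hnn (Finset.mem_univ j)
        rw [Set.indicator_of_mem hj2] at h2
        linarith
    · rw [Set.indicator_of_notMem hs]
      linarith
  have i0 : IntegrableOn (S.indicator F) (Set.Ioc T (2 * T)) := Integrable.indicator hFI hS
  have i1 : IntegrableOn ((R ∩ S).indicator F) (Set.Ioc T (2 * T)) := Integrable.indicator hFI (hRm.inter hS)
  have i2 : ∀ j, IntegrableOn ((U j).indicator F) (Set.Ioc T (2 * T)) := fun j => Integrable.indicator hFI (hUm j)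
  have i3 : IntegrableOn (fun t => ∑ j, (U j).indicator F t) (Set.Ioc T (2 * T)) :=
    integrable_finsetSum _ fun j _ => i2 j
  calc ∫ t in Set.Ioc T (2 * T) ∩ S, F t = ∫ t in Set.Ioc T (2 * T), S.indicator F t := by
        rw [setIntegral_indicator hS]
    _ ≤ ∫ t in Set.Ioc T (2 * T), ((R ∩ S).indicator F t + ∑ j, (U j).indicator F t) :=
        setIntegral_mono_on i0 (i1.add i3) measurableSet_Ioc hcov
    _ = (∫ t in Set.Ioc T (2 * T), (R ∩ S).indicator F t) + ∑ j, ∫ t in Set.Ioc T (2 * T), (U j).indicator F t := by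
        rw [integral_add i1 i3, integral_finsetSum _ fun j _ => i2 j]
    _ = _ := by
        rw [setIntegral_indicator (hRm.inter hS), Set.inter_eq_self_of_subset_right
          (Set.inter_subset_left.trans Set.inter_subset_left)]
        congr 1
        refine Finset.sum_congr rfl fun j _ => ?_
        rw [setIntegral_indicator (hUm j), Set.inter_eq_self_of_subset_right Set.inter_subset_left]

/-- the data of the final theorem -/
structure FD (A ε ρ δ κ W c C T : ℝ) : Prop where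
  neg : ∀ α : ℝ, |α| ≤ T / 2 → ∀ N : ℕ, (N : ℝ) ≤ T ^ δ → ∀ b : ℕ → ℂ, (∀ n, b n ≠ 0 → 1 ≤ n ∧ n ≤ N) →
    ∫ t in Set.Ioc T (2 * T) ∩ {t : ℝ | t + α ∉ GGL δ κ A W T}, ‖dp N b t‖ ^ 2 ≤ ε * (T * N2 N b)
  supp : ∀ (n : ℕ) (k α : Fin n → ℝ), ∀ m, ec δ κ T k α m ≠ 0 → 1 ≤ m ∧ m ≤ M9 (δ * Real.log T) κ
  ord : ∀ (n : ℕ) (k α : Fin n → ℝ), ∑ j, |k j| ≤ A →
    c * Real.exp (QF' k α T) ≤ N2 (M9 (δ * Real.log T) κ) (ec δ κ T k α) ∧
      N2 (M9 (δ * Real.log T) κ) (ec δ κ T k α) ≤ C * Real.exp (QF' k α T)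
  arcs : ∀ N : ℕ, (N : ℝ) ≤ T ^ δ → ∀ b : ℕ → ℂ, (∀ n, b n ≠ 0 → 1 ≤ n ∧ n ≤ N) → ∀ (β : ℝ) (ω : ℂ), |β| ≤ T / 2 → ‖ω‖ = 1 →
    c * (T * N2 N b) ≤ ∫ t in Set.Ioc T (2 * T) ∩ {t : ℝ | t + β ∈ GGL δ κ A W T ∧ t + β ∈ Sec ρ ω}, ‖dp N b t‖ ^ 2
  low : ∀ (n : ℕ) (k α : Fin n → ℝ), (n : ℝ) ≤ A → ∑ j, |k j| ≤ A → (∀ j, |α j| ≤ T / 2) →
    ∀ N : ℕ, (N : ℝ) ≤ T ^ δ → ∀ b : ℕ → ℂ, (∀ n, b n ≠ 0 → 1 ≤ n ∧ n ≤ N) → ∀ (β : ℝ) (ω : ℂ), |β| ≤ T / 2 → ‖ω‖ = 1 →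
    c * (T * N2 (M9 (δ * Real.log T) κ * N) (cv (ec δ κ T k α) b)) ≤
      ∫ t in SG δ κ A W T α ∩ {t : ℝ | t + β ∈ GGL δ κ A W T ∧ t + β ∈ Sec ρ ω},
        (∏ j, ‖zt (t + α j)‖ ^ (2 * k j)) * ‖dp N b t‖ ^ 2
  upp : ∀ (n : ℕ) (k α : Fin n → ℝ), ∑ j, |k j| ≤ A →
    ∀ N : ℕ, (N : ℝ) ≤ T ^ δ → ∀ b : ℕ → ℂ, (∀ n, b n ≠ 0 → 1 ≤ n ∧ n ≤ N) →
    ∫ t in SG δ κ A W T α, (∏ j, ‖zt (t + α j)‖ ^ (2 * k j)) * ‖dp N b t‖ ^ 2 ≤
      C * (T * N2 (M9 (δ * Real.log T) κ * N) (cv (ec δ κ T k α) b))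
  int : ∀ (n : ℕ) (k α : Fin n → ℝ), ∑ j, |k j| ≤ A →
    ∀ N : ℕ, (N : ℝ) ≤ T ^ δ → ∀ b : ℕ → ℂ, (∀ n, b n ≠ 0 → 1 ≤ n ∧ n ≤ N) →
    IntegrableOn (fun t => (∏ j, ‖zt (t + α j)‖ ^ (2 * k j)) * ‖dp N b t‖ ^ 2) (SG δ κ A W T α)

theorem fin_main (hcore : S_CORE) (A ε ρ : ℝ) (hA : 1 ≤ A) (hε : 0 < ε) (hρ : 0 < ρ) (hρ1 : ρ ≤ 1) :
    ∃ δ κ W c C : ℝ, 0 < δ ∧ 4 ≤ κ ∧ 28 * κ * δ ≤ 1 / 8 ∧ 0 < W ∧ 0 < c ∧ 0 < C ∧
      ∀ᶠ T : ℝ in atTop, FD A ε ρ δ κ W c C T := by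
  obtain ⟨θ, c₀, hθ, hθ1, hc₀, hcore⟩ := hcore ρ hρ hρ1
  obtain ⟨δ, κ, W, c, C, hδ, hκ, hκδ, hκθ, hW, hc, hC, h⟩ := lin_main2 A (min ε (c₀ / (4 * A))) θ hA (by positivity) hθ
  refine ⟨δ, κ, W, min (min c (c₀ / 2)) (c * (c₀ / 2)), 2 * C, hδ, hκ, hκδ, hW, by positivity, by positivity, ?_⟩
  filter_upwards [h, hcore, eventually_ge_atTop 16] with T hz hcore hT
  have hT0 : 0 < T := by linarith
  have hT1 : 1 ≤ T := by linarith
  have hA0 : 0 < A := by linarith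
  have hmono : ∀ {x y : ℝ}, x ≤ y → T ^ x ≤ T ^ y := fun h => Real.rpow_le_rpow_of_exponent_le hT1 h
  set M := M9 (δ * Real.log T) κ with hM
  have hML : (M : ℝ) ≤ T ^ (26 * κ * δ) := M9_le hT0 (by linarith) hδ.le
  have hMN : ∀ N : ℕ, (N : ℝ) ≤ T ^ δ → ((M * N : ℕ) : ℝ) ≤ T ^ (28 * κ * δ) := by
    intro N hN
    push_cast
    calc (M : ℝ) * N ≤ T ^ (26 * κ * δ) * T ^ δ := mul_le_mul hML hN (Nat.cast_nonneg _) (by positivity)
      _ = T ^ (26 * κ * δ + δ) := by rw [← Real.rpow_add hT0]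
      _ ≤ _ := hmono (by nlinarith)
  -- facts for given data
  have key : ∀ (n : ℕ) (k α : Fin n → ℝ), ∑ j, |k j| ≤ A → ∀ N : ℕ, (N : ℝ) ≤ T ^ δ → ∀ b : ℕ → ℂ,
      (∀ n, b n ≠ 0 → 1 ≤ n ∧ n ≤ N) →
      (∀ m, cv (ec δ κ T k α) b m ≠ 0 → 1 ≤ m ∧ m ≤ M * N) ∧
      (∀ t, (∀ j, t + α j ∈ GGL δ κ A W T) →
        c * ‖dp (M * N) (cv (ec δ κ T k α) b) t‖ ^ 2 ≤ (∏ j, ‖zt (t + α j)‖ ^ (2 * k j)) * ‖dp N b t‖ ^ 2 ∧
        (∏ j, ‖zt (t + α j)‖ ^ (2 * k j)) * ‖dp N b t‖ ^ 2 ≤ C * ‖dp (M * N) (cv (ec δ κ T k α) b) t‖ ^ 2) ∧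
      IntegrableOn (fun t => (∏ j, ‖zt (t + α j)‖ ^ (2 * k j)) * ‖dp N b t‖ ^ 2) (SG δ κ A W T α) := by
    intro n k α hk N hN b hb
    have hes := hz.supp n k α
    rw [← hM] at hes
    have hFeq : ∀ t, ‖dp M (ec δ κ T k α) t‖ ^ 2 * ‖dp N b t‖ ^ 2 =
        ‖dp (M * N) (cv (ec δ κ T k α) b) t‖ ^ 2 := fun t => by
      rw [← Pool.Agent.Q84.UM.t_DPM.1 M N (ec δ κ T k α) b t (supp_zero hes) (supp_zero hb), norm_mul, mul_pow]
    have hpt : ∀ t, (∀ j, t + α j ∈ GGL δ κ A W T) →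
        c * ‖dp (M * N) (cv (ec δ κ T k α) b) t‖ ^ 2 ≤ (∏ j, ‖zt (t + α j)‖ ^ (2 * k j)) * ‖dp N b t‖ ^ 2 ∧
        (∏ j, ‖zt (t + α j)‖ ^ (2 * k j)) * ‖dp N b t‖ ^ 2 ≤ C * ‖dp (M * N) (cv (ec δ κ T k α) b) t‖ ^ 2 := by
      intro t ht
      obtain ⟨q1, q2⟩ := hz.pt n k α hk t ht
      rw [← hM] at q1 q2
      rw [← hFeq, ← mul_assoc, ← mul_assoc]
      exact ⟨mul_le_mul_of_nonneg_right q1 (by positivity), mul_le_mul_of_nonneg_right q2 (by positivity)⟩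
    refine ⟨cv_supp hes hb, hpt, ?_⟩
    have hFI : IntegrableOn (fun t => ‖dp (M * N) (cv (ec δ κ T k α) b) t‖ ^ 2) (SG δ κ A W T α) :=
      ((((Pool.Agent.Q84.UM.t_DPM.2.2 _ _ 0).2.norm.pow 2).integrableOn_Icc (a := T) (b := 2 * T)).mono_set
        Set.Ioc_subset_Icc_self).mono_set Set.inter_subset_left
    have hGc : Measurable fun t => (∏ j, ‖zt (t + α j)‖ ^ (2 * k j)) * ‖dp N b t‖ ^ 2 := by
      refine Measurable.mul ?_ ?_
      · refine Finset.measurable_fun_prod _ fun j _ => ?_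
        exact ((zt_meas.comp (measurable_add_const (α j))).norm).pow_const _
      · exact ((Pool.Agent.Q84.UM.t_DPM.2.2 N b 0).2.norm.pow 2).measurable
    refine Integrable.mono' (hFI.const_mul C) hGc.aestronglyMeasurable ?_
    refine (ae_restrict_iff' (SG_meas δ κ A W T α)).2 (Eventually.of_forall fun t ht => ?_)
    rw [Real.norm_of_nonneg (by positivity)]
    exact (hpt t ht.2).2
  refine ⟨?_, hz.supp, ?_, ?_, ?_, ?_, fun n k α hk N hN b hb => (key n k α hk N hN b hb).2.2⟩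
  · intro α hα N hN b hb
    refine (hz.neg α hα N b (hN.trans (hmono (by nlinarith))) (supp_zero hb)).trans ?_
    exact mul_le_mul_of_nonneg_right (min_le_left _ _) (mul_nonneg hT0.le (Pool.Agent.Q84.UM.N2_nonneg _ _))
  · intro n k α hk
    obtain ⟨h1, h2⟩ := hz.ord n k α hk
    refine ⟨(mul_le_mul_of_nonneg_right ((min_le_left _ _).trans (min_le_left _ _)) (Real.exp_pos _).le).trans h1,
      h2.trans ?_⟩
    have := Real.exp_pos (QF' k α T)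
    nlinarith
  · intro N hN b hb β ω hβ hω
    have hNκ : (N : ℝ) ≤ T ^ (28 * κ * δ) := hN.trans (hmono (by nlinarith))
    have hn2 : 0 ≤ T * N2 N b := mul_nonneg hT0.le (Pool.Agent.Q84.UM.N2_nonneg _ _)
    have h1 := hcore β hβ N (hNκ.trans (hmono hκθ)) b hb ω hω
    have hFc : Continuous fun t => ‖dp N b t‖ ^ 2 := (Pool.Agent.Q84.UM.t_DPM.2.2 _ _ 0).2.norm.pow 2
    have hFI : IntegrableOn (fun t => ‖dp N b t‖ ^ 2) (Set.Ioc T (2 * T)) :=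
      (hFc.integrableOn_Icc (a := T) (b := 2 * T)).mono_set Set.Ioc_subset_Icc_self
    have hSβ : MeasurableSet {t : ℝ | t + β ∈ Sec ρ ω} := (measurable_add_const β) (Sec_meas ρ ω)
    have h2 := cover (T := T) (fun _ : Fin 1 => β) hSβ (GGL_meas δ κ A W T) hFI (fun t => by positivity)
    rw [Fin.sum_univ_one] at h2
    have h3 := hz.neg β hβ N b hNκ (supp_zero hb)
    have h4 : min ε (c₀ / (4 * A)) * (T * N2 N b) ≤ c₀ / 2 * (T * N2 N b) := by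
      refine mul_le_mul_of_nonneg_right ((min_le_right _ _).trans ?_) hn2
      rw [div_le_div_iff₀ (by positivity) (by positivity)]
      nlinarith
    have e1 : (Set.Ioc T (2 * T) ∩ {t : ℝ | ∀ _ : Fin 1, t + β ∈ GGL δ κ A W T}) ∩ {t : ℝ | t + β ∈ Sec ρ ω} =
        Set.Ioc T (2 * T) ∩ {t : ℝ | t + β ∈ GGL δ κ A W T ∧ t + β ∈ Sec ρ ω} := by
      ext t
      simp only [Set.mem_inter_iff, Set.mem_ofPred_eq, forall_const]
      tauto
    rw [e1] at h2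
    have h5 : min (min c (c₀ / 2)) (c * (c₀ / 2)) * (T * N2 N b) ≤ c₀ / 2 * (T * N2 N b) :=
      mul_le_mul_of_nonneg_right ((min_le_left _ _).trans (min_le_right _ _)) hn2
    linarith
  · intro n k α hn hk hα N hN b hb β ω hβ hω
    obtain ⟨hfs, hpt, hint⟩ := key n k α hk N hN b hb
    set f := cv (ec δ κ T k α) b with hf
    have hlen := hMN N hN
    have hn2 : 0 ≤ T * N2 (M * N) f := mul_nonneg hT0.le (Pool.Agent.Q84.UM.N2_nonneg _ _)
    have h1 := hcore β hβ (M * N) (hlen.trans (hmono hκθ)) f hfs ω hω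
    have hFc : Continuous fun t => ‖dp (M * N) f t‖ ^ 2 := (Pool.Agent.Q84.UM.t_DPM.2.2 _ _ 0).2.norm.pow 2
    have hFI : IntegrableOn (fun t => ‖dp (M * N) f t‖ ^ 2) (Set.Ioc T (2 * T)) :=
      (hFc.integrableOn_Icc (a := T) (b := 2 * T)).mono_set Set.Ioc_subset_Icc_self
    have hSβ : MeasurableSet {t : ℝ | t + β ∈ Sec ρ ω} := (measurable_add_const β) (Sec_meas ρ ω)
    have h2 := cover (T := T) (Fin.cons β α : Fin (n + 1) → ℝ) hSβ (GGL_meas δ κ A W T) hFI (fun t => by positivity)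
    have h3 : ∑ j : Fin (n + 1), ∫ t in Set.Ioc T (2 * T) ∩ {t : ℝ | t + (Fin.cons β α : Fin (n + 1) → ℝ) j ∉ GGL δ κ A W T},
        ‖dp (M * N) f t‖ ^ 2 ≤ c₀ / 2 * (T * N2 (M * N) f) := by
      have h4 : ∀ j : Fin (n + 1), |(Fin.cons β α : Fin (n + 1) → ℝ) j| ≤ T / 2 := by
        intro j
        refine Fin.cases ?_ (fun i => ?_) j
        · simpa using hβ
        · simpa using hα i
      calc ∑ j : Fin (n + 1), ∫ t in Set.Ioc T (2 * T) ∩ {t : ℝ | t + (Fin.cons β α : Fin (n + 1) → ℝ) j ∉ GGL δ κ A W T},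
          ‖dp (M * N) f t‖ ^ 2 ≤ ∑ _j : Fin (n + 1), (c₀ / (4 * A)) * (T * N2 (M * N) f) := by
            refine Finset.sum_le_sum fun j _ => ?_
            refine (hz.neg _ (h4 j) (M * N) f hlen (supp_zero hfs)).trans ?_
            exact mul_le_mul_of_nonneg_right (min_le_right _ _) hn2
        _ = ((n + 1 : ℝ) * (c₀ / (4 * A))) * (T * N2 (M * N) f) := by
            rw [Finset.sum_const, Finset.card_univ, Fintype.card_fin, nsmul_eq_mul]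
            push_cast
            ring
        _ ≤ c₀ / 2 * (T * N2 (M * N) f) := by
            refine mul_le_mul_of_nonneg_right ?_ hn2
            calc (n + 1 : ℝ) * (c₀ / (4 * A)) ≤ (2 * A) * (c₀ / (4 * A)) :=
                  mul_le_mul_of_nonneg_right (by linarith) (by positivity)
              _ = c₀ / 2 := by field_simp; norm_num
    set S' : Set ℝ := SG δ κ A W T α ∩ {t : ℝ | t + β ∈ GGL δ κ A W T ∧ t + β ∈ Sec ρ ω} with hS'
    have hS'm : MeasurableSet S' := by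
      refine (SG_meas δ κ A W T α).inter ?_
      exact ((measurable_add_const β) (GGL_meas δ κ A W T)).inter hSβ
    have hS'sub : S' ⊆ SG δ κ A W T α := Set.inter_subset_left
    have e1 : (Set.Ioc T (2 * T) ∩ {t : ℝ | ∀ j, t + (Fin.cons β α : Fin (n + 1) → ℝ) j ∈ GGL δ κ A W T}) ∩
        {t : ℝ | t + β ∈ Sec ρ ω} = S' := by
      ext t
      simp only [hS', SG, Set.mem_inter_iff, Set.mem_ofPred_eq, Fin.forall_fin_succ, Fin.cons_zero, Fin.cons_succ]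
      tauto
    rw [e1] at h2
    have h5 : c₀ / 2 * (T * N2 (M * N) f) ≤ ∫ t in S', ‖dp (M * N) f t‖ ^ 2 := by linarith
    have hFS : IntegrableOn (fun t => ‖dp (M * N) f t‖ ^ 2) S' :=
      hFI.mono_set (hS'sub.trans Set.inter_subset_left)
    calc min (min c (c₀ / 2)) (c * (c₀ / 2)) * (T * N2 (M * N) f) ≤ c * (c₀ / 2) * (T * N2 (M * N) f) :=
          mul_le_mul_of_nonneg_right (min_le_right _ _) hn2
      _ = c * (c₀ / 2 * (T * N2 (M * N) f)) := by ring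
      _ ≤ c * ∫ t in S', ‖dp (M * N) f t‖ ^ 2 := mul_le_mul_of_nonneg_left h5 hc.le
      _ = ∫ t in S', c * ‖dp (M * N) f t‖ ^ 2 := by rw [integral_const_mul]
      _ ≤ _ := setIntegral_mono_on (hFS.const_mul _) (hint.mono_set hS'sub) hS'm fun t ht => (hpt t ht.1.2).1
  · intro n k α hk N hN b hb
    obtain ⟨hfs, hpt, hint⟩ := key n k α hk N hN b hb
    set f := cv (ec δ κ T k α) b with hf
    have hlen := hMN N hN
    have hFc : Continuous fun t => ‖dp (M * N) f t‖ ^ 2 := (Pool.Agent.Q84.UM.t_DPM.2.2 _ _ 0).2.norm.pow 2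
    have hFI : IntegrableOn (fun t => ‖dp (M * N) f t‖ ^ 2) (Set.Ioc T (2 * T)) :=
      (hFc.integrableOn_Icc (a := T) (b := 2 * T)).mono_set Set.Ioc_subset_Icc_self
    have hSsub : SG δ κ A W T α ⊆ Set.Ioc T (2 * T) := Set.inter_subset_left
    obtain ⟨-, m2⟩ := Pool.Agent.Q84.UM.t_MVL T hT (M * N) (hlen.trans (hmono (by linarith))) f
    rw [intervalIntegral.integral_of_le (by linarith)] at m2
    calc ∫ t in SG δ κ A W T α, (∏ j, ‖zt (t + α j)‖ ^ (2 * k j)) * ‖dp N b t‖ ^ 2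
        ≤ ∫ t in SG δ κ A W T α, C * ‖dp (M * N) f t‖ ^ 2 :=
          setIntegral_mono_on hint ((hFI.mono_set hSsub).const_mul _) (SG_meas δ κ A W T α) fun t ht => (hpt t ht.2).2
      _ = C * ∫ t in SG δ κ A W T α, ‖dp (M * N) f t‖ ^ 2 := by rw [integral_const_mul]
      _ ≤ C * (2 * T * N2 (M * N) f) := by
          refine mul_le_mul_of_nonneg_left ?_ hC.le
          exact (setIntegral_mono_set hFI (Eventually.of_forall fun t => by
            simp only [Pi.zero_apply]; positivity) (Eventually.of_forall hSsub)).trans m2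
      _ = 2 * C * (T * N2 (M * N) f) := by ring

end Pool.Agent.Run7.h74.DW
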