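import Pool.Agent.Run7.h74.DW.Core

set_option autoImplicit false

/-!
Project DW (helper74): proof of the core theorem.
-/

namespace Pool.Agent.Run7.h74.DW

open Finset Filter Topology MeasureTheory Complex
open Pool.Agent.Q97.UM
open Pool.Agent.Run7.h74.SC (ch ph Ys Ye Yo Qo ge go mc)

noncomputable section

lemma XB4_le (D : ℝ) (hD : 0 ≤ D) : XB D 4 ≤ Real.exp D := by
  unfold XB
  refine Real.exp_le_exp.2 ?_
  have : Real.exp (-((4 : ℕ) : ℝ)) ≤ 1 := Real.exp_le_one_iff.2 (by norm_num)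
  nlinarith

lemma vP_zero {D : ℝ} (hD : 0 ≤ D) : ∀ n, ⌊Real.exp D⌋₊ < n → vP (PT D) n = 0 := by
  intro n hn
  have h1 : 1 ≤ ⌊Real.exp D⌋₊ := (Nat.one_le_floor_iff _).2 (Real.one_le_exp hD)
  unfold vP
  rw [if_neg (by omega), if_neg]
  intro h
  unfold PT at h
  have := (Finset.mem_Icc.1 (Finset.mem_filter.1 h).1).2
  omega

/-- AM-GM for the weights -/
lemma amgm {X y v B lam : ℝ} (hlam : 0 < lam) (hB : 0 ≤ B) :
    X * (v ^ 2 * y ^ 2 * B) ≤ lam / 2 * (X ^ 2 * (y ^ 4 * (1 + v ^ 4) * B)) + 1 / (2 * lam) * B := by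
  have h1 : X * (v ^ 2 * y ^ 2) ≤ lam / 2 * (X ^ 2 * (y ^ 4 * v ^ 4)) + 1 / (2 * lam) := by
    have h2 : 0 ≤ (lam * (X * (v ^ 2 * y ^ 2)) - 1) ^ 2 / (2 * lam) := by positivity
    have e : (lam * (X * (v ^ 2 * y ^ 2)) - 1) ^ 2 / (2 * lam) =
        lam / 2 * (X ^ 2 * (y ^ 4 * v ^ 4)) - X * (v ^ 2 * y ^ 2) + 1 / (2 * lam) := by
      field_simp
      ring
    linarith
  have h3 : lam / 2 * (X ^ 2 * (y ^ 4 * v ^ 4)) ≤ lam / 2 * (X ^ 2 * (y ^ 4 * (1 + v ^ 4))) := by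
    have : y ^ 4 * v ^ 4 ≤ y ^ 4 * (1 + v ^ 4) := by nlinarith [show (0:ℝ) ≤ y ^ 4 by positivity]
    gcongr
  calc X * (v ^ 2 * y ^ 2 * B) = X * (v ^ 2 * y ^ 2) * B := by ring
    _ ≤ (lam / 2 * (X ^ 2 * (y ^ 4 * (1 + v ^ 4))) + 1 / (2 * lam)) * B :=
        mul_le_mul_of_nonneg_right (h1.trans (by linarith)) hB
    _ = _ := by ring

lemma amgm1 {X y v B lam : ℝ} (hlam : 0 < lam) (hB : 0 ≤ B) :
    X * (y ^ 2 * B) ≤ lam / 2 * (X ^ 2 * (y ^ 4 * (1 + v ^ 4) * B)) + 1 / (2 * lam) * B := by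
  have h1 : X * y ^ 2 ≤ lam / 2 * (X ^ 2 * y ^ 4) + 1 / (2 * lam) := by
    have h2 : 0 ≤ (lam * (X * y ^ 2) - 1) ^ 2 / (2 * lam) := by positivity
    have e : (lam * (X * y ^ 2) - 1) ^ 2 / (2 * lam) =
        lam / 2 * (X ^ 2 * y ^ 4) - X * y ^ 2 + 1 / (2 * lam) := by
      field_simp
      ring
    linarith
  have h3 : lam / 2 * (X ^ 2 * y ^ 4) ≤ lam / 2 * (X ^ 2 * (y ^ 4 * (1 + v ^ 4))) := by
    have : y ^ 4 ≤ y ^ 4 * (1 + v ^ 4) := by nlinarith [show (0:ℝ) ≤ y ^ 4 * v ^ 4 by positivity]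
    gcongr
  calc X * (y ^ 2 * B) = X * y ^ 2 * B := by ring
    _ ≤ (lam / 2 * (X ^ 2 * (y ^ 4 * (1 + v ^ 4))) + 1 / (2 * lam)) * B :=
        mul_le_mul_of_nonneg_right (h1.trans (by linarith)) hB
    _ = _ := by ring

/-- the data at a fixed height -/
structure Dat (T α δ κ CS : ℝ) (N : ℕ) (b : ℕ → ℂ) : Prop where
  sec : ∫ t in T..(2 * T), ‖zt (t + α)‖ ^ 2 * (‖Yf (δ * Real.log T) κ (t + α)‖ ^ 4 *
      (1 + ‖Vf (δ * Real.log T) (t + α)‖ ^ 4) * ‖dp N b t‖ ^ 2) ≤ CS * T * N2 N b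
  sec2 : ∫ t in T..(2 * T), ‖Yf (δ * Real.log T) κ (t + α)‖ ^ 4 *
      (1 + ‖Vf (δ * Real.log T) (t + α)‖ ^ 4) * ‖dp N b t‖ ^ 2 ≤ T ^ (1 / 8 : ℝ) * (T * N2 N b)
  mvl : ∫ t in T..(2 * T), ‖dp N b t‖ ^ 2 ≤ 2 * T * N2 N b

/-- the mean of `|ζ| |V Y B|²` -/
lemma Dat.first {T α δ κ CS : ℝ} {N : ℕ} {b : ℕ → ℂ} (h : Dat T α δ κ CS N b) (hT : 0 < T) :
    ∫ t in T..(2 * T), ‖zt (t + α)‖ * (‖Vf (δ * Real.log T) (t + α)‖ ^ 2 * ‖Yf (δ * Real.log T) κ (t + α)‖ ^ 2 *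
      ‖dp N b t‖ ^ 2) ≤ (CS / 2 + 1) * (T * N2 N b) := by
  have c1 := zt_cont
  have c2 := Yf_cont (δ * Real.log T) κ
  have c3 := Vf_cont (δ * Real.log T)
  have c4 := dp_cont N b
  have h1 : ∫ t in T..(2 * T), ‖zt (t + α)‖ * (‖Vf (δ * Real.log T) (t + α)‖ ^ 2 * ‖Yf (δ * Real.log T) κ (t + α)‖ ^ 2 *
      ‖dp N b t‖ ^ 2) ≤ ∫ t in T..(2 * T), (1 / 2 * (‖zt (t + α)‖ ^ 2 * (‖Yf (δ * Real.log T) κ (t + α)‖ ^ 4 *
      (1 + ‖Vf (δ * Real.log T) (t + α)‖ ^ 4) * ‖dp N b t‖ ^ 2)) + 1 / 2 * ‖dp N b t‖ ^ 2) := by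
    refine intervalIntegral.integral_mono_on (by linarith) (Continuous.intervalIntegrable (by fun_prop) _ _)
      (Continuous.intervalIntegrable (by fun_prop) _ _) fun t _ => ?_
    have := amgm (X := ‖zt (t + α)‖) (y := ‖Yf (δ * Real.log T) κ (t + α)‖) (v := ‖Vf (δ * Real.log T) (t + α)‖)
      (B := ‖dp N b t‖ ^ 2) (lam := 1) one_pos (by positivity)
    norm_num at this ⊢
    exact this
  refine h1.trans ?_
  rw [intervalIntegral.integral_add (Continuous.intervalIntegrable (by fun_prop) _ _)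
    (Continuous.intervalIntegrable (by fun_prop) _ _), intervalIntegral.integral_const_mul,
    intervalIntegral.integral_const_mul]
  have := h.sec
  have := h.mvl
  linarith

/-- the mean of `|ζ| |Y B|²` -/
lemma Dat.first1 {T α δ κ CS : ℝ} {N : ℕ} {b : ℕ → ℂ} (h : Dat T α δ κ CS N b) (hT : 0 < T) :
    ∫ t in T..(2 * T), ‖zt (t + α)‖ * (‖Yf (δ * Real.log T) κ (t + α)‖ ^ 2 *
      ‖dp N b t‖ ^ 2) ≤ (CS / 2 + 1) * (T * N2 N b) := by
  have c1 := zt_cont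
  have c2 := Yf_cont (δ * Real.log T) κ
  have c3 := Vf_cont (δ * Real.log T)
  have c4 := dp_cont N b
  have h1 : ∫ t in T..(2 * T), ‖zt (t + α)‖ * (‖Yf (δ * Real.log T) κ (t + α)‖ ^ 2 *
      ‖dp N b t‖ ^ 2) ≤ ∫ t in T..(2 * T), (1 / 2 * (‖zt (t + α)‖ ^ 2 * (‖Yf (δ * Real.log T) κ (t + α)‖ ^ 4 *
      (1 + ‖Vf (δ * Real.log T) (t + α)‖ ^ 4) * ‖dp N b t‖ ^ 2)) + 1 / 2 * ‖dp N b t‖ ^ 2) := by
    refine intervalIntegral.integral_mono_on (by linarith) (Continuous.intervalIntegrable (by fun_prop) _ _)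
      (Continuous.intervalIntegrable (by fun_prop) _ _) fun t _ => ?_
    have := amgm1 (X := ‖zt (t + α)‖) (y := ‖Yf (δ * Real.log T) κ (t + α)‖) (v := ‖Vf (δ * Real.log T) (t + α)‖)
      (B := ‖dp N b t‖ ^ 2) (lam := 1) one_pos (by positivity)
    norm_num at this ⊢
    exact this
  refine h1.trans ?_
  rw [intervalIntegral.integral_add (Continuous.intervalIntegrable (by fun_prop) _ _)
    (Continuous.intervalIntegrable (by fun_prop) _ _), intervalIntegral.integral_const_mul,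
    intervalIntegral.integral_const_mul]
  have := h.sec
  have := h.mvl
  linarith

/-- the mean squares of `V Y B` and `Y B` -/
lemma Dat.sq {T α δ κ CS : ℝ} {N : ℕ} {b : ℕ → ℂ} (h : Dat T α δ κ CS N b) (hT : 0 < T) :
    ∫ t in T..(2 * T), ‖Vf (δ * Real.log T) (t + α)‖ ^ 2 * ‖Yf (δ * Real.log T) κ (t + α)‖ ^ 2 *
      ‖dp N b t‖ ^ 2 ≤ (1 + T ^ (1 / 8 : ℝ) / 2) * (T * N2 N b) ∧
    ∫ t in T..(2 * T), ‖Yf (δ * Real.log T) κ (t + α)‖ ^ 2 *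
      ‖dp N b t‖ ^ 2 ≤ (1 + T ^ (1 / 8 : ℝ) / 2) * (T * N2 N b) := by
  have c2 := Yf_cont (δ * Real.log T) κ
  have c3 := Vf_cont (δ * Real.log T)
  have c4 := dp_cont N b
  have e1 : ∫ t in T..(2 * T), (1 / 2 * (‖Yf (δ * Real.log T) κ (t + α)‖ ^ 4 *
      (1 + ‖Vf (δ * Real.log T) (t + α)‖ ^ 4) * ‖dp N b t‖ ^ 2) + 1 / 2 * ‖dp N b t‖ ^ 2) ≤
      (1 + T ^ (1 / 8 : ℝ) / 2) * (T * N2 N b) := by
    rw [intervalIntegral.integral_add (Continuous.intervalIntegrable (by fun_prop) _ _)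
      (Continuous.intervalIntegrable (by fun_prop) _ _), intervalIntegral.integral_const_mul,
      intervalIntegral.integral_const_mul]
    have := h.sec2
    have := h.mvl
    linarith
  constructor
  · refine le_trans (intervalIntegral.integral_mono_on (by linarith) (Continuous.intervalIntegrable (by fun_prop) _ _)
      (Continuous.intervalIntegrable (by fun_prop) _ _) fun t _ => ?_) e1
    have := amgm (X := 1) (y := ‖Yf (δ * Real.log T) κ (t + α)‖) (v := ‖Vf (δ * Real.log T) (t + α)‖)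
      (B := ‖dp N b t‖ ^ 2) (lam := 1) one_pos (by positivity)
    norm_num at this ⊢
    exact this
  · refine le_trans (intervalIntegral.integral_mono_on (by linarith) (Continuous.intervalIntegrable (by fun_prop) _ _)
      (Continuous.intervalIntegrable (by fun_prop) _ _) fun t _ => ?_) e1
    have := amgm1 (X := 1) (y := ‖Yf (δ * Real.log T) κ (t + α)‖) (v := ‖Vf (δ * Real.log T) (t + α)‖)
      (B := ‖dp N b t‖ ^ 2) (lam := 1) one_pos (by positivity)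
    norm_num at this ⊢
    exact this

end

end Pool.Agent.Run7.h74.DW
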