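import Pool.Agent.Q97.UM.Stm15
import Pool.Agent.Run7.h74.SC.Chi

set_option autoImplicit false

/-!
Project DW (helper74): EVERY ARC OF DIRECTIONS OF ZETA CARRIES A POSITIVE SHARE OF EVERY DIRICHLET POLYNOMIAL.

THEOREM (core). For every `ρ > 0` there are `θ, c > 0` such that for all large `T`, all `|α| ≤ T/2`, all unimodular `ω` and ALL
Dirichlet polynomials `B` of length `T^θ`:  the integral of `|B(t)|²` over the `t` in `[T, 2T]` with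
`|ζ/|ζ| - ω| < ρ`, `ζ = ζ(1/2 + i(t+α))`, is at least `c T N2(B)`.

Method. `D = δ log T`, `Y` = truncated exponential of `-1/2` times the prime sum over the primes `≤ e^{D e^{-4}}` (blocks `≥ 4`),
`V = 1 - 1/2 ∑_{e^{D e^{-4}} < p ≤ e^D} p^{-s}`; `∑ 1/p → 4` over these primes, so the mean of `ζ |V Y B|²` is `1 - 4/4 = 0` times that
of `ζ |Y B|²` up to `o(1)` (piece O3, MER): the first odd harmonic of the direction is negligible; the other harmonics contain a positive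
power of the factor of the functional equation and are negligible (H0, H1). Upper bounds: SEC. Lower bound of `|ζ| |Y|²` off a set which
is small relative to every Dirichlet polynomial: helper311's library.

Each `S_xxx` is a closed Prop, wanted: `theorem t_xxx : S_xxx` (or from the listed hypotheses).
-/

namespace Pool.Agent.Run7.h74.DW

open Filter Topology MeasureTheory Complex
open Pool.Agent.Q97.UM
open Pool.Agent.Run7.h74.SC (ch ph)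

noncomputable section

/-- the weight `4 (t-a) (b-t) / (b-a)²` (between `0` and `1` on `[a, b]`, zero at the end points) -/
def wt (a b t : ℝ) : ℝ := 4 * (t - a) * (b - t) / (b - a) ^ 2

/-- admissible intervals -/
def Adm (T a b : ℝ) : Prop := T / 2 ≤ a ∧ a + T / 2 ≤ b ∧ b ≤ 3 * T

/-- H0: contour. `ph t = ch (1/2 + it)` is the factor of the functional equation on the critical line (file SC/Chi.lean; `|ph| = 1`).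
PROOF. `F(s) = W(s) ch(s)^j exp((s - 1/2) log x)`, `W(s) = 4 ((s-1/2)/i - a) (b - (s-1/2)/i) / (b-a)²`, is holomorphic for `Im s > 0`
(`ch_diff`). Cauchy's theorem on the rectangle `[1/2, 3] × [a, b]` (as in file SC/Tw.lean or Mathlib
`Complex.integral_boundary_rect_eq_zero_of_differentiableOn`). Right side: `|W| ≤ 100`, `|ch| ≤ C / Im s` for `Re s = 3`, `|ch| ≤ C` in the strip
(`SC.ch_bound`), so it is `≤ 100 C^j x^{5/2} ∫_a^b dt/t`. Horizontal sides: there one of the two factors of `W` has modulus `≤ 5/2`, so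
`|W| ≤ 100 / T`, and `|ch|^j ≤ C^j`, `x^{σ - 1/2} ≤ 1 + x^{5/2}`. -/
def S_H0 : Prop := ∀ j : ℕ, 1 ≤ j → ∃ C : ℝ, 0 ≤ C ∧ ∀ T a b x : ℝ, 10 ≤ T → Adm T a b → 0 < x →
  ‖∫ t in a..b, (wt a b t : ℂ) * (ph t ^ j * cexp (I * (t * Real.log x : ℝ)))‖ ≤ C * (x ^ (5 / 2 : ℝ) + 1 / T)

/-- WE: the weight against an exponential. PROOF. Two integrations by parts (`wt a b` is a quadratic polynomial in `t` which vanishes at `a` and `b`;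
`|wt'| ≤ 4/(b-a)`, `|wt''| = 8/(b-a)²`), `b - a ≥ T/2`. Second part: `∫ wt = 2/3 (b-a)`. -/
def S_WE : Prop := (∀ T a b lam : ℝ, 10 ≤ T → Adm T a b → lam ≠ 0 →
    ‖∫ t in a..b, (wt a b t : ℂ) * cexp (I * (t * lam : ℝ))‖ ≤ 100 / (T * lam ^ 2)) ∧
  ∀ T a b : ℝ, 10 ≤ T → Adm T a b → ∫ t in a..b, wt a b t = 2 / 3 * (b - a)

/-- H1: the harmonics of positive order, and the plain mean. Prove `S_H0 → S_WE → S_BLZ → S_H1`. PROOF. `c` may be restricted to `[1, M]`.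
Expand `|dp M c t|² = ∑_{h,l ≤ M} c_h conj(c_l) (hl)^{-1/2} (l/h)^{it}`. First part: H0 with `x = l/h ≤ M`. Second part: by `S_BLZ` (theorem
`Pool.Agent.Q92.UM.t_BLZ`), `ζ(1/2+it) = ∑_{k ≤ T²} ψ_k k^{-1/2-it} + O(T^{-3})` (apply it at `T`: `T/4 ≤ t ≤ 4T`), `0 ≤ ψ_k ≤ 1`, `ψ_k = 0` for
`k ≥ T^{5/4}`; H0 with `x = l/(hk)`: `∑_k k^{-1/2} C (x^{5/2} + 1/T) ≤ C' M^{5/2}`. Finally `∑ |c_n| n^{-1/2} ≤ √M √N2` and `M ≤ T^{1/100}`.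
Third part: the diagonal gives `2/3 (b-a) N2`, off the diagonal WE with `lam = log (l/h)`, `|lam| ≥ 1/M`. (Or `S_MV2` and
integration by parts.) -/
def S_H1 : Prop := ∀ j : ℕ, 1 ≤ j → ∀ᶠ T : ℝ in atTop, ∀ a b : ℝ, Adm T a b → ∀ M : ℕ, (M : ℝ) ≤ T ^ (1 / 100 : ℝ) → ∀ c : ℕ → ℂ,
  ‖∫ t in a..b, (wt a b t : ℂ) * (ph t ^ j * ((‖dp M c t‖ ^ 2 : ℝ) : ℂ))‖ ≤ T ^ (1 / 4 : ℝ) * N2 M c ∧
  ‖∫ t in a..b, (wt a b t : ℂ) * (zt t * ph t ^ j * ((‖dp M c t‖ ^ 2 : ℝ) : ℂ))‖ ≤ T ^ (1 / 4 : ℝ) * N2 M c ∧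
  |(∫ t in a..b, wt a b t * ‖dp M c t‖ ^ 2) - 2 / 3 * (b - a) * N2 M c| ≤ T ^ (1 / 4 : ℝ) * N2 M c

def J_H1 : Prop := S_H0 → S_WE → S_BLZ → S_H1

open Classical in
/-- coefficients of `1 - 1/2 ∑_{p ∈ P} p^{-s}` -/
def vP (P : Finset ℕ) (n : ℕ) : ℂ := if n = 1 then 1 else if n ∈ P then -1 / 2 else 0

/-- H2: monomials against zeta. Prove `S_WE → S_BLZ → S_H2`. PROOF. `ζ = ∑ ψ_k k^{-1/2-it} + O(T^{-3})` (S_BLZ at `T`). The term with `kh = l` (if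
`h ∣ l`; then `k ≤ l ≤ T^{1/50}`, `ψ_k = 1`) gives `∫ wt / l = 2/3 (b-a)/l`. For `kh ≠ l`: WE with `lam = log (l/(kh))`: if `kh ≤ 2l` then
`|lam| ≥ 1/(4l)`, at most `2l` values of `k`; if `kh > 2l` then `|lam| ≥ log 2` and `∑_{k ≤ T^{5/4}} k^{-1/2} ≤ 2 T^{5/8}`. -/
def S_H2 : Prop := ∀ᶠ T : ℝ in atTop, ∀ a b : ℝ, Adm T a b → ∀ h l : ℕ, 1 ≤ h → 1 ≤ l → (h : ℝ) ≤ T ^ (1 / 50 : ℝ) → (l : ℝ) ≤ T ^ (1 / 50 : ℝ) →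
  ‖(∫ t in a..b, (wt a b t : ℂ) * (zt t * ((h : ℂ) ^ (-(1 / 2 + t * I)) * (starRingEnd ℂ) ((l : ℂ) ^ (-(1 / 2 + t * I)))))) -
    (if h ∣ l then ((2 / 3 * (b - a) / l : ℝ) : ℂ) else 0)‖ ≤ T ^ (1 / 8 : ℝ)

def J_H2 : Prop := S_WE → S_BLZ → S_H2

/-- O3: the first odd harmonic. Prove `S_H2 → S_O3`. PROOF. Expand both integrals; `V F` has the monomials `u h`, `u ∈ {1} ∪ P`, `h ≤ M` coprime to `P`,
with coefficient `v_u f_h`. By H2 the term `(uh, u'l)` is `2/3 (b-a)/(u'l)` if `uh ∣ u'l` and `O(T^{1/8})` otherwise. As `h, l` are coprime to the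
primes of `P`: `uh ∣ u'l` iff `h ∣ l` and (`u = 1` or `u = u'`). So the sum over `u, u'` is the factor
`v_1 v_1 + ∑_p v_1 v_p / p + ∑_p v_p² / p = 1 - 1/2 S + 1/4 S = 1 - S/4`. The error is at most
`T^{1/8} (∑_u |v_u| ∑_h |f_h|)² ≤ T^{1/8} (1 + Q)² M² N2 M f`. -/
def S_O3 : Prop := ∀ᶠ T : ℝ in atTop, ∀ a b : ℝ, Adm T a b → ∀ (Q M : ℕ), 1 ≤ Q → (Q : ℝ) ≤ T ^ (1 / 100 : ℝ) → (M : ℝ) ≤ T ^ (1 / 100 : ℝ) →
  ∀ P : Finset ℕ, (∀ p ∈ P, p.Prime ∧ p ≤ Q) → ∀ f : ℕ → ℂ, (∀ n, f n ≠ 0 → 1 ≤ n ∧ n ≤ M ∧ ∀ p ∈ P, ¬ p ∣ n) →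
  ‖(∫ t in a..b, (wt a b t : ℂ) * (zt t * ((‖dp Q (vP P) t‖ ^ 2 * ‖dp M f t‖ ^ 2 : ℝ) : ℂ))) -
    ((1 - (∑ p ∈ P, (1 / p : ℝ)) / 4 : ℝ) : ℂ) * ∫ t in a..b, (wt a b t : ℂ) * (zt t * ((‖dp M f t‖ ^ 2 : ℝ) : ℂ))‖ ≤
    T ^ (1 / 4 : ℝ) * N2 M f

def J_O3 : Prop := S_H2 → S_O3

open Classical in
/-- the primes of the blocks `0, 1, 2, 3` -/
def PT (D : ℝ) : Finset ℕ := (Finset.Icc 1 ⌊Real.exp D⌋₊).filter (fun p => p.Prime ∧ XB D 4 < p)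

/-- MER: Mertens. PROOF. `∑_{p ≤ x} 1/p = loglog x + M + o(1)`; `XB D 4 = exp(D e^{-4})`, so the sum is `log D - log (D e^{-4}) + o(1)`. -/
def S_MER : Prop := Tendsto (fun D : ℝ => ∑ p ∈ PT D, (1 / p : ℝ)) atTop (𝓝 4)

/-- the function `V` -/
def Vf (D s : ℝ) : ℂ := dp ⌊Real.exp D⌋₊ (vP (PT D)) s

/-- the mollifier `Y`: blocks `≥ 4`, exponent `-1/2` -/
def Yf (D κ s : ℝ) : ℂ := Ef D κ (fun _ => -1 / 2) (fun _ => -1 / 2) 4 s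

/-- M1: the mean value. Prove `S_TEX → S_XM → S_STR → S_MVL → S_BM → S_M1`. PROOF. Put `z_l = zf D (ua α) (ua (2α)) l t`
(`= zf D 1 1 l (t+α)`); `zf` is linear in the coefficients, so `Yf D κ (t+α) = ∏_{4 ≤ l < JB D} TEx R_l (-z_l/2)`, `R_l = R9 κ l`. Call `l` good if
`|z_l| ≤ R_l/20`. If `l ≥ 4` is good, `|e^{z_l}| |TEx(-z_l/2)|² ≤ (1 + e^{-R_l/2})²` (S_TEX, second part), always
`|e^{z_l}|² |TEx(-z_l/2)|⁴ ≤ e^{4|z_l|}`; `|Vf| ≤ 1 + 1/2 ∑_{l<4} |z_l| + C` (the squares of primes in `z_l` contribute `≤ 1/2 ∑ 1/p ≤ C`, S_BM),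
so `|Vf|⁴ ≤ C e^{4 ∑_{l<4} |z_l|}`. With `E_j = exp(8 ∑_{l ≤ j} |z_l|)`:
`|e^{∑ z_l}|² |Yf|⁴ (1 + |Vf|⁴) ≤ C (E_3 + ∑_{4 ≤ j < JB D} E_j (20|z_j|/R_j)^{2 s_j})` (let `j` be the largest bad index in `[4, JB D)`).
First term: S_XM (`m = 1`, `c₀ = 8`, `j = 3`). Terms `j ≥ 4`: S_STR with `m = 2`, `k = 0` (then `lc k a = 0`, `Ef = 1`), both families equal
to `(ua α, ua (2α))`, `W = 2 N2 N b` (S_MVL): `≤ C e^{-2j} · 2 N2`. Sum over the finitely many `j`. Last part: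
`|Yf|⁴ (1 + |Vf|⁴) ≤ C exp(8 ∑_{l ≤ JB D} |z_l|)` and S_XM with `j = JB D`, `e^{JB D / 2} ≤ C √D`. -/
def S_M1 : Prop := ∃ κ₀ : ℝ, 4 ≤ κ₀ ∧ ∀ κ : ℝ, κ₀ ≤ κ → ∃ C : ℝ, 1 ≤ C ∧ ∀ D : ℝ, 1 ≤ D → ∀ (α : ℝ) (N : ℕ) (b : ℕ → ℂ), 1 ≤ N →
  Real.log N ≤ D → (∀ n, b n ≠ 0 → 1 ≤ n ∧ n ≤ N) →
  MB (fun t => ‖cexp (∑ l ∈ Finset.range (JB D), zf D (ua α) (ua (2 * α)) l t)‖ ^ 2 *
    (‖Yf D κ (t + α)‖ ^ 4 * (1 + ‖Vf D (t + α)‖ ^ 4) * ‖dp N b t‖ ^ 2)) (C * N2 N b) ∧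
  MB (fun t => ‖Yf D κ (t + α)‖ ^ 4 * (1 + ‖Vf D (t + α)‖ ^ 4) * ‖dp N b t‖ ^ 2) (Real.exp (C * Real.sqrt D) * N2 N b)

def J_M1 : Prop := S_TEX → S_XM → S_STR → S_MVL → S_BM → S_M1

/-- SEC: the mollified second moment relative to every Dirichlet polynomial. Prove `S_M1 → S_TSB → S_DPM → S_MVL → S_COF → S_SEC`. PROOF. Let `θ₀` be from S_TSB,
`δ₀ = θ₀ / (100 κ)`, `θ = δ`, `D = δ log T`. `Yf² B` and `Yf² Vf² B` (at `t`, with `Yf`, `Vf` at `t+α`) are Dirichlet polynomials `dp M c t` whose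
coefficients are supported on numbers without prime factors `> e^D = T^δ` and `M ≤ exp(60 κ D) ≤ T^{θ₀}` (S_COF, S_DPM: `dp N b (t+α)` has the
coefficients `b n · n^{-iα}`; `cv`). S_TSB with `S = C N2 N b` (M1, first part; `1 ≤ 1 + |Vf|⁴`, `|Vf|⁴ ≤ 1 + |Vf|⁴`), and
`N2 M c ≤ (2/X) ∫_X^{2X} |dp M c|² ≤ 2 exp(C √D) N2 N b` (S_MVL at large `X`, M1 second part), times `T^{-θ₀}` it is `≤ N2 N b` for large `T`.
Second conclusion: `∫_T^{2T} |dp M c|² ≤ 2 T N2 M c` (S_MVL) and the same bound for `N2 M c`. -/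
def S_SEC : Prop := ∃ κ₀ : ℝ, 4 ≤ κ₀ ∧ ∀ κ : ℝ, κ₀ ≤ κ → ∃ δ₀ : ℝ, 0 < δ₀ ∧ ∀ δ : ℝ, 0 < δ → δ ≤ δ₀ → ∃ C : ℝ, 0 ≤ C ∧
  ∀ᶠ T : ℝ in atTop, ∀ α : ℝ, |α| ≤ T / 2 → ∀ N : ℕ, (N : ℝ) ≤ T ^ δ → ∀ b : ℕ → ℂ, (∀ n, b n ≠ 0 → 1 ≤ n ∧ n ≤ N) →
    ∫ t in T..(2 * T), ‖zt (t + α)‖ ^ 2 * (‖Yf (δ * Real.log T) κ (t + α)‖ ^ 4 * (1 + ‖Vf (δ * Real.log T) (t + α)‖ ^ 4) *
      ‖dp N b t‖ ^ 2) ≤ C * T * N2 N b ∧
    ∫ t in T..(2 * T), ‖Yf (δ * Real.log T) κ (t + α)‖ ^ 4 * (1 + ‖Vf (δ * Real.log T) (t + α)‖ ^ 4) * ‖dp N b t‖ ^ 2 ≤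
      T ^ (1 / 8 : ℝ) * (T * N2 N b)

def J_SEC : Prop := S_M1 → S_TSB → S_DPM → S_MVL → S_COF → S_SEC

/-- YB: the product `Y B` is a Dirichlet polynomial coprime to the primes of `V`. Prove `S_DPM → S_COF → S_YB`. PROOF. `Yf D κ s = Ef D κ a a 4 s` with
`a = fun _ => -1/2`; the coefficients `ebk D κ a a 4 (JB D - 4)` are supported on numbers all of whose prime factors are in the blocks `≥ 4`, i.e. `≤ XB D 4`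
(`te`, `cv`, `cvp` of `qb D a a l`, `l ≥ 4`; the primes of `PB D l` are `≤ XB D l ≤ XB D 4`); `N ≤ XB D 4`. Second part: `f` and the numbers `≥ 2` of
the support of `vP (PT D)` have no common factor: for `n ≤ M` free of the primes of `PT D` the coefficient of `V F` at `n` is `f n`. -/
def S_YB : Prop := ∀ κ D : ℝ, 1 ≤ κ → 1 ≤ D → ∀ (N : ℕ) (b : ℕ → ℂ), 1 ≤ N → (N : ℝ) ≤ XB D 4 → (∀ n, b n ≠ 0 → 1 ≤ n ∧ n ≤ N) →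
  (∃ (M : ℕ) (f : ℕ → ℂ), 1 ≤ M ∧ (M : ℝ) ≤ Real.exp (27 * κ * D) * N ∧ (∀ n, f n ≠ 0 → 1 ≤ n ∧ n ≤ M ∧ ∀ p ∈ PT D, ¬ p ∣ n) ∧
    ∀ s, dp M f s = Yf D κ s * dp N b s) ∧
  N2 N b ≤ N2 (⌊Real.exp D⌋₊ * N) (cv (vP (PT D)) b)

def J_YB : Prop := S_DPM → S_COF → S_YB

end

end Pool.Agent.Run7.h74.DW
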