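import Pool.Agent.Run7.h311.CM.LinM
import Pool.Agent.Run7.h74.DW.Iface

set_option autoImplicit false

/-!
Project DW (helper74): the good set: its complement is negligible relative to every Dirichlet polynomial; lower bound there.
-/

open Filter Topology MeasureTheory Complex
open Pool.Agent.Q97.UM

namespace Pool.Agent.Run7.h74.DW

open Run7.h311.CM
open Pool.Agent.Q98.UM (S3 S3_nonneg)

theorem neg_main (ε : ℝ) (hε : 0 < ε) : ∃ κ₁ : ℝ, 4 ≤ κ₁ ∧ ∀ κ : ℝ, κ₁ ≤ κ → ∃ δ₁ : ℝ, 0 < δ₁ ∧ ∀ δ : ℝ, 0 < δ → δ ≤ δ₁ →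
    ∃ W : ℝ, 0 < W ∧ ∀ᶠ T : ℝ in atTop, ∀ α : ℝ, |α| ≤ T / 2 → ∀ (M : ℕ) (f : ℕ → ℂ), (M : ℝ) ≤ T ^ (28 * κ * δ) →
      (∀ n, M < n → f n = 0) →
      ∫ t in Set.Ioc T (2 * T) ∩ {t : ℝ | t + α ∉ GGL δ κ 1 W T}, ‖dp M f t‖ ^ 2 ≤ ε * (T * N2 M f) := by
  obtain ⟨θ₃, δ₀, hθ₃, hδ₀, hTP⟩ := b_THP 1
  obtain ⟨C₀, hC₀, hblk⟩ := blk_sum
  refine ⟨max 4 (400 * C₀ / ε), le_max_left _ _, fun κ hκ => ?_⟩
  have hκ4 : 4 ≤ κ := (le_max_left _ _).trans hκ
  have hκ0 : 0 < κ := by linarith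
  have hκε : 200 * 1 ^ 2 * C₀ / κ ≤ ε / 2 := by
    rw [div_le_iff₀ hκ0]
    have h2 := (le_max_right 4 (400 * C₀ / ε)).trans hκ
    have h3 : ε / 2 * (400 * C₀ / ε) = 200 * C₀ := by
      field_simp
      norm_num
    calc 200 * 1 ^ 2 * C₀ = ε / 2 * (400 * C₀ / ε) := by rw [h3]; ring
      _ ≤ ε / 2 * κ := mul_le_mul_of_nonneg_left h2 (by positivity)
  obtain ⟨θ, hθ0, hθ40, hθa⟩ : ∃ θ : ℝ, 0 < θ ∧ θ ≤ 1 / 8 ∧ θ ≤ θ₃ :=
    ⟨min (1 / 8) θ₃, by positivity, min_le_left _ _, min_le_right _ _⟩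
  refine ⟨min (θ / (30 * κ)) δ₀, by positivity, fun δ hδ hδle => ?_⟩
  have hδ1 : 30 * κ * δ ≤ θ := by
    calc 30 * κ * δ ≤ 30 * κ * (θ / (30 * κ)) :=
          mul_le_mul_of_nonneg_left (hδle.trans (min_le_left _ _)) (by positivity)
      _ = θ := by field_simp
  have hδ2 : δ ≤ δ₀ := hδle.trans (min_le_right _ _)
  obtain ⟨C₁, hC₁, hTP⟩ := hTP δ hδ hδ2
  obtain ⟨W, hW, hWε⟩ : ∃ W : ℝ, 0 < W ∧ C₁ / W ≤ ε / 2 := by
    refine ⟨2 * C₁ / ε + 1, by positivity, ?_⟩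
    rw [div_le_iff₀ (by positivity)]
    have : ε / 2 * (2 * C₁ / ε + 1) = C₁ + ε / 2 := by field_simp
    linarith
  refine ⟨W, hW, ?_⟩
  filter_upwards [hTP, eventually_ge_atTop 16,
    (Real.tendsto_log_atTop.eventually_ge_atTop (1 / δ))] with T hTP hT16 hLδ
  have hT0 : 0 < T := by linarith
  have hT1 : 1 ≤ T := by linarith
  have hD1 : 1 ≤ δ * Real.log T := by
    rw [div_le_iff₀ hδ] at hLδ
    linarith
  have hmono : ∀ {x y : ℝ}, x ≤ y → T ^ x ≤ T ^ y := fun h => Real.rpow_le_rpow_of_exponent_le hT1 h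
  intro α hα M f hM hf
  rcases Nat.eq_zero_or_pos M with h0 | hM1
  · subst h0
    have e1 : N2 0 f = 0 := by unfold N2; simp
    have e2 : ∀ t, dp 0 f t = 0 := fun t => by unfold dp; simp
    simp [e1, e2]
  refine (out_lin (M := M) hδ hκ4 le_rfl hW hC₀ hC₁ hT16 hD1 hblk (by linarith) hM1 hM
    (fun b => hTP M (hM.trans (hmono (by nlinarith))) b) hf hα).trans ?_
  exact mul_le_mul_of_nonneg_right (by linarith) (mul_nonneg hT0.le (N2_nonneg _ _))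

lemma ap_half : ap (fun _ : Fin 1 => (-1 / 2 : ℝ)) (fun _ => 0) = fun _ => (-1 / 2 : ℂ) := by
  funext p
  unfold ap
  simp

lemma ap_half2 : (ap (fun _ : Fin 1 => (-1 / 2 : ℝ)) fun j => 2 * (fun _ : Fin 1 => (0:ℝ)) j) = fun _ => (-1 / 2 : ℂ) := by
  funext p
  unfold ap
  simp

lemma zf_half {D : ℝ} (hD : 0 ≤ D) (l : ℕ) (s : ℝ) :
    zf D (fun _ => -1 / 2) (fun _ => -1 / 2) l s = -1 / 2 * zf D u1 u1 l s := by
  have h := zf_ap (fun _ : Fin 1 => (-1 / 2 : ℝ)) (fun _ => 0) hD l s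
  rw [ap_half, ap_half2, Fin.sum_univ_one] at h
  rw [h]
  push_cast
  simp

/-- the lower bound at good points -/
theorem lowg (κ W : ℝ) (hκ : 4 ≤ κ) : ∃ c : ℝ, 0 < c ∧ ∀ δ T : ℝ, 1 ≤ T → 1 ≤ δ * Real.log T → ∀ s ∈ GGL δ κ 1 W T,
    c ≤ ‖zt s‖ * ‖Yf (δ * Real.log T) κ s‖ ^ 2 := by
  refine ⟨1 / 4 * Real.exp (-(W + 2 * S3 + ∑ l ∈ Finset.range 4, (R9 κ l : ℝ) / 10)), by positivity, ?_⟩
  intro δ T hT hD1 s hs
  obtain ⟨hz, hlog, hreg⟩ := hs
  set D := δ * Real.log T with hD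
  have hD0 : 0 ≤ D := by linarith
  have hT0 : 0 < T := by linarith
  have hTδ : T ^ δ = Real.exp D := by
    rw [Real.rpow_def_of_pos hT0, hD, mul_comm]
  rw [hTδ] at hlog
  set z : ℕ → ℂ := fun l => zf D u1 u1 l s with hzdef
  have hzR : ∀ l < JB D, ‖z l‖ ≤ R9 κ l / 10 := by
    intro l hl
    have := hreg l hl
    simpa using this
  -- the logarithm of zeta
  have h1 : ∑ l ∈ Finset.range (JB D), (z l).re - 2 * S3 ≤ EP ⌊Real.exp D⌋₊ s := by
    have h := sum_re (fun _ : Fin 1 => (1 : ℝ)) (fun _ => 0) (A := 1) (by simp) hD1 s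
    have e1 : ap (fun _ : Fin 1 => (1 : ℝ)) (fun _ => 0) = u1 := by
      funext p
      unfold ap u1
      simp
    have e2 : (ap (fun _ : Fin 1 => (1 : ℝ)) fun j => 2 * (fun _ : Fin 1 => (0:ℝ)) j) = u1 := by
      funext p
      unfold ap u1
      simp
    rw [e1, e2, Fin.sum_univ_one] at h
    simp only [add_zero, one_mul] at h
    have := (abs_le.1 h).1
    linarith
  have h2 : Real.exp (∑ l ∈ Finset.range (JB D), (z l).re - 2 * S3 - W) ≤ ‖zt s‖ := by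
    have h3 : 0 < ‖zt s‖ := norm_pos_iff.2 hz
    rw [← Real.le_log_iff_exp_le h3]
    have := (abs_le.1 hlog).1
    linarith
  -- the mollifier
  set x : ℕ → ℝ := fun l => Real.exp (-(R9 κ l : ℝ) / 2) with hx
  have hx0 : ∀ l, 0 ≤ x l := fun l => (Real.exp_pos _).le
  have hR : ∀ l : ℕ, 4 + 3 * (l : ℝ) ≤ (R9 κ l : ℝ) := by
    intro l
    refine le_trans ?_ (R9_ge κ l)
    have h1 : 1 + 9 / 10 * (l : ℝ) ≤ Real.exp (9 / 10 * (l : ℝ)) := by
      linarith [Real.add_one_le_exp (9 / 10 * (l : ℝ))]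
    have h2 : (0 : ℝ) ≤ l := Nat.cast_nonneg _
    nlinarith
  have hxl : ∀ l, x l ≤ 1 / 5 * (2 / 5 : ℝ) ^ l := by
    intro l
    have h1 : x l ≤ Real.exp (-2) * Real.exp (-(3 / 2 * (l : ℝ))) := by
      rw [← Real.exp_add]
      refine Real.exp_le_exp.2 ?_
      linarith [hR l]
    have h2 : Real.exp (-2) ≤ 1 / 5 := by
      have := Real.exp_neg_one_lt_d9
      have e : Real.exp (-2) = Real.exp (-1) ^ 2 := by rw [← Real.exp_nat_mul]; norm_num
      rw [e]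
      have h0 := (Real.exp_pos (-1)).le
      nlinarith
    have h3 : Real.exp (-(3 / 2 * (l : ℝ))) ≤ (2 / 5 : ℝ) ^ l := by
      apply Pool.Agent.Q14.UM.exp_neg_mul_nat
      have := Pool.Agent.Q14.UM.exp_neg_le (3 / 2) (by norm_num)
      norm_num at this ⊢
      exact this
    calc x l ≤ Real.exp (-2) * Real.exp (-(3 / 2 * (l : ℝ))) := h1
      _ ≤ 1 / 5 * (2 / 5 : ℝ) ^ l := mul_le_mul h2 h3 (Real.exp_pos _).le (by norm_num)
  have hsum : ∀ J, ∑ l ∈ Finset.range J, x l ≤ 1 / 3 := by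
    intro J
    refine (Finset.sum_le_sum fun l _ => hxl l).trans ?_
    rw [← Finset.mul_sum]
    have h5 := Pool.Agent.Q14.UM.geo_le (2 / 5) (by norm_num) (by norm_num) J
    have h6 : ∑ j ∈ Finset.range J, (2 / 5 : ℝ) ^ j ≤ 5 / 3 := h5.trans (by norm_num)
    linarith
  have hx1 : ∀ l, x l ≤ 1 := fun l => Real.exp_le_one_iff.2 (by
    have := hR l
    have h2 : (0 : ℝ) ≤ l := Nat.cast_nonneg _
    linarith)
  have key : ∀ l ∈ Finset.Ico 4 (JB D), (1 - x l) * Real.exp (-1 / 2 * (z l).re) ≤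
      ‖TEx (R9 κ l) (zf D (fun _ => -1 / 2) (fun _ => -1 / 2) l s)‖ := by
    intro l hl
    rw [zf_half hD0]
    have h1 : 1 ≤ R9 κ l := by
      have := hR l
      have h2 : (0 : ℝ) ≤ l := Nat.cast_nonneg _
      have h3 : (1 : ℝ) ≤ (R9 κ l : ℝ) := by linarith
      exact_mod_cast h3
    have h0 : ‖(-1 / 2 : ℂ) * z l‖ ≤ R9 κ l / 10 := by
      rw [norm_mul]
      have h3 := hzR l (Finset.mem_Ico.1 hl).2
      have e : ‖(-1 / 2 : ℂ)‖ = 1 / 2 := by norm_num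
      rw [e]
      have := norm_nonneg (z l)
      linarith
    have h2 := (b_TEX (R9 κ l) ((-1 / 2 : ℂ) * z l) h1).2 h0
    have h3 : ‖cexp ((-1 / 2 : ℂ) * z l)‖ = Real.exp (-1 / 2 * (z l).re) := by
      rw [Complex.norm_exp]
      congr 1
      have e : (-1 / 2 : ℂ) = ((-1 / 2 : ℝ) : ℂ) := by push_cast; ring
      rw [e, Complex.re_ofReal_mul]
    rw [h3] at h2
    have h4 := norm_sub_norm_le (cexp ((-1 / 2 : ℂ) * z l)) (TEx (R9 κ l) ((-1 / 2 : ℂ) * z l))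
    rw [norm_sub_rev, h3] at h4
    have h6 : Real.exp (-(R9 κ l : ℝ) / 2) * Real.exp (-1 / 2 * (z l).re) = x l * Real.exp (-1 / 2 * (z l).re) := rfl
    rw [h6] at h2
    show (1 - x l) * Real.exp (-1 / 2 * (z l).re) ≤ ‖TEx (R9 κ l) ((-1 / 2 : ℂ) * z l)‖
    linarith
  have h5 : 1 / 2 * Real.exp (-1 / 2 * ∑ l ∈ Finset.Ico 4 (JB D), (z l).re) ≤ ‖Yf D κ s‖ := by
    unfold Yf Ef
    rw [norm_prod]
    refine le_trans ?_ (Finset.prod_le_prod (fun l _ => mul_nonneg (by linarith [hx1 l]) (Real.exp_pos _).le) key)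
    rw [Finset.prod_mul_distrib, ← Real.exp_sum, ← Finset.mul_sum]
    refine mul_le_mul_of_nonneg_right ?_ (Real.exp_pos _).le
    have h6 := prod_one_sub x hx0 hx1 (JB D)
    have h7 := hsum (JB D)
    have h8 : ∏ l ∈ Finset.range (JB D), (1 - x l) ≤ ∏ l ∈ Finset.Ico 4 (JB D), (1 - x l) := by
      have hsub : Finset.Ico 4 (JB D) ⊆ Finset.range (JB D) := fun l hl =>
        Finset.mem_range.2 (Finset.mem_Ico.1 hl).2
      rw [← Finset.prod_sdiff hsub]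
      refine mul_le_of_le_one_left (Finset.prod_nonneg fun l _ => by linarith [hx1 l]) ?_
      exact Finset.prod_le_one (fun l _ => by linarith [hx1 l]) fun l _ => by linarith [hx0 l]
    linarith
  have h6 : (1 / 4) * Real.exp (-∑ l ∈ Finset.Ico 4 (JB D), (z l).re) ≤ ‖Yf D κ s‖ ^ 2 := by
    have h7 := pow_le_pow_left₀ (by positivity) h5 2
    refine le_trans (le_of_eq ?_) h7
    rw [mul_pow, ← Real.exp_nat_mul]
    congr 1
    · norm_num
    · congr 1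
      push_cast
      ring
  have h7 : -(∑ l ∈ Finset.range 4, (R9 κ l : ℝ) / 10) ≤
      ∑ l ∈ Finset.range (JB D), (z l).re - ∑ l ∈ Finset.Ico 4 (JB D), (z l).re := by
    have e1 : ∑ l ∈ Finset.range (JB D), (z l).re - ∑ l ∈ Finset.Ico 4 (JB D), (z l).re =
        ∑ l ∈ Finset.range (min 4 (JB D)), (z l).re := by
      rw [sub_eq_iff_eq_add]
      rcases le_or_gt 4 (JB D) with h | h
      · rw [min_eq_left h]
        exact (Finset.sum_range_add_sum_Ico _ h).symm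
      · rw [min_eq_right h.le, Finset.Ico_eq_empty (by omega)]
        simp
    rw [e1, ← Finset.sum_neg_distrib]
    calc ∑ l ∈ Finset.range 4, -((R9 κ l : ℝ) / 10) ≤ ∑ l ∈ Finset.range (min 4 (JB D)), -((R9 κ l : ℝ) / 10) := by
          rw [Finset.sum_neg_distrib, Finset.sum_neg_distrib, neg_le_neg_iff]
          refine Finset.sum_le_sum_of_subset_of_nonneg ?_ fun l _ _ => by positivity
          intro l hl
          exact Finset.mem_range.2 (lt_of_lt_of_le (Finset.mem_range.1 hl) (min_le_left _ _))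
      _ ≤ _ := by
          refine Finset.sum_le_sum fun l hl => ?_
          have h8 := hzR l (lt_of_lt_of_le (Finset.mem_range.1 hl) (min_le_right _ _))
          have h9 := (abs_le.1 (Complex.abs_re_le_norm (z l))).1
          linarith
  calc 1 / 4 * Real.exp (-(W + 2 * S3 + ∑ l ∈ Finset.range 4, (R9 κ l : ℝ) / 10))
      ≤ 1 / 4 * Real.exp ((∑ l ∈ Finset.range (JB D), (z l).re - 2 * S3 - W) +
          -∑ l ∈ Finset.Ico 4 (JB D), (z l).re) := by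
        refine mul_le_mul_of_nonneg_left (Real.exp_le_exp.2 ?_) (by norm_num)
        linarith
    _ = Real.exp (∑ l ∈ Finset.range (JB D), (z l).re - 2 * S3 - W) *
          (1 / 4 * Real.exp (-∑ l ∈ Finset.Ico 4 (JB D), (z l).re)) := by
        rw [Real.exp_add]; ring
    _ ≤ _ := mul_le_mul h2 h6 (by positivity) (norm_nonneg _)

end Pool.Agent.Run7.h74.DW
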