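import Pool.Agent.Run7.h74.DW.Parts
import Pool.Agent.Run7.h74.DW.Neg

set_option autoImplicit false

/-!
Project DW (helper74): the core theorem.
-/

namespace Pool.Agent.Run7.h74.DW

open Finset Filter Topology MeasureTheory Complex
open Pool.Agent.Q97.UM
open Pool.Agent.Run7.h74.SC (ch ph Ys Ye Yo Qo ge go mc mc_pos coeff_zero even_approx odd_approx)
open Run7.h311.CM (GGL GGL_meas)

noncomputable section

lemma shift_ind {T α : ℝ} (hT : 0 ≤ T) {S : Set ℝ} (hS : MeasurableSet S) (F : ℝ → ℝ) :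
    ∫ s in (T + α)..(2 * T + α), S.indicator F s = ∫ t in Set.Ioc T (2 * T) ∩ {t : ℝ | t + α ∈ S}, F (t + α) := by
  rw [← intervalIntegral.integral_comp_add_right (fun s => S.indicator F s) α,
    intervalIntegral.integral_of_le (by linarith)]
  have e : (fun t => S.indicator F (t + α)) = ((fun t => t + α) ⁻¹' S).indicator (fun t => F (t + α)) := by
    funext t
    by_cases h : t + α ∈ S
    · rw [Set.indicator_of_mem h, Set.indicator_of_mem (by exact h)]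
    · rw [Set.indicator_of_notMem h, Set.indicator_of_notMem (by exact h)]
  rw [e, setIntegral_indicator ((measurable_add_const α) hS)]
  rfl

lemma small_pow {ε : ℝ} (hε : 0 < ε) : ∀ᶠ T : ℝ in atTop, T ^ (1 / 4 : ℝ) * (2 + T ^ (1 / 8 : ℝ)) ≤ ε * T := by
  have h1 : Tendsto (fun T : ℝ => T ^ (1 / 2 : ℝ)) atTop atTop := tendsto_rpow_atTop (by norm_num)
  filter_upwards [h1.eventually_ge_atTop (3 / ε), eventually_ge_atTop 1] with T hT hT1
  have hT0 : 0 < T := by linarith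
  have h2 : (1 : ℝ) ≤ T ^ (1 / 8 : ℝ) := Real.one_le_rpow hT1 (by norm_num)
  have h3 : T ^ (1 / 4 : ℝ) * T ^ (1 / 8 : ℝ) ≤ T ^ (1 / 2 : ℝ) := by
    rw [← Real.rpow_add hT0]
    exact Real.rpow_le_rpow_of_exponent_le hT1 (by norm_num)
  have h4 : T ^ (1 / 2 : ℝ) * T ^ (1 / 2 : ℝ) = T := by
    rw [← Real.rpow_add hT0]
    norm_num
  have h5 : (0 : ℝ) ≤ T ^ (1 / 4 : ℝ) := by positivity
  have h6 : (0 : ℝ) < T ^ (1 / 2 : ℝ) := by positivity
  rw [div_le_iff₀ hε] at hT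
  calc T ^ (1 / 4 : ℝ) * (2 + T ^ (1 / 8 : ℝ)) ≤ T ^ (1 / 4 : ℝ) * (3 * T ^ (1 / 8 : ℝ)) := by gcongr; linarith
    _ = 3 * (T ^ (1 / 4 : ℝ) * T ^ (1 / 8 : ℝ)) := by ring
    _ ≤ 3 * T ^ (1 / 2 : ℝ) := by gcongr
    _ ≤ (T ^ (1 / 2 : ℝ) * ε) * T ^ (1 / 2 : ℝ) := by gcongr
    _ = ε * T := by linear_combination ε * h4

/-- the proof at a fixed height; all the inputs are hypotheses -/
lemma fixed {T α δ κ CS W cg m ηo ε₃ lam : ℝ} {N : ℕ} {b : ℕ → ℂ} {ρ : ℝ} {ω : ℂ} {Ne No : ℕ} {ee eo : ℕ → ℝ}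
    (hY : S_YB) (hρ : 0 < ρ) (hρ1 : ρ ≤ 1) (hω : ‖ω‖ = 1) (hT16 : 16 ≤ T) (hα : |α| ≤ T / 2) (hδ : 0 < δ)
    (hκ : 4 ≤ κ) (hδκ : (2 + 27 * κ) * δ ≤ 1 / 100) (hD1 : 1 ≤ δ * Real.log T) (hm : 0 < m) (hcg : 0 < cg)
    (hCS : 0 ≤ CS) (hηo : ηo = cg * m / (64 * (CS / 2 + 1)))
    (hε₃ : ε₃ = cg * m / (64 * ((∑ i ∈ range No, |eo i|) + 1) * (CS / 2 + 1)))
    (hlam : lam = cg * m / 16 / (CS + 1))
    (hee : ∀ x ∈ Set.Icc (-1 : ℝ) 1, |(∑ i ∈ range Ne, ee i * x ^ (2 * i)) - ge (1 - ρ ^ 2 / 2) x| ≤ m / 8)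
    (hA0 : m - m / 8 ≤ A0 ee Ne)
    (heo : ∀ x ∈ Set.Icc (-1 : ℝ) 1, |(∑ i ∈ range No, eo i * x ^ (2 * i + 1)) - go (1 - ρ ^ 2 / 2) x| ≤ ηo)
    (hN1 : 1 ≤ N) (hN : (N : ℝ) ≤ T ^ (δ * Real.exp (-4))) (hb : ∀ n, b n ≠ 0 → 1 ≤ n ∧ n ≤ N)
    (hneg : ∀ (M : ℕ) (f : ℕ → ℂ), (M : ℝ) ≤ T ^ (28 * κ * δ) → (∀ n, M < n → f n = 0) →
      ∫ t in Set.Ioc T (2 * T) ∩ {t : ℝ | t + α ∉ GGL δ κ 1 W T}, ‖dp M f t‖ ^ 2 ≤ m / 8 * (T * N2 M f))
    (hlow : ∀ s ∈ GGL δ κ 1 W T, cg ≤ ‖zt s‖ * ‖Yf (δ * Real.log T) κ s‖ ^ 2)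
    (hdat : Dat T α δ κ CS N b)
    (hev : ∀ a b : ℝ, Adm T a b → ∀ M : ℕ, (M : ℝ) ≤ T ^ (1 / 100 : ℝ) → ∀ (c : ℕ → ℂ) (ω : ℂ), ‖ω‖ = 1 →
      |(∫ t in a..b, wt a b t * (Ee ee Ne (starRingEnd ℂ ω ^ 2 * ph t) * ‖dp M c t‖ ^ 2)) -
        A0 ee Ne * ∫ t in a..b, wt a b t * ‖dp M c t‖ ^ 2| ≤ (∑ i ∈ range Ne, |ee i|) * (T ^ (1 / 4 : ℝ) * N2 M c))
    (hod : ∀ a b : ℝ, Adm T a b → ∀ M : ℕ, (M : ℝ) ≤ T ^ (1 / 100 : ℝ) → ∀ (c : ℕ → ℂ) (ω : ℂ), ‖ω‖ = 1 →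
      |∫ t in a..b, wt a b t * (Qo eo No ω (zt t) (ph t) * ‖dp M c t‖ ^ 2)| ≤
      (∑ i ∈ range No, |eo i|) * (T ^ (1 / 4 : ℝ) * N2 M c +
        ‖∫ t in a..b, (wt a b t : ℂ) * (zt t * ((‖dp M c t‖ ^ 2 : ℝ) : ℂ))‖))
    (hmean : ∀ a b : ℝ, Adm T a b → ∀ M : ℕ, (M : ℝ) ≤ T ^ (1 / 100 : ℝ) → ∀ c : ℕ → ℂ,
      |(∫ t in a..b, wt a b t * ‖dp M c t‖ ^ 2) - 2 / 3 * (b - a) * N2 M c| ≤ T ^ (1 / 4 : ℝ) * N2 M c)
    (hO3 : ∀ a b : ℝ, Adm T a b → ∀ (Q M : ℕ), 1 ≤ Q → (Q : ℝ) ≤ T ^ (1 / 100 : ℝ) → (M : ℝ) ≤ T ^ (1 / 100 : ℝ) →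
      ∀ P : Finset ℕ, (∀ p ∈ P, p.Prime ∧ p ≤ Q) → ∀ f : ℕ → ℂ, (∀ n, f n ≠ 0 → 1 ≤ n ∧ n ≤ M ∧ ∀ p ∈ P, ¬ p ∣ n) →
      ‖(∫ t in a..b, (wt a b t : ℂ) * (zt t * ((‖dp Q (vP P) t‖ ^ 2 * ‖dp M f t‖ ^ 2 : ℝ) : ℂ))) -
        ((1 - (∑ p ∈ P, (1 / p : ℝ)) / 4 : ℝ) : ℂ) * ∫ t in a..b, (wt a b t : ℂ) * (zt t * ((‖dp M f t‖ ^ 2 : ℝ) : ℂ))‖ ≤
        T ^ (1 / 4 : ℝ) * N2 M f)
    (hmer : |1 - (∑ p ∈ PT (δ * Real.log T), (1 / p : ℝ)) / 4| ≤ ε₃)
    (hTa : (3 * m / 4 + ∑ i ∈ range Ne, |ee i|) * T ^ (1 / 4 : ℝ) ≤ m / 4 * T)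
    (hTb : 2 * (∑ i ∈ range No, |eo i|) * (T ^ (1 / 4 : ℝ) * (2 + T ^ (1 / 8 : ℝ))) ≤ cg * m / 64 * T) :
    lam * (cg * m / 16) * (T * N2 N b) ≤ ∫ t in Set.Ioc T (2 * T) ∩ {t : ℝ | t + α ∈ Sec ρ ω}, ‖dp N b t‖ ^ 2 := by
  have hT0 : 0 < T := by linarith
  have hT1 : 1 ≤ T := by linarith
  obtain ⟨hα1, hα2⟩ := abs_le.1 hα
  set D := δ * Real.log T with hD
  have hD0 : 0 ≤ D := by linarith
  have hκ0 : 0 < κ := by linarith
  have hmono : ∀ {x y : ℝ}, x ≤ y → T ^ x ≤ T ^ y := fun h => Real.rpow_le_rpow_of_exponent_le hT1 h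
  have hTD : ∀ x : ℝ, T ^ (x * δ) = Real.exp (x * D) := by
    intro x
    rw [Real.rpow_def_of_pos hT0, hD]
    congr 1
    ring
  have hCP : 0 < CS / 2 + 1 := by linarith
  set CP := CS / 2 + 1 with hCPdef
  set Ke := ∑ i ∈ range Ne, |ee i| with hKe
  set Ko := ∑ i ∈ range No, |eo i| with hKo
  have hKe0 : 0 ≤ Ke := sum_nonneg fun i _ => abs_nonneg _
  have hKo0 : 0 ≤ Ko := sum_nonneg fun i _ => abs_nonneg _
  have hηo0 : 0 < ηo := by rw [hηo]; positivity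
  have hε₃0 : 0 < ε₃ := by rw [hε₃]; positivity
  have hlam0 : 0 < lam := by rw [hlam]; positivity
  have hadm : Adm T (T + α) (2 * T + α) := ⟨by linarith, by linarith, by linarith⟩
  have hab : T + α < 2 * T + α := by linarith
  have hba : 2 * T + α - (T + α) = T := by ring
  -- the polynomials
  set bt := tw α b with hbt
  have hbts := tw_supp hb α
  have hn2b : N2 N bt = N2 N b := N2_tw N b α
  have hN2b0 : 0 ≤ N2 N b := Pool.Agent.Q84.UM.N2_nonneg _ _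
  have hNX : (N : ℝ) ≤ XB D 4 := by
    refine hN.trans (le_of_eq ?_)
    rw [mul_comm δ, hTD]
    unfold XB
    congr 1
    push_cast
    ring
  obtain ⟨⟨M, f, hM1, hMle, hfs, hfe⟩, hN2⟩ := hY κ D (by linarith) hD1 N bt hN1 hNX hbts
  rw [hn2b] at hN2
  set Q := ⌊Real.exp D⌋₊ with hQ
  have hQ1 : 1 ≤ Q := (Nat.one_le_floor_iff _).2 (Real.one_le_exp hD0)
  have hQle : (Q : ℝ) ≤ Real.exp D := Nat.floor_le (Real.exp_pos _).le
  have hNle : (N : ℝ) ≤ Real.exp D := hNX.trans (XB4_le D hD0)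
  have hexp : ∀ {x : ℝ}, x ≤ 2 + 27 * κ → Real.exp (x * D) ≤ T ^ (1 / 100 : ℝ) := by
    intro x hx
    rw [← hTD]
    refine hmono (le_trans ?_ hδκ)
    exact mul_le_mul_of_nonneg_right hx hδ.le
  have hMle2 : (M : ℝ) ≤ Real.exp ((27 * κ + 1) * D) := by
    refine hMle.trans ?_
    calc Real.exp (27 * κ * D) * N ≤ Real.exp (27 * κ * D) * Real.exp D := by gcongr
      _ = _ := by rw [← Real.exp_add]; ring_nf
  have hQ100 : (Q : ℝ) ≤ T ^ (1 / 100 : ℝ) := by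
    refine hQle.trans ?_
    have := hexp (x := 1) (by linarith)
    rwa [one_mul] at this
  have hM100 : (M : ℝ) ≤ T ^ (1 / 100 : ℝ) := hMle2.trans (hexp (by linarith))
  have hQM : ((Q * M : ℕ) : ℝ) ≤ T ^ (1 / 100 : ℝ) := by
    push_cast
    calc (Q : ℝ) * M ≤ Real.exp D * Real.exp ((27 * κ + 1) * D) := by gcongr
      _ = Real.exp ((2 + 27 * κ) * D) := by rw [← Real.exp_add]; ring_nf
      _ ≤ _ := hexp le_rfl
  have hQN : ((Q * N : ℕ) : ℝ) ≤ Real.exp (2 * D) := by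
    push_cast
    calc (Q : ℝ) * N ≤ Real.exp D * Real.exp D := by gcongr
      _ = Real.exp (2 * D) := by rw [← Real.exp_add]; ring_nf
  have hQN100 : ((Q * N : ℕ) : ℝ) ≤ T ^ (1 / 100 : ℝ) := hQN.trans (hexp (by linarith))
  set vv := vP (PT D) with hvv
  have hvz : ∀ n, Q < n → vv n = 0 := vP_zero hD0
  have hbz : ∀ n, N < n → bt n = 0 := by
    intro n hn
    by_contra h
    have := (hbts n h).2
    omega
  have hfz : ∀ n, M < n → f n = 0 := by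
    intro n hn
    by_contra h
    have := (hfs n h).2.1
    omega
  set g₁ := cv vv bt with hg₁
  set g := cv vv f with hgdef
  have hP₁ : ∀ s, dp (Q * N) g₁ s = Vf D s * dp N bt s := fun s =>
    (Pool.Agent.Q84.UM.t_DPM.1 Q N vv bt s hvz hbz).symm
  have hP : ∀ s, dp (Q * M) g s = Vf D s * dp M f s := fun s =>
    (Pool.Agent.Q84.UM.t_DPM.1 Q M vv f s hvz hfz).symm
  have c1 := zt_cont
  have c2 := Yf_cont D κ
  have c3 := Vf_cont D
  have c4 := dp_cont N bt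
  set F : ℝ → ℝ := fun s => ‖Vf D s‖ ^ 2 * ‖Yf D κ s‖ ^ 2 * ‖dp N bt s‖ ^ 2 with hF
  have hFc : Continuous F := by
    rw [hF]
    fun_prop
  have hF0 : ∀ s, 0 ≤ F s := fun s => by simp only [hF]; positivity
  have F1 : ∀ s, ‖dp (Q * N) g₁ s‖ ^ 2 * ‖Yf D κ s‖ ^ 2 = F s := fun s => by
    rw [hP₁, norm_mul]; simp only [hF]; ring
  have F2 : ∀ s, ‖dp (Q * M) g s‖ ^ 2 = F s := fun s => by
    rw [hP, hfe, norm_mul, norm_mul]; simp only [hF]; ring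
  have F3 : ∀ s, ‖dp Q vv s‖ ^ 2 * ‖dp M f s‖ ^ 2 = F s := fun s => by
    rw [hfe, norm_mul]; simp only [hF]
    show ‖Vf D s‖ ^ 2 * _ = _
    ring
  have F4 : ∀ s, ‖dp M f s‖ ^ 2 = ‖Yf D κ s‖ ^ 2 * ‖dp N bt s‖ ^ 2 := fun s => by
    rw [hfe, norm_mul]; ring
  have Ft : ∀ t, F (t + α) = ‖Vf D (t + α)‖ ^ 2 * ‖Yf D κ (t + α)‖ ^ 2 * ‖dp N b t‖ ^ 2 := fun t => by
    simp only [hF, hbt, dp_tw]
  -- the mean values in the shifted variable
  have hI1 : ∫ s in (T + α)..(2 * T + α), ‖zt s‖ * F s ≤ CP * (T * N2 N b) := by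
    rw [← intervalIntegral.integral_comp_add_right (fun s => ‖zt s‖ * F s) α]
    refine le_trans (le_of_eq ?_) (hdat.first hT0)
    refine intervalIntegral.integral_congr fun t _ => ?_
    show ‖zt (t + α)‖ * F (t + α) = _
    rw [Ft]
  have hI2 : ∫ s in (T + α)..(2 * T + α), ‖zt s‖ * ‖dp M f s‖ ^ 2 ≤ CP * (T * N2 N b) := by
    rw [← intervalIntegral.integral_comp_add_right (fun s => ‖zt s‖ * ‖dp M f s‖ ^ 2) α]
    refine le_trans (le_of_eq ?_) (hdat.first1 hT0)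
    refine intervalIntegral.integral_congr fun t _ => ?_
    show ‖zt (t + α)‖ * ‖dp M f (t + α)‖ ^ 2 = _
    rw [F4, hbt, dp_tw]
  have h14 : (1 / 100 : ℝ) ≤ 1 / 4 := by norm_num
  have hN2g : N2 (Q * M) g ≤ (2 + T ^ (1 / 8 : ℝ)) * N2 N b := by
    have h1 := (Pool.Agent.Q84.UM.t_MVL T hT16 (Q * M) (hQM.trans (hmono h14)) (tw (-α) g)).1
    rw [N2_tw] at h1
    have h2 : ∫ t in T..(2 * T), ‖dp (Q * M) (tw (-α) g) t‖ ^ 2 ≤ (1 + T ^ (1 / 8 : ℝ) / 2) * (T * N2 N b) := by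
      refine le_trans (le_of_eq ?_) (hdat.sq hT0).1
      refine intervalIntegral.integral_congr fun t _ => ?_
      show ‖dp (Q * M) (tw (-α) g) t‖ ^ 2 = _
      rw [← dp_tw', F2, Ft]
    have h3 : T * N2 (Q * M) g ≤ T * ((2 + T ^ (1 / 8 : ℝ)) * N2 N b) := by linarith
    exact le_of_mul_le_mul_left h3 hT0
  have hN2f : N2 M f ≤ (2 + T ^ (1 / 8 : ℝ)) * N2 N b := by
    have h1 := (Pool.Agent.Q84.UM.t_MVL T hT16 M (hM100.trans (hmono h14)) (tw (-α) f)).1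
    rw [N2_tw] at h1
    have h2 : ∫ t in T..(2 * T), ‖dp M (tw (-α) f) t‖ ^ 2 ≤ (1 + T ^ (1 / 8 : ℝ) / 2) * (T * N2 N b) := by
      refine le_trans (le_of_eq ?_) (hdat.sq hT0).2
      refine intervalIntegral.integral_congr fun t _ => ?_
      show ‖dp M (tw (-α) f) t‖ ^ 2 = _
      rw [← dp_tw', F4, hbt, dp_tw]
    have h3 : T * N2 M f ≤ T * ((2 + T ^ (1 / 8 : ℝ)) * N2 N b) := by linarith
    exact le_of_mul_le_mul_left h3 hT0
  -- the even part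
  have hc₀ : 0 ≤ 1 - ρ ^ 2 / 2 := by nlinarith
  have heven : cg * (m / 8) * (T * N2 (Q * N) g₁) ≤
      ∫ s in (T + α)..(2 * T + α), wt (T + α) (2 * T + α) s * (Ye (1 - ρ ^ 2 / 2) ω (zt s) * F s) := by
    have h1 := even_part (a := T + α) (b := 2 * T + α) (c₀ := 1 - ρ ^ 2 / 2) (η := m / 8) (cg := cg) hc₀ (by positivity)
      hcg.le hee hω hab (GGL_meas δ κ 1 W T) (Y := Yf D κ) (P := dp (Q * N) g₁) c2 (dp_cont _ _)
      fun s hs => ⟨hs.1, hlow s hs⟩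
    have e1 : ∫ s in (T + α)..(2 * T + α), wt (T + α) (2 * T + α) s * (Ye (1 - ρ ^ 2 / 2) ω (zt s) *
        (‖dp (Q * N) g₁ s‖ ^ 2 * ‖Yf D κ s‖ ^ 2)) =
        ∫ s in (T + α)..(2 * T + α), wt (T + α) (2 * T + α) s * (Ye (1 - ρ ^ 2 / 2) ω (zt s) * F s) :=
      intervalIntegral.integral_congr fun s _ => by simp only [F1]
    rw [e1] at h1
    refine le_trans ?_ h1
    have h2 := (abs_le.1 (hev _ _ hadm (Q * N) hQN100 g₁ ω hω)).1
    have h3 := (abs_le.1 (hmean _ _ hadm (Q * N) hQN100 g₁)).1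
    have h4 : ∫ s in (T + α)..(2 * T + α), (GGL δ κ 1 W T)ᶜ.indicator (fun s => ‖dp (Q * N) g₁ s‖ ^ 2) s ≤
        m / 8 * (T * N2 (Q * N) g₁) := by
      rw [shift_ind hT0.le (GGL_meas δ κ 1 W T).compl]
      have h5 := hneg (Q * N) (tw (-α) g₁) (hQN.trans (by
        rw [← hTD]
        exact hmono (by nlinarith))) (fun n hn => by
          have h6 : g₁ n = 0 := by
            by_contra h
            have := (Pool.Agent.Q98.UM.cv_supp (b := vv) (c := bt) (N := Q) (M := N) (fun n hn => ?_) hbts n h).2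
            · omega
            · refine ⟨?_, ?_⟩
              · rcases Nat.eq_zero_or_pos n with h0 | h0
                · exfalso
                  apply hn
                  rw [h0, hvv]
                  unfold vP
                  rw [if_neg (by norm_num), if_neg]
                  intro h7
                  unfold PT at h7
                  exact absurd (Finset.mem_Icc.1 (Finset.mem_filter.1 h7).1).1 (by norm_num)
                · exact h0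
              · by_contra h7
                exact hn (hvz n (by omega))
          unfold tw
          rw [h6, zero_mul])
      rw [N2_tw] at h5
      refine le_trans (le_of_eq ?_) h5
      refine setIntegral_congr_fun ?_ fun t _ => ?_
      · exact measurableSet_Ioc.inter ((measurable_add_const α) (GGL_meas δ κ 1 W T).compl)
      · show ‖dp (Q * N) g₁ (t + α)‖ ^ 2 = _
        rw [dp_tw']
    rw [hba] at h3
    set I := ∫ s in (T + α)..(2 * T + α), wt (T + α) (2 * T + α) s * ‖dp (Q * N) g₁ s‖ ^ 2 with hI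
    set n1 := N2 (Q * N) g₁ with hn1
    have hn10 : 0 ≤ n1 := Pool.Agent.Q84.UM.N2_nonneg _ _
    have h5 : (A0 ee Ne - m / 8) * I ≥ 3 * m / 4 * (2 / 3 * T * n1 - T ^ (1 / 4 : ℝ) * n1) := by
      have hI0 : 0 ≤ I := by
        rw [hI]
        refine intervalIntegral.integral_nonneg hab.le fun s hs => ?_
        exact mul_nonneg (wt_nonneg hs.1 hs.2) (by positivity)
      calc (A0 ee Ne - m / 8) * I ≥ 3 * m / 4 * I := mul_le_mul_of_nonneg_right (by linarith) hI0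
        _ ≥ _ := mul_le_mul_of_nonneg_left (by linarith) (by positivity)
    have h6 := mul_le_mul_of_nonneg_right hTa hn10
    rw [mul_assoc cg]
    refine mul_le_mul_of_nonneg_left ?_ hcg.le
    have h7 : 0 ≤ m * (T * n1) := by positivity
    linarith
  -- the odd part
  have hodd : |∫ s in (T + α)..(2 * T + α), wt (T + α) (2 * T + α) s * (Yo (1 - ρ ^ 2 / 2) ω (zt s) * F s)| ≤
      cg * m / 16 * (T * N2 N b) := by
    refine (odd_part heo hηo0.le hω hab hFc hF0).trans ?_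
    have h1 := hod _ _ hadm (Q * M) hQM g ω hω
    simp only [F2] at h1
    have h2 := hO3 _ _ hadm Q M hQ1 hQ100 hM100 (PT D) (fun p hp => ?_) f hfs
    swap
    · unfold PT at hp
      rw [Finset.mem_filter, Finset.mem_Icc] at hp
      exact ⟨hp.2.1, hp.1.2⟩
    rw [← hvv] at h2
    simp only [F3] at h2
    have h3 : ‖∫ t in (T + α)..(2 * T + α), (wt (T + α) (2 * T + α) t : ℂ) * (zt t * ((‖dp M f t‖ ^ 2 : ℝ) : ℂ))‖ ≤
        CP * (T * N2 N b) := by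
      refine (intervalIntegral.norm_integral_le_integral_norm hab.le).trans (le_trans ?_ hI2)
      have c5 := dp_cont M f
      have c6 := wt_cont (T + α) (2 * T + α)
      refine intervalIntegral.integral_mono_on hab.le (Continuous.intervalIntegrable (by fun_prop) _ _)
        (Continuous.intervalIntegrable (by fun_prop) _ _) fun s hs => ?_
      have w0 := wt_nonneg hs.1 hs.2
      have w1 := wt_le (t := s) hab
      rw [norm_mul, norm_mul, Complex.norm_real, Complex.norm_real, Real.norm_of_nonneg w0,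
        Real.norm_of_nonneg (by positivity : (0:ℝ) ≤ ‖dp M f s‖ ^ 2)]
      calc wt (T + α) (2 * T + α) s * (‖zt s‖ * ‖dp M f s‖ ^ 2) ≤ 1 * (‖zt s‖ * ‖dp M f s‖ ^ 2) := by gcongr
        _ = _ := one_mul _
    have h4 : ‖∫ t in (T + α)..(2 * T + α), (wt (T + α) (2 * T + α) t : ℂ) * (zt t * ((F t : ℝ) : ℂ))‖ ≤
        ε₃ * (CP * (T * N2 N b)) + T ^ (1 / 4 : ℝ) * ((2 + T ^ (1 / 8 : ℝ)) * N2 N b) := by
      have h5 := norm_le_norm_add_norm_sub' (∫ t in (T + α)..(2 * T + α), (wt (T + α) (2 * T + α) t : ℂ) *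
        (zt t * ((F t : ℝ) : ℂ))) (((1 - (∑ p ∈ PT D, (1 / p : ℝ)) / 4 : ℝ) : ℂ) *
          ∫ t in (T + α)..(2 * T + α), (wt (T + α) (2 * T + α) t : ℂ) * (zt t * ((‖dp M f t‖ ^ 2 : ℝ) : ℂ)))
      refine h5.trans (add_le_add ?_ (h2.trans (mul_le_mul_of_nonneg_left hN2f (by positivity))))
      rw [norm_mul, Complex.norm_real, Real.norm_eq_abs]
      exact mul_le_mul hmer h3 (norm_nonneg _) hε₃0.le
    have h6 : ηo * ∫ s in (T + α)..(2 * T + α), ‖zt s‖ * F s ≤ cg * m / 64 * (T * N2 N b) := by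
      refine (mul_le_mul_of_nonneg_left hI1 hηo0.le).trans (le_of_eq ?_)
      rw [hηo]
      field_simp
    have h7 : Ko * (ε₃ * (CP * (T * N2 N b))) ≤ cg * m / 64 * (T * N2 N b) := by
      have e1 : Ko * (ε₃ * (CP * (T * N2 N b))) = (Ko / (Ko + 1)) * (cg * m / 64 * (T * N2 N b)) := by
        rw [hε₃]
        field_simp
      rw [e1]
      refine mul_le_of_le_one_left (by positivity) ?_
      rw [div_le_one (by positivity)]
      linarith
    have h8 : Ko * (T ^ (1 / 4 : ℝ) * N2 (Q * M) g) ≤ Ko * (T ^ (1 / 4 : ℝ) * ((2 + T ^ (1 / 8 : ℝ)) * N2 N b)) := by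
      gcongr
    have h9 := mul_le_mul_of_nonneg_right hTb hN2b0
    have h10 := mul_le_mul_of_nonneg_left h4 hKo0
    have h11 : 0 ≤ cg * m * (T * N2 N b) := by positivity
    calc _ ≤ Ko * (T ^ (1 / 4 : ℝ) * N2 (Q * M) g +
          ‖∫ t in (T + α)..(2 * T + α), (wt (T + α) (2 * T + α) t : ℂ) * (zt t * ((F t : ℝ) : ℂ))‖) +
          cg * m / 64 * (T * N2 N b) := add_le_add h1 h6
      _ ≤ _ := by
        rw [mul_add]
        rw [mul_add] at h10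
        have e2 : Ko * (T ^ (1 / 4 : ℝ) * ((2 + T ^ (1 / 8 : ℝ)) * N2 N b)) +
            Ko * (T ^ (1 / 4 : ℝ) * ((2 + T ^ (1 / 8 : ℝ)) * N2 N b)) =
            2 * Ko * (T ^ (1 / 4 : ℝ) * (2 + T ^ (1 / 8 : ℝ))) * N2 N b := by ring
        linarith
  -- the sector
  have hsec := sector_part hρ hρ1 hω hab hFc hF0
  rw [shift_ind hT0.le (Sec_meas ρ ω)] at hsec
  have h1 : cg * m / 16 * (T * N2 N b) ≤
      ∫ t in Set.Ioc T (2 * T) ∩ {t : ℝ | t + α ∈ Sec ρ ω}, ‖zt (t + α)‖ * F (t + α) := by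
    have h2 := (abs_le.1 hodd).1
    have h3 : cg * (m / 8) * (T * N2 N b) ≤ cg * (m / 8) * (T * N2 (Q * N) g₁) := by gcongr
    linarith
  -- AM-GM
  set S := Set.Ioc T (2 * T) ∩ {t : ℝ | t + α ∈ Sec ρ ω} with hS
  have hSm : MeasurableSet S := measurableSet_Ioc.inter ((measurable_add_const α) (Sec_meas ρ ω))
  have hSsub : S ⊆ Set.Ioc T (2 * T) := Set.inter_subset_left
  have c7 := dp_cont N b
  have hint : ∀ G : ℝ → ℝ, Continuous G → IntegrableOn G (Set.Ioc T (2 * T)) := fun G hG =>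
    (hG.integrableOn_Icc (a := T) (b := 2 * T)).mono_set Set.Ioc_subset_Icc_self
  set G₁ : ℝ → ℝ := fun t => ‖zt (t + α)‖ ^ 2 * (‖Yf D κ (t + α)‖ ^ 4 * (1 + ‖Vf D (t + α)‖ ^ 4) * ‖dp N b t‖ ^ 2) with hG₁
  have hG₁c : Continuous G₁ := by rw [hG₁]; fun_prop
  have hBc : Continuous fun t => ‖dp N b t‖ ^ 2 := by fun_prop
  have hzF : Continuous fun t => ‖zt (t + α)‖ * F (t + α) := by fun_prop
  have h2 : ∫ t in S, ‖zt (t + α)‖ * F (t + α) ≤
      lam / 2 * (CS * (T * N2 N b)) + 1 / (2 * lam) * ∫ t in S, ‖dp N b t‖ ^ 2 := by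
    calc ∫ t in S, ‖zt (t + α)‖ * F (t + α) ≤ ∫ t in S, (lam / 2 * G₁ t + 1 / (2 * lam) * ‖dp N b t‖ ^ 2) := by
          refine setIntegral_mono_on ((hint _ hzF).mono_set hSsub)
            ((((hint _ hG₁c).mono_set hSsub).const_mul _).add (((hint _ hBc).mono_set hSsub).const_mul _)) hSm
            fun t _ => ?_
          rw [Ft]
          exact amgm hlam0 (by positivity)
      _ = lam / 2 * (∫ t in S, G₁ t) + 1 / (2 * lam) * ∫ t in S, ‖dp N b t‖ ^ 2 := by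
          rw [integral_add (((hint _ hG₁c).mono_set hSsub).const_mul _) (((hint _ hBc).mono_set hSsub).const_mul _),
            integral_const_mul, integral_const_mul]
      _ ≤ _ := by
          gcongr
          refine (setIntegral_mono_set (hint _ hG₁c) (Eventually.of_forall fun t => by
            simp only [Pi.zero_apply, hG₁]; positivity) (Eventually.of_forall hSsub)).trans ?_
          rw [← intervalIntegral.integral_of_le (by linarith)]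
          have := hdat.sec
          linarith
  set J := ∫ t in S, ‖dp N b t‖ ^ 2 with hJ
  have h3 : lam / 2 * (CS * (T * N2 N b)) ≤ cg * m / 32 * (T * N2 N b) := by
    rw [hlam]
    have e1 : cg * m / 16 / (CS + 1) / 2 * (CS * (T * N2 N b)) = (CS / (CS + 1)) * (cg * m / 32 * (T * N2 N b)) := by
      field_simp
      ring
    rw [e1]
    refine mul_le_of_le_one_left (by positivity) ?_
    rw [div_le_one (by positivity)]
    linarith
  have h4 : cg * m / 32 * (T * N2 N b) ≤ 1 / (2 * lam) * J := by linarith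
  have h5 := mul_le_mul_of_nonneg_left h4 (by positivity : (0:ℝ) ≤ 2 * lam)
  have e2 : 2 * lam * (1 / (2 * lam) * J) = J := by field_simp
  rw [e2] at h5
  linarith

end

end Pool.Agent.Run7.h74.DW
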