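import Pool.Agent.Run7.h74.DW.Core3

set_option autoImplicit false

/-!
Project DW (helper74): the core theorem, assembly of the constants.
-/

namespace Pool.Agent.Run7.h74.DW

open Finset Filter Topology MeasureTheory Complex
open Pool.Agent.Q97.UM
open Pool.Agent.Run7.h74.SC (ch ph Ys Ye Yo Qo ge go mc mc_pos coeff_zero even_approx odd_approx)
open Run7.h311.CM (GGL GGL_meas)

noncomputable section

theorem core (hH : S_H1) (hO : S_O3) (hM : S_MER) (hS : S_SEC) (hY : S_YB) : S_CORE := by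
  intro ρ hρ hρ1
  have hc0 : 0 ≤ 1 - ρ ^ 2 / 2 := by nlinarith
  have hc1 : 1 - ρ ^ 2 / 2 < 1 := by nlinarith
  have hm := mc_pos hc1
  set m := mc (1 - ρ ^ 2 / 2) with hmdef
  obtain ⟨κ₁, hκ₁, hneg⟩ := neg_main (m / 8) (by positivity)
  obtain ⟨κ₀, hκ₀, hsec⟩ := hS
  obtain ⟨κ, hκa, hκb⟩ : ∃ κ : ℝ, κ₀ ≤ κ ∧ κ₁ ≤ κ := ⟨max κ₀ κ₁, le_max_left _ _, le_max_right _ _⟩
  have hκ4 : 4 ≤ κ := hκ₀.trans hκa
  obtain ⟨δ₁, hδ₁, hneg⟩ := hneg κ hκb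
  obtain ⟨δ₀, hδ₀, hsec⟩ := hsec κ hκa
  obtain ⟨δ, hδ, hδa, hδb, hδc⟩ : ∃ δ : ℝ, 0 < δ ∧ δ ≤ δ₀ ∧ δ ≤ δ₁ ∧ (2 + 27 * κ) * δ ≤ 1 / 100 := by
    refine ⟨min (min δ₀ δ₁) (1 / (100 * (2 + 27 * κ))), by positivity, (min_le_left _ _).trans (min_le_left _ _),
      (min_le_left _ _).trans (min_le_right _ _), ?_⟩
    have h1 : 0 < 2 + 27 * κ := by linarith
    calc (2 + 27 * κ) * min (min δ₀ δ₁) (1 / (100 * (2 + 27 * κ))) ≤ (2 + 27 * κ) * (1 / (100 * (2 + 27 * κ))) :=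
          mul_le_mul_of_nonneg_left (min_le_right _ _) h1.le
      _ = 1 / 100 := by field_simp
  obtain ⟨W, hW, hneg⟩ := hneg δ hδ hδb
  obtain ⟨CS, hCS, hsec⟩ := hsec δ hδ hδa
  obtain ⟨cg, hcg, hlow⟩ := lowg κ W hκ4
  obtain ⟨Ne, ee, hee⟩ := even_approx (1 - ρ ^ 2 / 2) (η := m / 8) (by positivity)
  have hA0 : m - m / 8 ≤ A0 ee Ne := coeff_zero hee
  obtain ⟨ηo, hηo⟩ : ∃ ηo : ℝ, ηo = cg * m / (64 * (CS / 2 + 1)) := ⟨_, rfl⟩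
  have hηo0 : 0 < ηo := by rw [hηo]; positivity
  obtain ⟨No, eo, heo⟩ := odd_approx (1 - ρ ^ 2 / 2) (η := ηo) hηo0
  obtain ⟨ε₃, hε₃⟩ : ∃ ε₃ : ℝ, ε₃ = cg * m / (64 * ((∑ i ∈ range No, |eo i|) + 1) * (CS / 2 + 1)) := ⟨_, rfl⟩
  have hKo0 : 0 ≤ ∑ i ∈ range No, |eo i| := sum_nonneg fun i _ => abs_nonneg _
  have hKe0 : 0 ≤ ∑ i ∈ range Ne, |ee i| := sum_nonneg fun i _ => abs_nonneg _
  have hε₃0 : 0 < ε₃ := by rw [hε₃]; positivity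
  obtain ⟨lam, hlam⟩ : ∃ lam : ℝ, lam = cg * m / 16 / (CS + 1) := ⟨_, rfl⟩
  have hlam0 : 0 < lam := by rw [hlam]; positivity
  refine ⟨δ * Real.exp (-4), lam * (cg * m / 16), by positivity, ?_, by positivity, ?_⟩
  · have h1 : Real.exp (-4) ≤ 1 := Real.exp_le_one_iff.2 (by norm_num)
    have h2 : δ ≤ 1 / 4 := by nlinarith
    nlinarith
  have hDt : Tendsto (fun T : ℝ => δ * Real.log T) atTop atTop := Real.tendsto_log_atTop.const_mul_atTop hδ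
  have hmer : ∀ᶠ T : ℝ in atTop, |1 - (∑ p ∈ PT (δ * Real.log T), (1 / p : ℝ)) / 4| ≤ ε₃ := by
    have h1 : Tendsto (fun T : ℝ => 1 - (∑ p ∈ PT (δ * Real.log T), (1 / p : ℝ)) / 4) atTop (𝓝 (1 - 4 / 4)) :=
      tendsto_const_nhds.sub ((hM.comp hDt).div_const 4)
    norm_num at h1
    have h2 := (h1.norm).eventually_le_const (u := ε₃) (by simpa using hε₃0)
    filter_upwards [h2] with T hT
    simpa [Real.norm_eq_abs] using hT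
  have hTa : ∀ᶠ T : ℝ in atTop, (3 * m / 4 + ∑ i ∈ range Ne, |ee i|) * T ^ (1 / 4 : ℝ) ≤ m / 4 * T := by
    filter_upwards [small_pow (ε := m / 4 / (3 * m / 4 + ∑ i ∈ range Ne, |ee i|)) (by positivity),
      eventually_ge_atTop 1] with T hT hT1
    have h1 : (0 : ℝ) ≤ T ^ (1 / 8 : ℝ) := by positivity
    have h2 : (0 : ℝ) ≤ T ^ (1 / 4 : ℝ) := by positivity
    have h3 : T ^ (1 / 4 : ℝ) ≤ m / 4 / (3 * m / 4 + ∑ i ∈ range Ne, |ee i|) * T := by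
      refine le_trans ?_ hT
      nlinarith
    calc (3 * m / 4 + ∑ i ∈ range Ne, |ee i|) * T ^ (1 / 4 : ℝ) ≤ (3 * m / 4 + ∑ i ∈ range Ne, |ee i|) *
          (m / 4 / (3 * m / 4 + ∑ i ∈ range Ne, |ee i|) * T) := by gcongr
      _ = m / 4 * T := by field_simp
  have hTb : ∀ᶠ T : ℝ in atTop, 2 * (∑ i ∈ range No, |eo i|) * (T ^ (1 / 4 : ℝ) * (2 + T ^ (1 / 8 : ℝ))) ≤
      cg * m / 64 * T := by
    filter_upwards [small_pow (ε := cg * m / 64 / (2 * (∑ i ∈ range No, |eo i|) + 1)) (by positivity),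
      eventually_ge_atTop 1] with T hT hT1
    have h1 : (0 : ℝ) ≤ T ^ (1 / 4 : ℝ) * (2 + T ^ (1 / 8 : ℝ)) := by positivity
    calc 2 * (∑ i ∈ range No, |eo i|) * (T ^ (1 / 4 : ℝ) * (2 + T ^ (1 / 8 : ℝ))) ≤
          (2 * (∑ i ∈ range No, |eo i|) + 1) * (T ^ (1 / 4 : ℝ) * (2 + T ^ (1 / 8 : ℝ))) :=
          mul_le_mul_of_nonneg_right (by linarith) h1
      _ ≤ (2 * (∑ i ∈ range No, |eo i|) + 1) * (cg * m / 64 / (2 * (∑ i ∈ range No, |eo i|) + 1) * T) := by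
          gcongr
      _ = cg * m / 64 * T := by field_simp
  filter_upwards [hneg, hsec, even_mean hH Ne ee, odd_mean hH No eo, hO, hH 1 le_rfl, hmer, hTa, hTb,
    eventually_ge_atTop 16, hDt.eventually_ge_atTop 1] with T hneg hsec hev hod hO3 hmean hmer hTa hTb hT16 hD1
  intro α hα N hN b hb ω hω
  have hT0 : 0 < T := by linarith
  have hT1 : 1 ≤ T := by linarith
  have hn0 : 0 ≤ ∫ t in Set.Ioc T (2 * T) ∩ {t : ℝ | t + α ∈ Sec ρ ω}, ‖dp N b t‖ ^ 2 :=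
    integral_nonneg fun t => by positivity
  rcases Nat.eq_zero_or_pos N with h0 | hN1
  · have e1 : N2 N b = 0 := by rw [h0]; unfold N2; simp
    rw [e1, mul_zero, mul_zero]
    exact hn0
  have h4 : Real.exp (-4) ≤ 1 := Real.exp_le_one_iff.2 (by norm_num)
  have hNδ : (N : ℝ) ≤ T ^ δ := hN.trans (Real.rpow_le_rpow_of_exponent_le hT1 (by nlinarith))
  have hN4 : (N : ℝ) ≤ T ^ (1 / 4 : ℝ) := hNδ.trans (Real.rpow_le_rpow_of_exponent_le hT1 (by nlinarith))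
  obtain ⟨s1, s2⟩ := hsec α hα N hNδ b hb
  have hdat : Dat T α δ κ CS N b := ⟨s1, s2, (Pool.Agent.Q84.UM.t_MVL T hT16 N hN4 b).2⟩
  exact fixed hY hρ hρ1 hω hT16 hα hδ hκ4 hδc hD1 hm hcg hCS hηo hε₃ hlam hee hA0 heo hN1 hN hb
    (fun M f => hneg α hα M f) (fun s hs => hlow δ T hT1 hD1 s hs) hdat hev hod
    (fun a b hab M hM c => (hmean a b hab M hM c).2.2) hO3 hmer hTa hTb

end

end Pool.Agent.Run7.h74.DW
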