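import Pool.Agent.Run7.h74.DW.Iface
import Pool.Agent.Run7.h74.SC.Alg
import Pool.Agent.Q84.UM.DPM
import Pool.Agent.Q84.UM.R2

set_option autoImplicit false

/-!
Project DW (helper74): the even harmonics.
-/

namespace Pool.Agent.Run7.h74.DW

open Finset Filter Topology MeasureTheory Complex
open Pool.Agent.Q97.UM
open Pool.Agent.Run7.h74.SC (ch ph dd mul_conj_one vw_pow re_vw re_pow ge go ge_cont go_cont)

noncomputable section

/-- the even combination as a function of the square of the direction -/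
def Ee (a : ℕ → ℝ) (N : ℕ) (q : ℂ) : ℝ :=
  ∑ i ∈ range N, a i * ∑ m ∈ range (2 * i + 1), ((2 * i).choose m : ℝ) / 2 ^ (2 * i) * (q ^ (dd (2 * i) m / 2)).re

lemma sum_choose' (n : ℕ) : ∑ m ∈ range (n + 1), ((n.choose m : ℝ) / 2 ^ n) = 1 := by
  rw [← sum_div, ← Nat.cast_sum, Nat.sum_range_choose]
  push_cast
  exact div_self (by positivity)

lemma dd_even (i m : ℕ) : ∃ j, dd (2 * i) m = 2 * j := by
  unfold dd
  rcases le_or_gt i m with h | h
  · exact ⟨m - i, by omega⟩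
  · exact ⟨i - m, by omega⟩

lemma Ee_eq (a : ℕ → ℝ) (N : ℕ) {v : ℂ} (hv : ‖v‖ = 1) : Ee a N (v ^ 2) = ∑ i ∈ range N, a i * v.re ^ (2 * i) := by
  unfold Ee
  refine sum_congr rfl fun i _ => ?_
  rw [re_pow hv]
  congr 1
  refine sum_congr rfl fun m _ => ?_
  obtain ⟨j, hj⟩ := dd_even i m
  rw [hj, show 2 * j / 2 = j by omega, ← pow_mul]

lemma exists_root {q : ℂ} (hq : ‖q‖ = 1) : ∃ v : ℂ, ‖v‖ = 1 ∧ v ^ 2 = q := by
  obtain ⟨v, hv⟩ := IsAlgClosed.exists_pow_nat_eq q (n := 2) (by norm_num)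
  refine ⟨v, ?_, hv⟩
  have h1 : ‖v‖ ^ 2 = 1 := by rw [← norm_pow, hv, hq]
  have h2 := norm_nonneg v
  nlinarith

lemma Ee_near {c η : ℝ} {N : ℕ} {a : ℕ → ℝ}
    (h : ∀ x ∈ Set.Icc (-1 : ℝ) 1, |(∑ i ∈ range N, a i * x ^ (2 * i)) - ge c x| ≤ η) {v : ℂ} (hv : ‖v‖ = 1) :
    |Ee a N (v ^ 2) - ge c v.re| ≤ η := by
  rw [Ee_eq a N hv]
  exact h _ (abs_le.mp ((Complex.abs_re_le_norm _).trans hv.le))

lemma ge_le {c x : ℝ} (hc : 0 ≤ c) (hx : |x| ≤ 1) : ge c x ≤ 1 / 2 := by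
  have h := abs_le.mp hx
  unfold ge
  have h1 : max (x - c) 0 ≤ 1 := max_le (by linarith [h.2]) zero_le_one
  have h2 : max (-x - c) 0 ≤ 1 := max_le (by linarith [h.1]) zero_le_one
  rcases le_or_gt 0 x with h3 | h3
  · have h4 : max (-x - c) 0 = 0 := max_eq_right (by linarith)
    linarith
  · have h4 : max (x - c) 0 = 0 := max_eq_right (by linarith)
    linarith

lemma ge_nonneg (c x : ℝ) : 0 ≤ ge c x := by unfold ge; positivity

lemma Ee_le {c η : ℝ} (hc : 0 ≤ c) {N : ℕ} {a : ℕ → ℝ}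
    (h : ∀ x ∈ Set.Icc (-1 : ℝ) 1, |(∑ i ∈ range N, a i * x ^ (2 * i)) - ge c x| ≤ η) {q : ℂ} (hq : ‖q‖ = 1) :
    Ee a N q ≤ 1 / 2 + η := by
  obtain ⟨v, hv, hvq⟩ := exists_root hq
  have h1 := abs_le.mp (Ee_near h hv)
  rw [hvq] at h1
  have h2 := ge_le hc (x := v.re) ((Complex.abs_re_le_norm _).trans hv.le)
  linarith [h1.2]

lemma Ee_cont (a : ℕ → ℝ) (N : ℕ) (ω : ℂ) : Continuous fun t => Ee a N (starRingEnd ℂ ω ^ 2 * ph t) := by
  unfold Ee
  have h := Pool.Agent.Run7.h74.SC.ph_cont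
  fun_prop

/-- the main coefficient -/
def A0 (a : ℕ → ℝ) (N : ℕ) : ℝ := ∑ i ∈ range N, a i * (((2 * i).choose i : ℝ) / 2 ^ (2 * i))

lemma dp_cont (M : ℕ) (c : ℕ → ℂ) : Continuous (dp M c) := (Pool.Agent.Q84.UM.t_DPM.2.2 M c 0).2

lemma wt_cont (a b : ℝ) : Continuous (wt a b) := by
  unfold wt; fun_prop

lemma zt_cont : Continuous zt := Pool.Agent.Q84.UM.zt_cont

/-- the mean of the even combination -/
theorem even_mean (hH : S_H1) (N : ℕ) (e : ℕ → ℝ) : ∀ᶠ T : ℝ in atTop, ∀ a b : ℝ, Adm T a b →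
    ∀ M : ℕ, (M : ℝ) ≤ T ^ (1 / 100 : ℝ) → ∀ (c : ℕ → ℂ) (ω : ℂ), ‖ω‖ = 1 →
    |(∫ t in a..b, wt a b t * (Ee e N (starRingEnd ℂ ω ^ 2 * ph t) * ‖dp M c t‖ ^ 2)) -
      A0 e N * ∫ t in a..b, wt a b t * ‖dp M c t‖ ^ 2| ≤ (∑ i ∈ range N, |e i|) * (T ^ (1 / 4 : ℝ) * N2 M c) := by
  have h1 : ∀ᶠ T : ℝ in atTop, ∀ j ∈ range (2 * N + 1), 1 ≤ j → ∀ a b : ℝ, Adm T a b →
      ∀ M : ℕ, (M : ℝ) ≤ T ^ (1 / 100 : ℝ) → ∀ c : ℕ → ℂ,
      ‖∫ t in a..b, (wt a b t : ℂ) * (ph t ^ j * ((‖dp M c t‖ ^ 2 : ℝ) : ℂ))‖ ≤ T ^ (1 / 4 : ℝ) * N2 M c := by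
    rw [Filter.eventually_all_finset]
    intro j _
    by_cases hj : 1 ≤ j
    · filter_upwards [hH j hj] with T hT _ a b hab M hM c
      exact (hT a b hab M hM c).1
    · exact Eventually.of_forall fun T h => absurd h hj
  filter_upwards [h1, eventually_ge_atTop (10:ℝ)] with T hT hT10 a b hab M hM c ω hω
  have hn2 : 0 ≤ T ^ (1 / 4 : ℝ) * N2 M c := mul_nonneg (by positivity) (Pool.Agent.Q84.UM.N2_nonneg _ _)
  -- the single harmonics
  have hhar : ∀ j : ℕ, j < 2 * N + 1 → 1 ≤ j →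
      |∫ t in a..b, wt a b t * (((starRingEnd ℂ ω ^ 2 * ph t) ^ j).re * ‖dp M c t‖ ^ 2)| ≤ T ^ (1 / 4 : ℝ) * N2 M c := by
    intro j hj hj1
    have h2 := hT j (mem_range.2 hj) hj1 a b hab M hM c
    have e1 : ∫ t in a..b, wt a b t * (((starRingEnd ℂ ω ^ 2 * ph t) ^ j).re * ‖dp M c t‖ ^ 2) =
        ((starRingEnd ℂ ω ^ 2) ^ j * ∫ t in a..b, (wt a b t : ℂ) * (ph t ^ j * ((‖dp M c t‖ ^ 2 : ℝ) : ℂ))).re := by
      rw [← intervalIntegral.integral_const_mul]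
      have hc : Continuous fun t => (starRingEnd ℂ ω ^ 2) ^ j * ((wt a b t : ℂ) * (ph t ^ j * ((‖dp M c t‖ ^ 2 : ℝ) : ℂ))) := by
        have h3 := Pool.Agent.Run7.h74.SC.ph_cont
        have h4 := dp_cont M c
        have h5 := wt_cont a b
        fun_prop
      have e2 := (Complex.reCLM.intervalIntegral_comp_comm (μ := volume) (hc.intervalIntegrable a b))
      simp only [Complex.reCLM_apply] at e2
      rw [← e2]
      refine intervalIntegral.integral_congr fun t _ => ?_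
      show _ = _
      rw [show (starRingEnd ℂ ω ^ 2) ^ j * ((wt a b t : ℂ) * (ph t ^ j * ((‖dp M c t‖ ^ 2 : ℝ) : ℂ))) =
        ((wt a b t * ‖dp M c t‖ ^ 2 : ℝ) : ℂ) * (starRingEnd ℂ ω ^ 2 * ph t) ^ j by
          rw [mul_pow]; push_cast; ring, Complex.re_ofReal_mul]
      ring
    rw [e1]
    refine (Complex.abs_re_le_norm _).trans ?_
    rw [norm_mul, norm_pow, norm_pow, RCLike.norm_conj, hω, one_pow, one_pow, one_mul]
    exact h2
  -- expansion
  have hcw := wt_cont a b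
  have hcd := dp_cont M c
  have hcp := Pool.Agent.Run7.h74.SC.ph_cont
  have hint : ∀ j : ℕ, IntervalIntegrable (fun t => wt a b t * (((starRingEnd ℂ ω ^ 2 * ph t) ^ j).re * ‖dp M c t‖ ^ 2))
      volume a b := fun j => Continuous.intervalIntegrable (by fun_prop) _ _
  have e3 : ∫ t in a..b, wt a b t * (Ee e N (starRingEnd ℂ ω ^ 2 * ph t) * ‖dp M c t‖ ^ 2) =
      ∑ i ∈ range N, e i * ∑ m ∈ range (2 * i + 1), ((2 * i).choose m : ℝ) / 2 ^ (2 * i) *
        ∫ t in a..b, wt a b t * (((starRingEnd ℂ ω ^ 2 * ph t) ^ (dd (2 * i) m / 2)).re * ‖dp M c t‖ ^ 2) := by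
    have e0 : ∀ t, wt a b t * (Ee e N (starRingEnd ℂ ω ^ 2 * ph t) * ‖dp M c t‖ ^ 2) =
        ∑ i ∈ range N, ∑ m ∈ range (2 * i + 1), (e i * (((2 * i).choose m : ℝ) / 2 ^ (2 * i))) *
          (wt a b t * (((starRingEnd ℂ ω ^ 2 * ph t) ^ (dd (2 * i) m / 2)).re * ‖dp M c t‖ ^ 2)) := by
      intro t
      unfold Ee
      rw [sum_mul, mul_sum]
      refine sum_congr rfl fun i _ => ?_
      rw [mul_sum, sum_mul, mul_sum]
      refine sum_congr rfl fun m _ => ?_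
      ring
    rw [intervalIntegral.integral_congr fun t _ => e0 t, intervalIntegral.integral_finsetSum]
    · refine sum_congr rfl fun i _ => ?_
      rw [intervalIntegral.integral_finsetSum, mul_sum]
      · refine sum_congr rfl fun m _ => ?_
        rw [intervalIntegral.integral_const_mul, mul_assoc]
      · intro m _
        exact (hint _).const_mul _
    · intro i _
      refine Continuous.intervalIntegrable ?_ _ _
      fun_prop
  have e4 : A0 e N * ∫ t in a..b, wt a b t * ‖dp M c t‖ ^ 2 =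
      ∑ i ∈ range N, e i * (((2 * i).choose i : ℝ) / 2 ^ (2 * i) * ∫ t in a..b, wt a b t * ‖dp M c t‖ ^ 2) := by
    unfold A0
    rw [sum_mul]
    refine sum_congr rfl fun i _ => ?_
    ring
  rw [e3, e4, ← sum_sub_distrib]
  refine (abs_sum_le_sum_abs _ _).trans ?_
  rw [sum_mul]
  refine sum_le_sum fun i hi => ?_
  rw [← mul_sub, abs_mul]
  refine mul_le_mul_of_nonneg_left ?_ (abs_nonneg _)
  have hi' := mem_range.1 hi
  have himem : i ∈ range (2 * i + 1) := mem_range.2 (by omega)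
  rw [← sum_erase_add _ _ himem]
  have e5 : dd (2 * i) i / 2 = 0 := by unfold dd; omega
  rw [e5]
  simp only [pow_zero, Complex.one_re, one_mul, add_sub_cancel_right]
  refine (abs_sum_le_sum_abs _ _).trans ?_
  have hs := sum_choose' (2 * i)
  calc ∑ m ∈ (range (2 * i + 1)).erase i, |((2 * i).choose m : ℝ) / 2 ^ (2 * i) *
        ∫ t in a..b, wt a b t * (((starRingEnd ℂ ω ^ 2 * ph t) ^ (dd (2 * i) m / 2)).re * ‖dp M c t‖ ^ 2)|
      ≤ ∑ m ∈ (range (2 * i + 1)).erase i, ((2 * i).choose m : ℝ) / 2 ^ (2 * i) * (T ^ (1 / 4 : ℝ) * N2 M c) := by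
        refine sum_le_sum fun m hm => ?_
        rw [abs_mul, abs_of_nonneg (by positivity)]
        refine mul_le_mul_of_nonneg_left ?_ (by positivity)
        rw [mem_erase, mem_range] at hm
        refine hhar _ ?_ ?_
        · unfold dd; omega
        · unfold dd; omega
    _ ≤ ∑ m ∈ range (2 * i + 1), ((2 * i).choose m : ℝ) / 2 ^ (2 * i) * (T ^ (1 / 4 : ℝ) * N2 M c) :=
        sum_le_sum_of_subset_of_nonneg (erase_subset _ _) fun m _ _ => by positivity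
    _ = T ^ (1 / 4 : ℝ) * N2 M c := by rw [← sum_mul, hs, one_mul]

end

end Pool.Agent.Run7.h74.DW
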