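import Pool.Agent.Run7.h311.CM.LinM

set_option autoImplicit false

/-!
Project DW (helper74): the data of helper311's theorem with a prescribed small length and for longer polynomials
(a variant of `Run7.h311.CM.lin_main`, same proof).
-/

open Filter Topology MeasureTheory Complex
open Pool.Agent.Q97.UM

namespace Pool.Agent.Run7.h74.DW

open Run7.h311.CM
open Pool.Agent.Q14.UM (KB' dp_qb sum_zj KB_le KB_one qb_len cv_len exp_neg_le exp_neg_mul_nat geo_le)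
open Pool.Agent.Q98.UM (EP_PA S3 S3_nonneg norm_ap_le cv_supp supp_zero shift_bd ae_zt)

/-- the data -/
structure LD2 (A ε δ κ W c C T : ℝ) : Prop where
  neg : ∀ α : ℝ, |α| ≤ T / 2 → ∀ (M : ℕ) (f : ℕ → ℂ), (M : ℝ) ≤ T ^ (28 * κ * δ) → (∀ n, M < n → f n = 0) →
    ∫ t in Set.Ioc T (2 * T) ∩ {t : ℝ | t + α ∉ GGL δ κ A W T}, ‖dp M f t‖ ^ 2 ≤ ε * (T * N2 M f)
  supp : ∀ (n : ℕ) (k α : Fin n → ℝ), ∀ m, ec δ κ T k α m ≠ 0 → 1 ≤ m ∧ m ≤ M9 (δ * Real.log T) κ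
  ord : ∀ (n : ℕ) (k α : Fin n → ℝ), ∑ j, |k j| ≤ A →
    c * Real.exp (QF' k α T) ≤ N2 (M9 (δ * Real.log T) κ) (ec δ κ T k α) ∧
      N2 (M9 (δ * Real.log T) κ) (ec δ κ T k α) ≤ C * Real.exp (QF' k α T)
  pt : ∀ (n : ℕ) (k α : Fin n → ℝ), ∑ j, |k j| ≤ A → ∀ t : ℝ, (∀ j, t + α j ∈ GGL δ κ A W T) →
    c * ‖dp (M9 (δ * Real.log T) κ) (ec δ κ T k α) t‖ ^ 2 ≤ ∏ j, ‖zt (t + α j)‖ ^ (2 * k j) ∧
      ∏ j, ‖zt (t + α j)‖ ^ (2 * k j) ≤ C * ‖dp (M9 (δ * Real.log T) κ) (ec δ κ T k α) t‖ ^ 2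

theorem lin_main2 (A ε θ₀ : ℝ) (hA : 1 ≤ A) (hε : 0 < ε) (hθ₀ : 0 < θ₀) : ∃ δ κ W c C : ℝ, 0 < δ ∧
    4 ≤ κ ∧ 28 * κ * δ ≤ 1 / 8 ∧ 28 * κ * δ ≤ θ₀ ∧ 0 < W ∧ 0 < c ∧ 0 < C ∧ ∀ᶠ T : ℝ in atTop, LD2 A ε δ κ W c C T := by
  obtain ⟨θ₃, δ₀, hθ₃, hδ₀, hTP⟩ := b_THP 1
  obtain ⟨C₀, hC₀, hblk⟩ := blk_sum
  obtain ⟨κ₀, hκ₀, c₂, C₂, hc₂, hC₂, hEN⟩ := b_EN2 A hA
  obtain ⟨κ, hκ4, hκκ, hκε⟩ : ∃ κ : ℝ, 4 ≤ κ ∧ κ₀ ≤ κ ∧ 200 * A ^ 2 * C₀ / κ ≤ ε / 2 := by
    refine ⟨max κ₀ (400 * A ^ 2 * C₀ / ε), hκ₀.trans (le_max_left _ _), le_max_left _ _, ?_⟩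
    have h1 : 0 < max κ₀ (400 * A ^ 2 * C₀ / ε) := lt_of_lt_of_le (by linarith) (le_max_left _ _)
    rw [div_le_iff₀ h1]
    have h2 := le_max_right κ₀ (400 * A ^ 2 * C₀ / ε)
    have h3 : ε / 2 * (400 * A ^ 2 * C₀ / ε) = 200 * A ^ 2 * C₀ := by
      field_simp
      norm_num
    rw [← h3]
    exact mul_le_mul_of_nonneg_left h2 (by positivity)
  have hκ0 : 0 < κ := by linarith
  obtain ⟨θ, hθ0, hθ40, hθa, hθb⟩ : ∃ θ : ℝ, 0 < θ ∧ θ ≤ 1 / 8 ∧ θ ≤ θ₃ ∧ θ ≤ θ₀ :=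
    ⟨min (1 / 8) (min θ₃ θ₀), by positivity, min_le_left _ _, (min_le_right _ _).trans (min_le_left _ _),
      (min_le_right _ _).trans (min_le_right _ _)⟩
  obtain ⟨δ, hδ, hδ1, hδ2⟩ : ∃ δ : ℝ, 0 < δ ∧ 30 * κ * δ ≤ θ ∧ δ ≤ δ₀ := by
    refine ⟨min (θ / (30 * κ)) δ₀, by positivity, ?_, min_le_right _ _⟩
    calc 30 * κ * min (θ / (30 * κ)) δ₀ ≤ 30 * κ * (θ / (30 * κ)) :=
          mul_le_mul_of_nonneg_left (min_le_left _ _) (by positivity)
      _ = θ := by field_simp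
  have hδ1' : δ ≤ 1 := by nlinarith
  obtain ⟨C₁, hC₁, hTP⟩ := hTP δ hδ hδ2
  obtain ⟨C₃, hC₃, hPR⟩ := form_two hδ hδ1'
  obtain ⟨W, hW, hWε⟩ : ∃ W : ℝ, 0 < W ∧ C₁ / W ≤ ε / 2 := by
    refine ⟨2 * C₁ / ε + 1, by positivity, ?_⟩
    rw [div_le_iff₀ (by positivity)]
    have : ε / 2 * (2 * C₁ / ε + 1) = C₁ + ε / 2 := by field_simp
    linarith
  have hS3 := S3_nonneg
  set K : ℝ := 2 * A * W + 4 * A * S3 with hK
  have hK0 : 0 ≤ K := by positivity
  refine ⟨δ, κ, W, min (c₂ * Real.exp (-(A ^ 2 * C₃))) (Real.exp (-K) / 4),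
    max (C₂ * Real.exp (A ^ 2 * C₃)) (4 * Real.exp K) + 1, hδ, hκ4, by nlinarith, by nlinarith, hW, by positivity,
    by positivity, ?_⟩
  filter_upwards [hTP, hPR, eventually_ge_atTop 16,
    (Real.tendsto_log_atTop.eventually_ge_atTop (1 / δ))] with T hTP hPR hT16 hLδ
  have hT0 : 0 < T := by linarith
  have hT1 : 1 ≤ T := by linarith
  have hD1 : 1 ≤ δ * Real.log T := by
    rw [div_le_iff₀ hδ] at hLδ
    linarith
  set D := δ * Real.log T with hD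
  have hTδ : T ^ δ = Real.exp D := by
    rw [Real.rpow_def_of_pos hT0, hD, mul_comm]
  have hmono : ∀ {x y : ℝ}, x ≤ y → T ^ x ≤ T ^ y := fun h => Real.rpow_le_rpow_of_exponent_le hT1 h
  have hneg : ∀ α : ℝ, |α| ≤ T / 2 → ∀ (M : ℕ) (f : ℕ → ℂ), (M : ℝ) ≤ T ^ (28 * κ * δ) →
      (∀ n, M < n → f n = 0) →
      ∫ t in Set.Ioc T (2 * T) ∩ {t : ℝ | t + α ∉ GGL δ κ A W T}, ‖dp M f t‖ ^ 2 ≤ ε * (T * N2 M f) := by
    intro α hα M f hM hf
    rcases Nat.eq_zero_or_pos M with h0 | hM1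
    · subst h0
      have e1 : N2 0 f = 0 := by unfold N2; simp
      have e2 : ∀ t, dp 0 f t = 0 := fun t => by unfold dp; simp
      simp [e1, e2]
    refine (out_lin (M := M) hδ hκ4 hA hW hC₀ hC₁ hT16 hD1 hblk (by linarith) hM1 hM
      (fun b => hTP M (hM.trans (hmono (by nlinarith))) b) hf hα).trans ?_
    exact mul_le_mul_of_nonneg_right (by linarith) (mul_nonneg hT0.le (N2_nonneg _ _))
  have hcof : ∀ (n : ℕ) (k α : Fin n → ℝ), (∀ m, ec δ κ T k α m ≠ 0 → 1 ≤ m ∧ m ≤ M9 D κ) ∧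
      ∀ t, dp (M9 D κ) (ec δ κ T k α) t = Ef D κ (ap k α) (ap k fun j => 2 * α j) 0 t := by
    intro n k α
    have h := b_COF κ D (by linarith) hD1 (ap k α) (ap k fun j => 2 * α j) u1 u1 0 0
    rw [Nat.sub_zero] at h
    exact ⟨h.1, h.2.1⟩
  refine ⟨hneg, fun n k α => (hcof n k α).1, ?_, ?_⟩
  · intro n k α hk
    have h1 := hEN κ D (ap k α) (ap k fun j => 2 * α j) hκκ hD1 (norm_ap_le k α hk) (norm_ap_le k _ hk)
    rw [← hTδ] at h1
    have h2 := abs_le.1 (hPR A n k α hk)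
    constructor
    · refine le_trans ?_ h1.1
      calc min (c₂ * Real.exp (-(A ^ 2 * C₃))) (Real.exp (-K) / 4) * Real.exp (QF' k α T)
          ≤ c₂ * Real.exp (-(A ^ 2 * C₃)) * Real.exp (QF' k α T) :=
            mul_le_mul_of_nonneg_right (min_le_left _ _) (by positivity)
        _ = c₂ * Real.exp (QF' k α T - A ^ 2 * C₃) := by
            rw [mul_assoc, ← Real.exp_add]
            congr 2
            ring
        _ ≤ _ := mul_le_mul_of_nonneg_left (Real.exp_le_exp.mpr (by linarith [h2.1])) hc₂.le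
    · refine h1.2.trans ?_
      calc C₂ * Real.exp (∑ p ∈ (Finset.Icc 1 ⌊T ^ δ⌋₊).filter Nat.Prime, ‖ap k α p‖ ^ 2 / p)
          ≤ C₂ * Real.exp (QF' k α T + A ^ 2 * C₃) :=
            mul_le_mul_of_nonneg_left (Real.exp_le_exp.mpr (by linarith [h2.2])) hC₂
        _ = C₂ * Real.exp (A ^ 2 * C₃) * Real.exp (QF' k α T) := by
            rw [Real.exp_add]
            ring
        _ ≤ (max (C₂ * Real.exp (A ^ 2 * C₃)) (4 * Real.exp K) + 1) * Real.exp (QF' k α T) := by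
            refine mul_le_mul_of_nonneg_right ?_ (Real.exp_pos _).le
            linarith [le_max_left (C₂ * Real.exp (A ^ 2 * C₃)) (4 * Real.exp K)]
  · intro n k α hk t ht2
    obtain ⟨hes, hed⟩ := hcof n k α
    set e : ℕ → ℂ := ec δ κ T k α with he
    set M := M9 D κ with hM
    have hpt : Real.exp (-K) / 4 * ‖dp M e t‖ ^ 2 ≤ ∏ j, ‖zt (t + α j)‖ ^ (2 * k j) ∧
        ∏ j, ‖zt (t + α j)‖ ^ (2 * k j) ≤ 4 * Real.exp K * ‖dp M e t‖ ^ 2 := by
      obtain ⟨g1, g2⟩ := reg_two hA hk hκ4 hD1 (fun j => (ht2 j).2.2)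
      rw [← hTδ] at g1 g2
      rw [hed]
      set E := ‖Ef D κ (ap k α) (ap k fun j => 2 * α j) 0 t‖ with hE
      set x := ∑ j, k j * EP ⌊T ^ δ⌋₊ (t + α j) with hx
      have hE2a : 1 / 4 * Real.exp (2 * x - 4 * A * S3) ≤ E ^ 2 := by
        have := pow_le_pow_left₀ (by positivity) g1 2
        rw [mul_pow, ← Real.exp_nat_mul] at this
        refine le_trans (le_of_eq ?_) this
        norm_num
        ring_nf
      have hE2b : E ^ 2 ≤ 4 * Real.exp (2 * x + 4 * A * S3) := by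
        have := pow_le_pow_left₀ (norm_nonneg _) g2 2
        rw [mul_pow, ← Real.exp_nat_mul] at this
        refine le_trans this (le_of_eq ?_)
        norm_num
        ring_nf
      have hprod : ∏ j, ‖zt (t + α j)‖ ^ (2 * k j) =
          Real.exp (∑ j, Real.log ‖zt (t + α j)‖ * (2 * k j)) := by
        rw [Real.exp_sum]
        exact Finset.prod_congr rfl fun j _ => Real.rpow_def_of_pos (norm_pos_iff.mpr (ht2 j).1) _
      have hv : |(∑ j, Real.log ‖zt (t + α j)‖ * (2 * k j)) - 2 * x| ≤ 2 * A * W := by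
        rw [hx, Finset.mul_sum, ← Finset.sum_sub_distrib]
        refine (Finset.abs_sum_le_sum_abs _ _).trans ?_
        calc ∑ j, |Real.log ‖zt (t + α j)‖ * (2 * k j) - 2 * (k j * EP ⌊T ^ δ⌋₊ (t + α j))|
            ≤ ∑ j, 2 * |k j| * W := by
              refine Finset.sum_le_sum fun j _ => ?_
              have e1 : Real.log ‖zt (t + α j)‖ * (2 * k j) - 2 * (k j * EP ⌊T ^ δ⌋₊ (t + α j)) =
                  2 * k j * (Real.log ‖zt (t + α j)‖ - EP ⌊T ^ δ⌋₊ (t + α j)) := by ring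
              rw [e1, abs_mul, abs_mul, abs_two]
              exact mul_le_mul_of_nonneg_left (ht2 j).2.1 (by positivity)
          _ = 2 * (∑ j, |k j|) * W := by rw [← Finset.sum_mul, ← Finset.mul_sum]
          _ ≤ 2 * A * W := by gcongr
      have hv3 := abs_le.1 hv
      rw [hprod]
      constructor
      · calc Real.exp (-K) / 4 * E ^ 2 ≤ Real.exp (-K) / 4 * (4 * Real.exp (2 * x + 4 * A * S3)) := by gcongr
          _ = Real.exp (2 * x - 2 * A * W) := by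
              rw [hK]
              have : Real.exp (2 * x - 2 * A * W) = Real.exp (-(2 * A * W + 4 * A * S3)) *
                  Real.exp (2 * x + 4 * A * S3) := by
                rw [← Real.exp_add]
                congr 1
                ring
              rw [this]
              ring
          _ ≤ _ := Real.exp_le_exp.2 (by linarith [hv3.1])
      · calc Real.exp (∑ j, Real.log ‖zt (t + α j)‖ * (2 * k j)) ≤ Real.exp (2 * x + 2 * A * W) :=
              Real.exp_le_exp.2 (by linarith [hv3.2])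
          _ = 4 * Real.exp K * (1 / 4 * Real.exp (2 * x - 4 * A * S3)) := by
              rw [hK]
              have : Real.exp (2 * x + 2 * A * W) = Real.exp (2 * A * W + 4 * A * S3) *
                  Real.exp (2 * x - 4 * A * S3) := by
                rw [← Real.exp_add]
                congr 1
                ring
              rw [this]
              ring
          _ ≤ _ := by gcongr
    refine ⟨le_trans ?_ hpt.1, hpt.2.trans ?_⟩
    · exact mul_le_mul_of_nonneg_right (min_le_right _ _) (by positivity)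
    · have h7 := le_max_right (C₂ * Real.exp (A ^ 2 * C₃)) (4 * Real.exp K)
      exact mul_le_mul_of_nonneg_right (h7.trans (by linarith)) (by positivity)

end Pool.Agent.Run7.h74.DW
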