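import Pool.Agent.Run7.h74.DW.Even

set_option autoImplicit false

/-!
Project DW (helper74): the odd harmonics.
-/

namespace Pool.Agent.Run7.h74.DW

open Finset Filter Topology MeasureTheory Complex
open Pool.Agent.Q97.UM
open Pool.Agent.Run7.h74.SC (ch ph dd Hod Qo)

noncomputable section

lemma Qo_cont (e : ℕ → ℝ) (N : ℕ) (ω : ℂ) : Continuous fun t => Qo e N ω (zt t) (ph t) := by
  unfold Qo Hod
  have h := Pool.Agent.Run7.h74.SC.ph_cont
  have h2 := zt_cont
  fun_prop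

/-- the mean of the odd combination -/
theorem odd_mean (hH : S_H1) (N : ℕ) (e : ℕ → ℝ) : ∀ᶠ T : ℝ in atTop, ∀ a b : ℝ, Adm T a b →
    ∀ M : ℕ, (M : ℝ) ≤ T ^ (1 / 100 : ℝ) → ∀ (c : ℕ → ℂ) (ω : ℂ), ‖ω‖ = 1 →
    |∫ t in a..b, wt a b t * (Qo e N ω (zt t) (ph t) * ‖dp M c t‖ ^ 2)| ≤
      (∑ i ∈ range N, |e i|) * (T ^ (1 / 4 : ℝ) * N2 M c +
        ‖∫ t in a..b, (wt a b t : ℂ) * (zt t * ((‖dp M c t‖ ^ 2 : ℝ) : ℂ))‖) := by
  have h1 : ∀ᶠ T : ℝ in atTop, ∀ j ∈ range (2 * N + 1), 1 ≤ j → ∀ a b : ℝ, Adm T a b →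
      ∀ M : ℕ, (M : ℝ) ≤ T ^ (1 / 100 : ℝ) → ∀ c : ℕ → ℂ,
      ‖∫ t in a..b, (wt a b t : ℂ) * (zt t * ph t ^ j * ((‖dp M c t‖ ^ 2 : ℝ) : ℂ))‖ ≤
        T ^ (1 / 4 : ℝ) * N2 M c := by
    rw [Filter.eventually_all_finset]
    intro j _
    by_cases hj : 1 ≤ j
    · filter_upwards [hH j hj] with T hT _ a b hab M hM c
      exact (hT a b hab M hM c).2.1
    · exact Eventually.of_forall fun T h => absurd h hj
  filter_upwards [h1, eventually_ge_atTop (10:ℝ)] with T hT hT10 a b hab M hM c ω hω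
  set m₀ : ℝ := ‖∫ t in a..b, (wt a b t : ℂ) * (zt t * ((‖dp M c t‖ ^ 2 : ℝ) : ℂ))‖ with hm₀
  have hm₀' : 0 ≤ m₀ := norm_nonneg _
  have hn2 : 0 ≤ T ^ (1 / 4 : ℝ) * N2 M c := mul_nonneg (by positivity) (Pool.Agent.Q84.UM.N2_nonneg _ _)
  set K : ℝ := T ^ (1 / 4 : ℝ) * N2 M c + m₀ with hK
  have hcw := wt_cont a b
  have hcd := dp_cont M c
  have hcp := Pool.Agent.Run7.h74.SC.ph_cont
  have hcz := zt_cont
  -- one term
  have hterm : ∀ j : ℕ, j < 2 * N + 1 → ‖∫ t in a..b, (wt a b t : ℂ) * (zt t * ph t ^ j * ((‖dp M c t‖ ^ 2 : ℝ) : ℂ))‖ ≤ K := by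
    intro j hj
    rcases Nat.eq_zero_or_pos j with h0 | h0
    · subst h0
      simp only [pow_zero, mul_one]
      rw [hK]
      linarith
    · have := hT j (mem_range.2 hj) h0 a b hab M hM c
      rw [hK]
      linarith
  have hone : ∀ n m : ℕ, (dd n m - 1) / 2 < 2 * N + 1 →
      |∫ t in a..b, wt a b t * ((Hod n m ω (zt t) (ph t)).re * ‖dp M c t‖ ^ 2)| ≤ K := by
    intro n m hj
    have e1 : ∫ t in a..b, wt a b t * ((Hod n m ω (zt t) (ph t)).re * ‖dp M c t‖ ^ 2) =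
        (starRingEnd ℂ ω ^ dd n m * ∫ t in a..b, (wt a b t : ℂ) *
          (zt t * ph t ^ ((dd n m - 1) / 2) * ((‖dp M c t‖ ^ 2 : ℝ) : ℂ))).re := by
      rw [← intervalIntegral.integral_const_mul]
      have hc : Continuous fun t => starRingEnd ℂ ω ^ dd n m * ((wt a b t : ℂ) *
          (zt t * ph t ^ ((dd n m - 1) / 2) * ((‖dp M c t‖ ^ 2 : ℝ) : ℂ))) := by fun_prop
      have e2 := (Complex.reCLM.intervalIntegral_comp_comm (μ := volume) (hc.intervalIntegrable a b))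
      simp only [Complex.reCLM_apply] at e2
      rw [← e2]
      refine intervalIntegral.integral_congr fun t _ => ?_
      show _ = _
      unfold Hod
      rw [show starRingEnd ℂ ω ^ dd n m * ((wt a b t : ℂ) * (zt t * ph t ^ ((dd n m - 1) / 2) * ((‖dp M c t‖ ^ 2 : ℝ) : ℂ))) =
        ((wt a b t * ‖dp M c t‖ ^ 2 : ℝ) : ℂ) * (starRingEnd ℂ ω ^ dd n m * (zt t * ph t ^ ((dd n m - 1) / 2))) by
          push_cast; ring, Complex.re_ofReal_mul]
      ring
    rw [e1]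
    refine (Complex.abs_re_le_norm _).trans ?_
    rw [norm_mul, norm_pow, RCLike.norm_conj, hω, one_pow, one_mul]
    exact hterm _ hj
  have e3 : ∫ t in a..b, wt a b t * (Qo e N ω (zt t) (ph t) * ‖dp M c t‖ ^ 2) =
      ∑ i ∈ range N, e i * ∑ m ∈ range (2 * i + 1 + 1), ((2 * i + 1).choose m : ℝ) / 2 ^ (2 * i + 1) *
        ∫ t in a..b, wt a b t * ((Hod (2 * i + 1) m ω (zt t) (ph t)).re * ‖dp M c t‖ ^ 2) := by
    have e0 : ∀ t, wt a b t * (Qo e N ω (zt t) (ph t) * ‖dp M c t‖ ^ 2) =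
        ∑ i ∈ range N, ∑ m ∈ range (2 * i + 1 + 1), (e i * (((2 * i + 1).choose m : ℝ) / 2 ^ (2 * i + 1))) *
          (wt a b t * ((Hod (2 * i + 1) m ω (zt t) (ph t)).re * ‖dp M c t‖ ^ 2)) := by
      intro t
      unfold Qo
      rw [sum_mul, mul_sum]
      refine sum_congr rfl fun i _ => ?_
      rw [mul_sum, sum_mul, mul_sum]
      refine sum_congr rfl fun m _ => ?_
      ring
    have hint : ∀ n m : ℕ, Continuous fun t => wt a b t * ((Hod n m ω (zt t) (ph t)).re * ‖dp M c t‖ ^ 2) := by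
      intro n m
      unfold Hod
      fun_prop
    rw [intervalIntegral.integral_congr fun t _ => e0 t, intervalIntegral.integral_finsetSum]
    · refine sum_congr rfl fun i _ => ?_
      rw [intervalIntegral.integral_finsetSum, mul_sum]
      · refine sum_congr rfl fun m _ => ?_
        rw [intervalIntegral.integral_const_mul, mul_assoc]
      · intro m _
        exact ((hint _ _).intervalIntegrable _ _).const_mul _
    · intro i _
      refine Continuous.intervalIntegrable (continuous_finsetSum _ fun m _ => continuous_const.mul (hint _ _)) _ _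
  rw [e3]
  refine (abs_sum_le_sum_abs _ _).trans ?_
  rw [sum_mul]
  refine sum_le_sum fun i hi => ?_
  rw [abs_mul]
  refine mul_le_mul_of_nonneg_left ?_ (abs_nonneg _)
  have hi' := mem_range.1 hi
  refine (abs_sum_le_sum_abs _ _).trans ?_
  have hs := sum_choose' (2 * i + 1)
  calc ∑ m ∈ range (2 * i + 1 + 1), |((2 * i + 1).choose m : ℝ) / 2 ^ (2 * i + 1) *
        ∫ t in a..b, wt a b t * ((Hod (2 * i + 1) m ω (zt t) (ph t)).re * ‖dp M c t‖ ^ 2)|
      ≤ ∑ m ∈ range (2 * i + 1 + 1), ((2 * i + 1).choose m : ℝ) / 2 ^ (2 * i + 1) * K := by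
        refine sum_le_sum fun m hm => ?_
        rw [abs_mul, abs_of_nonneg (by positivity)]
        refine mul_le_mul_of_nonneg_left ?_ (by positivity)
        rw [mem_range] at hm
        refine hone _ _ ?_
        unfold dd; omega
    _ = K := by rw [← sum_mul, hs, one_mul]

end

end Pool.Agent.Run7.h74.DW
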