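import Pool.Agent.Run7.h74.DW.Core2

set_option autoImplicit false

/-!
Project DW (helper74): the parts of the proof of the core theorem.
-/

namespace Pool.Agent.Run7.h74.DW

open Finset Filter Topology MeasureTheory Complex
open Pool.Agent.Q97.UM
open Pool.Agent.Run7.h74.SC (ch ph Ys Ye Yo Qo ge go mc Ys_nonneg Ye_nonneg Ys_le Ye_le Yo_abs Ys_zero Ys_split Qo_near)

noncomputable section

lemma dp_tw' (M : ℕ) (g : ℕ → ℂ) (α t : ℝ) : dp M g (t + α) = dp M (tw (-α) g) t := by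
  have h := (Pool.Agent.Q84.UM.t_DPM.2.1 M g t (-α)).1
  rw [sub_neg_eq_add] at h
  rw [h]
  rfl

/-- the even part -/
lemma even_part {a b c₀ η cg : ℝ} {N : ℕ} {e : ℕ → ℝ} (hc : 0 ≤ c₀) (_hη : 0 ≤ η) (hcg : 0 ≤ cg)
    (h : ∀ x ∈ Set.Icc (-1 : ℝ) 1, |(∑ i ∈ range N, e i * x ^ (2 * i)) - ge c₀ x| ≤ η) {ω : ℂ} (hω : ‖ω‖ = 1)
    (hab : a < b) {G : Set ℝ} (hG : MeasurableSet G) {Y P : ℝ → ℂ} (hY : Continuous Y) (hP : Continuous P)
    (hg : ∀ s ∈ G, zt s ≠ 0 ∧ cg ≤ ‖zt s‖ * ‖Y s‖ ^ 2) :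
    cg * ((∫ s in a..b, wt a b s * (Ee e N (starRingEnd ℂ ω ^ 2 * ph s) * ‖P s‖ ^ 2)) -
      η * (∫ s in a..b, wt a b s * ‖P s‖ ^ 2) - 1 / 2 * ∫ s in a..b, Gᶜ.indicator (fun s => ‖P s‖ ^ 2) s) ≤
      ∫ s in a..b, wt a b s * (Ye c₀ ω (zt s) * (‖P s‖ ^ 2 * ‖Y s‖ ^ 2)) := by
  have c1 := wt_cont a b
  have c2 := Ee_cont e N ω
  have c3 := Ye_cont c₀ ω
  have i1 : IntervalIntegrable (fun s => wt a b s * (Ee e N (starRingEnd ℂ ω ^ 2 * ph s) * ‖P s‖ ^ 2)) volume a b :=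
    Continuous.intervalIntegrable (by fun_prop) _ _
  have i2 : IntervalIntegrable (fun s => η * (wt a b s * ‖P s‖ ^ 2)) volume a b :=
    Continuous.intervalIntegrable (by fun_prop) _ _
  have i3 : IntervalIntegrable (fun s => 1 / 2 * Gᶜ.indicator (fun s => ‖P s‖ ^ 2) s) volume a b := by
    refine IntervalIntegrable.const_mul ?_ _
    rw [intervalIntegrable_iff_integrableOn_Ioc_of_le hab.le]
    refine Integrable.indicator ?_ hG.compl
    exact (((hP.norm.pow 2).integrableOn_Icc (a := a) (b := b)).mono_set Set.Ioc_subset_Icc_self)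
  have e1 : (∫ s in a..b, wt a b s * (Ee e N (starRingEnd ℂ ω ^ 2 * ph s) * ‖P s‖ ^ 2)) -
      η * (∫ s in a..b, wt a b s * ‖P s‖ ^ 2) - 1 / 2 * (∫ s in a..b, Gᶜ.indicator (fun s => ‖P s‖ ^ 2) s) =
      ∫ s in a..b, (wt a b s * (Ee e N (starRingEnd ℂ ω ^ 2 * ph s) * ‖P s‖ ^ 2) - η * (wt a b s * ‖P s‖ ^ 2) -
        1 / 2 * Gᶜ.indicator (fun s => ‖P s‖ ^ 2) s) := by
    rw [intervalIntegral.integral_sub (i1.sub i2) i3, intervalIntegral.integral_sub i1 i2,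
      intervalIntegral.integral_const_mul, intervalIntegral.integral_const_mul]
  rw [e1, ← intervalIntegral.integral_const_mul]
  refine intervalIntegral.integral_mono_on hab.le (((i1.sub i2).sub i3).const_mul _)
    (Continuous.intervalIntegrable (by fun_prop) _ _) fun s hs => ?_
  have w0 := wt_nonneg hs.1 hs.2
  have w1 := wt_le (t := s) hab
  have hph : ‖ph s‖ = 1 := Pool.Agent.Run7.h74.SC.ph_norm s
  have hq : ‖starRingEnd ℂ ω ^ 2 * ph s‖ = 1 := by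
    rw [norm_mul, norm_pow, RCLike.norm_conj, hω, hph]; norm_num
  have hEe := Ee_le hc h hq
  have hP0 : 0 ≤ ‖P s‖ ^ 2 := by positivity
  have hY0 : 0 ≤ ‖Y s‖ ^ 2 := by positivity
  set E := Ee e N (starRingEnd ℂ ω ^ 2 * ph s) with hE
  by_cases hs' : s ∈ G
  · rw [Set.indicator_of_notMem (by simpa using hs')]
    obtain ⟨hz, hcg'⟩ := hg s hs'
    have h1 := Ye_lower h hz hω
    rw [← hE] at h1
    have hm0 : 0 ≤ max (E - η) 0 := le_max_right _ _
    calc cg * (wt a b s * (E * ‖P s‖ ^ 2) - η * (wt a b s * ‖P s‖ ^ 2) - 1 / 2 * 0)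
        = cg * (wt a b s * ((E - η) * ‖P s‖ ^ 2)) := by ring
      _ ≤ cg * (wt a b s * (max (E - η) 0 * ‖P s‖ ^ 2)) := by
          gcongr
          exact le_max_left _ _
      _ ≤ (‖zt s‖ * ‖Y s‖ ^ 2) * (wt a b s * (max (E - η) 0 * ‖P s‖ ^ 2)) := by gcongr
      _ = wt a b s * (‖zt s‖ * max (E - η) 0 * (‖P s‖ ^ 2 * ‖Y s‖ ^ 2)) := by ring
      _ ≤ _ := by gcongr
  · rw [Set.indicator_of_mem (by simpa using hs')]
    have h2 : wt a b s * (E - η) ≤ 1 / 2 := by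
      rcases le_or_gt (E - η) 0 with h3 | h3
      · have := mul_nonneg w0 (neg_nonneg.2 h3)
        linarith
      · calc wt a b s * (E - η) ≤ 1 * (E - η) := mul_le_mul_of_nonneg_right w1 h3.le
          _ ≤ _ := by linarith
    have h4 : cg * (wt a b s * (E * ‖P s‖ ^ 2) - η * (wt a b s * ‖P s‖ ^ 2) - 1 / 2 * ‖P s‖ ^ 2) ≤ 0 := by
      have e2 : cg * (wt a b s * (E * ‖P s‖ ^ 2) - η * (wt a b s * ‖P s‖ ^ 2) - 1 / 2 * ‖P s‖ ^ 2) =
          -(cg * ((1 / 2 - wt a b s * (E - η)) * ‖P s‖ ^ 2)) := by ring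
      rw [e2, neg_nonpos]
      exact mul_nonneg hcg (mul_nonneg (by linarith) hP0)
    exact h4.trans (mul_nonneg w0 (mul_nonneg (Ye_nonneg _ _ _) (by positivity)))

/-- the odd part -/
lemma odd_part {a b c₀ η : ℝ} {N : ℕ} {e : ℕ → ℝ}
    (h : ∀ x ∈ Set.Icc (-1 : ℝ) 1, |(∑ i ∈ range N, e i * x ^ (2 * i + 1)) - go c₀ x| ≤ η) (_hη : 0 ≤ η)
    {ω : ℂ} (hω : ‖ω‖ = 1) (hab : a < b) {F : ℝ → ℝ} (hF : Continuous F) (hF0 : ∀ s, 0 ≤ F s) :
    |∫ s in a..b, wt a b s * (Yo c₀ ω (zt s) * F s)| ≤ |∫ s in a..b, wt a b s * (Qo e N ω (zt s) (ph s) * F s)| +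
      η * ∫ s in a..b, ‖zt s‖ * F s := by
  have c1 := wt_cont a b
  have c2 := Qo_cont e N ω
  have c3 := Yo_cont c₀ ω
  have c4 := zt_cont
  have i1 : IntervalIntegrable (fun s => wt a b s * (Qo e N ω (zt s) (ph s) * F s)) volume a b :=
    Continuous.intervalIntegrable (by fun_prop) _ _
  have i2 : IntervalIntegrable (fun s => wt a b s * (Yo c₀ ω (zt s) * F s)) volume a b :=
    Continuous.intervalIntegrable (by fun_prop) _ _
  have i3 : IntervalIntegrable (fun s => η * (‖zt s‖ * F s)) volume a b :=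
    Continuous.intervalIntegrable (by fun_prop) _ _
  have h1 : |∫ s in a..b, (wt a b s * (Yo c₀ ω (zt s) * F s) - wt a b s * (Qo e N ω (zt s) (ph s) * F s))| ≤
      η * ∫ s in a..b, ‖zt s‖ * F s := by
    refine (intervalIntegral.abs_integral_le_integral_abs hab.le).trans ?_
    rw [← intervalIntegral.integral_const_mul]
    refine intervalIntegral.integral_mono_on hab.le (i2.sub i1).abs i3 fun s hs => ?_
    have w0 := wt_nonneg hs.1 hs.2
    have w1 := wt_le (t := s) hab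
    have h2 := Qo_near h (zt_ph s) hω
    rw [abs_sub_comm] at h2
    rw [← mul_sub, ← sub_mul, abs_mul, abs_mul, abs_of_nonneg w0, abs_of_nonneg (hF0 s)]
    calc wt a b s * (|Yo c₀ ω (zt s) - Qo e N ω (zt s) (ph s)| * F s) ≤ 1 * ((η * ‖zt s‖) * F s) := by
          have := hF0 s
          gcongr
      _ = _ := by ring
  rw [intervalIntegral.integral_sub i2 i1] at h1
  have h5 := abs_sub_abs_le_abs_sub (∫ s in a..b, wt a b s * (Yo c₀ ω (zt s) * F s))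
    (∫ s in a..b, wt a b s * (Qo e N ω (zt s) (ph s) * F s))
  linarith

/-- the sector -/
lemma sector_part {a b ρ : ℝ} (hρ : 0 < ρ) (hρ1 : ρ ≤ 1) {ω : ℂ} (hω : ‖ω‖ = 1) (hab : a < b) {F : ℝ → ℝ}
    (hF : Continuous F) (hF0 : ∀ s, 0 ≤ F s) :
    (∫ s in a..b, wt a b s * (Ye (1 - ρ ^ 2 / 2) ω (zt s) * F s)) +
      (∫ s in a..b, wt a b s * (Yo (1 - ρ ^ 2 / 2) ω (zt s) * F s)) ≤
      ∫ s in a..b, (Sec ρ ω).indicator (fun s => ‖zt s‖ * F s) s := by
  have c1 := wt_cont a b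
  have c2 := Ye_cont (1 - ρ ^ 2 / 2) ω
  have c3 := Yo_cont (1 - ρ ^ 2 / 2) ω
  have c4 := zt_cont
  have i1 : IntervalIntegrable (fun s => wt a b s * (Ye (1 - ρ ^ 2 / 2) ω (zt s) * F s)) volume a b :=
    Continuous.intervalIntegrable (by fun_prop) _ _
  have i2 : IntervalIntegrable (fun s => wt a b s * (Yo (1 - ρ ^ 2 / 2) ω (zt s) * F s)) volume a b :=
    Continuous.intervalIntegrable (by fun_prop) _ _
  have i3 : IntervalIntegrable (fun s => (Sec ρ ω).indicator (fun s => ‖zt s‖ * F s) s) volume a b := by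
    rw [intervalIntegrable_iff_integrableOn_Ioc_of_le hab.le]
    refine Integrable.indicator ?_ (Sec_meas ρ ω)
    exact (((c4.norm.mul hF).integrableOn_Icc (a := a) (b := b)).mono_set Set.Ioc_subset_Icc_self)
  rw [← intervalIntegral.integral_add i1 i2]
  refine intervalIntegral.integral_mono_on hab.le (i1.add i2) i3 fun s hs => ?_
  have w0 := wt_nonneg hs.1 hs.2
  have w1 := wt_le (t := s) hab
  have hF1 := hF0 s
  have hc : 0 ≤ 1 - ρ ^ 2 / 2 := by nlinarith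
  rw [← mul_add, ← add_mul, ← Ys_split]
  by_cases hs' : s ∈ Sec ρ ω
  · rw [Set.indicator_of_mem hs']
    have h1 := Ys_le hc hω (zt s)
    have h2 := Ys_nonneg (1 - ρ ^ 2 / 2) ω (zt s)
    calc wt a b s * (Ys (1 - ρ ^ 2 / 2) ω (zt s) * F s) ≤ 1 * (‖zt s‖ * F s) := by gcongr
      _ = _ := one_mul _
  · rw [Set.indicator_of_notMem hs', Ys_zero hρ hω hs']
    simp

end

end Pool.Agent.Run7.h74.DW
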